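import Pool.Agent.Lib.MP_dadc30_coG.TorB

set_option linter.all false

/-!
# MP_dadc30_co, Theorem Q, module Arc: upper unit semicircles (helper78)
-/

open MeasureTheory Filter Topology
open scoped Real ComplexConjugate

namespace Dadc30.Gap

theorem Arc_norm (p c : ℂ) : ‖p - c‖ = 1 ↔ (p.re - c.re) ^ 2 + (p.im - c.im) ^ 2 = 1 := by
  have h1 : ‖p - c‖ ^ 2 = (p.re - c.re) ^ 2 + (p.im - c.im) ^ 2 := by
    rw [Complex.sq_norm, Complex.normSq_apply, Complex.sub_re, Complex.sub_im]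
    ring
  constructor
  · intro h
    rw [← h1, h, one_pow]
  · intro h
    rw [h] at h1
    have h2 := norm_nonneg (p - c)
    nlinarith [h1, h2, sq_nonneg (‖p - c‖ - 1)]

theorem Arc_sq (c : ℂ) (s : ℝ) (h : |s - c.re| ≤ 1) :
    (s - c.re) ^ 2 + (arc c s - c.im) ^ 2 = 1 ∧ c.im ≤ arc c s := by
  have h1 : (s - c.re) ^ 2 ≤ 1 := (sq_le_one_iff_abs_le_one _).2 h
  have h2 : (0 : ℝ) ≤ 1 - (s - c.re) ^ 2 := by linarith
  have h3 : arc c s - c.im = √(1 - (s - c.re) ^ 2) := by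
    unfold arc
    ring
  constructor
  · rw [h3, Real.sq_sqrt h2]
    ring
  · have := Real.sqrt_nonneg (1 - (s - c.re) ^ 2)
    linarith

theorem arcStmt : ArcStmt := by
  refine ⟨?_, ?_⟩
  · intro p c
    rw [Arc_norm]
    constructor
    · rintro ⟨h1, h2⟩
      have h3 : |p.re - c.re| ≤ 1 := by
        rw [← sq_le_one_iff_abs_le_one]
        nlinarith [sq_nonneg (p.im - c.im)]
      refine ⟨h3, ?_⟩
      have h4 : 1 - (p.re - c.re) ^ 2 = (p.im - c.im) ^ 2 := by linarith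
      unfold arc
      rw [h4, Real.sqrt_sq (by linarith)]
      ring
    · rintro ⟨h1, h2⟩
      have h3 := Arc_sq c p.re h1
      rw [← h2] at h3
      exact h3
  · intro c c' hne s s' h1 h2 h3 h4 h5 h6
    by_contra hss
    obtain ⟨e1, f1⟩ := Arc_sq c s h1
    obtain ⟨e2, f2⟩ := Arc_sq c' s h2
    obtain ⟨e3, f3⟩ := Arc_sq c s' h3
    obtain ⟨e4, f4⟩ := Arc_sq c' s' h4
    rw [← h5] at e2 f2
    rw [← h6] at e4 f4
    obtain ⟨t, ht⟩ : ∃ t : ℝ, t = arc c s := ⟨_, rfl⟩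
    obtain ⟨t', ht'⟩ : ∃ t' : ℝ, t' = arc c s' := ⟨_, rfl⟩
    rw [← ht] at e1 f1 e2 f2
    rw [← ht'] at e3 f3 e4 f4
    obtain ⟨a, ha⟩ : ∃ a : ℝ, a = c.re := ⟨_, rfl⟩
    obtain ⟨b, hb⟩ : ∃ b : ℝ, b = c.im := ⟨_, rfl⟩
    obtain ⟨a', ha'⟩ : ∃ a' : ℝ, a' = c'.re := ⟨_, rfl⟩
    obtain ⟨b', hb'⟩ : ∃ b' : ℝ, b' = c'.im := ⟨_, rfl⟩
    rw [← ha, ← hb] at e1 e3
    rw [← ha', ← hb'] at e2 e4
    rw [← hb] at f1 f3
    rw [← hb'] at f2 f4
    have hu : s - s' ≠ 0 := sub_ne_zero.2 hss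
    have k1 : (s - s') * (a' - a) + (t - t') * (b' - b) = 0 := by
      linear_combination (1 / 2) * (e1 - e2 - e3 + e4)
    have hd : b' - b ≠ 0 := by
      intro h
      rw [h, mul_zero, add_zero] at k1
      have h7 : a' - a = 0 := (mul_eq_zero.1 k1).resolve_left hu
      apply hne
      apply Complex.ext
      · rw [← ha, ← ha']
        linarith
      · rw [← hb, ← hb']
        linarith
    have kA : (a' - a) * (s + s' - a - a') + (b' - b) * (t + t' - b - b') = 0 := by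
      linear_combination (1 / 2) * (e1 - e2 + e3 - e4)
    have kB : (s - s') * (s + s' - a - a') + (t - t') * (t + t' - b - b') = 0 := by
      linear_combination (1 / 2) * (e1 + e2 - e3 - e4)
    have k2 : ((b' - b) * ((s - s') ^ 2 + (t - t') ^ 2)) * (t + t' - b - b') = 0 := by
      linear_combination (s - s') ^ 2 * kA - (s - s') * (a' - a) * kB +
        (t - t') * (t + t' - b - b') * k1
    have k3 : (b' - b) * ((s - s') ^ 2 + (t - t') ^ 2) ≠ 0 := by
      refine mul_ne_zero hd ?_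
      have := sq_pos_of_ne_zero hu
      have := sq_nonneg (t - t')
      linarith
    have k4 : t + t' - b - b' = 0 := (mul_eq_zero.1 k2).resolve_left k3
    apply hd
    linarith

end Dadc30.Gap
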