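import Pool.Agent.Lib.MP_dadc30_coG.TorB

set_option linter.all false

/-!
# MP_dadc30_co, Theorem Q, module Av1: the spectral formula for `DF`
-/

open MeasureTheory Filter Topology
open scoped Real ComplexConjugate

namespace Dadc30.Gap

theorem Av1_cont (ξ : ℂ) (t : ℝ) : Continuous fun φ : ℝ => Real.cos (ip ξ (t * uu φ)) := by
  have h : Continuous fun φ : ℝ => (t : ℂ) * uu φ := continuous_const.mul continuous_uu
  unfold ip
  exact Real.continuous_cos.comp ((continuous_const.mul (Complex.continuous_re.comp h)).add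
    (continuous_const.mul (Complex.continuous_im.comp h)))

theorem av1Stmt : CirStmt → HscStmt → Av1Stmt := by
  intro hC hH F a ξ hF t
  have h0 : HasSum a (F 0) := by
    have := hF.2 0
    simpa [ip] using this
  have hc : ∀ k, Continuous fun φ : ℝ => (1 / 2 : ℝ) * (1 - Real.cos (ip (ξ k) (t * uu φ))) :=
    fun k => continuous_const.mul (continuous_const.sub (Av1_cont (ξ k) t))
  have h := hH (fun k => 2 * a k)
    (fun k φ => (1 / 2 : ℝ) * (1 - Real.cos (ip (ξ k) (t * uu φ))))
    (fun φ => dF F (t * uu φ)) (fun k => mul_nonneg (by norm_num) (hF.1 k))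
    (h0.summable.mul_left 2) hc ?_ ?_
  · have he : ∀ k, 2 * a k * cavg (fun φ => (1 / 2 : ℝ) * (1 - Real.cos (ip (ξ k) (t * uu φ)))) =
        a k * (1 - J (t * ‖ξ k‖)) := by
      intro k
      rw [cavg_mul, cavg_sub continuous_const (Av1_cont (ξ k) t), cavg_const]
      have h1 := hC (ξ k) t 0
      simp only [add_zero, Real.cos_zero, mul_one] at h1
      rw [h1]
      ring
    simp only [he] at h
    exact h
  · intro k φ
    have h1 := Real.neg_one_le_cos (ip (ξ k) (t * uu φ))
    have h2 := Real.cos_le_one (ip (ξ k) (t * uu φ))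
    rw [abs_le]
    constructor <;> linarith
  · intro φ
    have h1 := h0.sub (hF.2 (t * uu φ))
    have h2 : (fun k => 2 * a k * ((1 / 2 : ℝ) * (1 - Real.cos (ip (ξ k) (t * uu φ))))) =
        fun k => a k - a k * Real.cos (ip (ξ k) (t * uu φ)) := by
      funext k
      ring
    rw [h2]
    exact h1

end Dadc30.Gap
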