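import Pool.Agent.Lib.MP_dadc30_coG.TorB

set_option linter.all false

/-!
# MP_dadc30_coG, Av2: the spectral formula for `QF`
-/

open MeasureTheory Filter Topology
open scoped Real ComplexConjugate

namespace Dadc30.Gap

theorem Av2_cont (ξ : ℂ) {w : ℝ → ℂ} (hw : Continuous w) : Continuous fun φ => ip ξ (w φ) := by
  unfold ip
  exact (continuous_const.mul (Complex.continuous_re.comp hw)).add
    (continuous_const.mul (Complex.continuous_im.comp hw))

theorem Av2_ip_sub (ξ v w : ℂ) : ip ξ (v - w) = ip ξ v - ip ξ w := by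
  unfold ip
  simp only [Complex.sub_re, Complex.sub_im]
  ring

theorem Av2_ip_neg (ξ w : ℂ) : ip ξ (-w) = -ip ξ w := by
  unfold ip
  simp only [Complex.neg_re, Complex.neg_im]
  ring

theorem Av2_ip_zero (ξ : ℂ) : ip ξ 0 = 0 := by
  unfold ip
  simp

theorem Av2_abs (x y : ℝ) (hx : |x| ≤ 1) (hy : |y| ≤ 1) : |x * y| ≤ 1 := by
  rw [abs_mul]
  exact mul_le_one₀ hx (abs_nonneg _) hy

theorem Av2_congr {f g : (Fin 2 → ℤ) → ℝ} {s : ℝ} (h : HasSum f s) (e : ∀ k, g k = f k) :
    HasSum g s := by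
  have : g = f := funext e
  rw [this]
  exact h

theorem av2Stmt (hC : CirStmt) (hH : HscStmt) (hB : Bes1Stmt) : Av2Stmt := by
  intro F a ξ hS t
  obtain ⟨ha, hF⟩ := hS
  have hsum : Summable a := by
    have h0 := (hF 0).summable
    refine h0.congr fun k => ?_
    rw [Av2_ip_zero, Real.cos_zero, mul_one]
  have hJn : ∀ x, J (-x) = J x := fun x => (hB x).1
  have hJ1 : ∀ x, |J x| ≤ 1 := fun x => (hB x).2.1
  have hco : ∀ x : ℝ, |Real.cos x| ≤ 1 := Real.abs_cos_le_one
  -- the average over the second angle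
  have s1 : ∀ (v : ℂ) (φ : ℝ), HasSum (fun k => (2 * a k) *
      ((J ‖ξ k‖ * Real.cos (ip (ξ k) (uu φ)) -
        J ‖ξ k‖ * Real.cos (ip (ξ k) (uu φ) - ip (ξ k) v)) / 2))
      (cavg fun ψ => F (uu φ - uu ψ) - F (uu φ - uu ψ - v)) := by
    intro v φ
    have hg : ∀ ψ, HasSum (fun k => (2 * a k) * ((Real.cos (ip (ξ k) (uu φ - uu ψ)) -
        Real.cos (ip (ξ k) (uu φ - uu ψ - v))) / 2)) (F (uu φ - uu ψ) - F (uu φ - uu ψ - v)) := by
      intro ψ
      have := (hF (uu φ - uu ψ)).sub (hF (uu φ - uu ψ - v))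
      exact Av2_congr this fun k => by ring
    have key := hH (fun k => 2 * a k) (fun k ψ => (Real.cos (ip (ξ k) (uu φ - uu ψ)) -
        Real.cos (ip (ξ k) (uu φ - uu ψ - v))) / 2)
      (fun ψ => F (uu φ - uu ψ) - F (uu φ - uu ψ - v))
      (fun k => by have := ha k; positivity) (hsum.mul_left 2) ?_ ?_ hg
    · have e : ∀ k, cavg (fun ψ => (Real.cos (ip (ξ k) (uu φ - uu ψ)) -
          Real.cos (ip (ξ k) (uu φ - uu ψ - v))) / 2) =
          (J ‖ξ k‖ * Real.cos (ip (ξ k) (uu φ)) -
            J ‖ξ k‖ * Real.cos (ip (ξ k) (uu φ) - ip (ξ k) v)) / 2 := by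
        intro k
        have c1 := hC (ξ k) (-1) (ip (ξ k) (uu φ))
        have c2 := hC (ξ k) (-1) (ip (ξ k) (uu φ) - ip (ξ k) v)
        rw [neg_one_mul, hJn] at c1 c2
        have d1 : (fun ψ => Real.cos (ip (ξ k) (uu φ - uu ψ))) =
            fun ψ => Real.cos (ip (ξ k) (((-1 : ℝ) : ℂ) * uu ψ) + ip (ξ k) (uu φ)) := by
          funext ψ
          congr 1
          rw [Av2_ip_sub]
          push_cast
          rw [neg_one_mul, Av2_ip_neg]
          ring
        have d2 : (fun ψ => Real.cos (ip (ξ k) (uu φ - uu ψ - v))) =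
            fun ψ => Real.cos (ip (ξ k) (((-1 : ℝ) : ℂ) * uu ψ) +
              (ip (ξ k) (uu φ) - ip (ξ k) v)) := by
          funext ψ
          congr 1
          rw [Av2_ip_sub, Av2_ip_sub]
          push_cast
          rw [neg_one_mul, Av2_ip_neg]
          ring
        have k1 : Continuous fun ψ => Real.cos (ip (ξ k) (uu φ - uu ψ)) :=
          Real.continuous_cos.comp (Av2_cont _ (continuous_const.sub continuous_uu))
        have k2 : Continuous fun ψ => Real.cos (ip (ξ k) (uu φ - uu ψ - v)) :=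
          Real.continuous_cos.comp
            (Av2_cont _ ((continuous_const.sub continuous_uu).sub continuous_const))
        have : (fun ψ => (Real.cos (ip (ξ k) (uu φ - uu ψ)) -
          Real.cos (ip (ξ k) (uu φ - uu ψ - v))) / 2) = fun ψ => (1 / 2) *
            (Real.cos (ip (ξ k) (uu φ - uu ψ)) - Real.cos (ip (ξ k) (uu φ - uu ψ - v))) := by
          funext ψ
          ring
        rw [this, cavg_mul, cavg_sub k1 k2, d1, d2, c1, c2]
        ring
      simpa only [e] using key
    · intro k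
      exact ((Real.continuous_cos.comp (Av2_cont _ (continuous_const.sub continuous_uu))).sub
        (Real.continuous_cos.comp
          (Av2_cont _ ((continuous_const.sub continuous_uu).sub continuous_const)))).div_const 2
    · intro k ψ
      have h1 := abs_le.1 (hco (ip (ξ k) (uu φ - uu ψ)))
      have h2 := abs_le.1 (hco (ip (ξ k) (uu φ - uu ψ - v)))
      rw [abs_le]
      constructor <;> linarith [h1.1, h1.2, h2.1, h2.2]
  -- the average over the first angle
  have s2 : ∀ v : ℂ, HasSum (fun k => (4 * a k) *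
      (J ‖ξ k‖ ^ 2 * (1 - Real.cos (ip (ξ k) v)) / 2)) (qF F v) := by
    intro v
    have key := hH (fun k => 2 * a k) (fun k φ => (J ‖ξ k‖ * Real.cos (ip (ξ k) (uu φ)) -
        J ‖ξ k‖ * Real.cos (ip (ξ k) (uu φ) - ip (ξ k) v)) / 2)
      (fun φ => cavg fun ψ => F (uu φ - uu ψ) - F (uu φ - uu ψ - v))
      (fun k => by have := ha k; positivity) (hsum.mul_left 2) ?_ ?_ (fun φ => s1 v φ)
    · have e : ∀ k, cavg (fun φ => (J ‖ξ k‖ * Real.cos (ip (ξ k) (uu φ)) -
          J ‖ξ k‖ * Real.cos (ip (ξ k) (uu φ) - ip (ξ k) v)) / 2) =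
          J ‖ξ k‖ ^ 2 * (1 - Real.cos (ip (ξ k) v)) / 2 := by
        intro k
        have c1 := hC (ξ k) 1 0
        have c2 := hC (ξ k) 1 (-ip (ξ k) v)
        rw [one_mul] at c1 c2
        rw [Real.cos_neg] at c2
        rw [Real.cos_zero] at c1
        have d1 : (fun φ => Real.cos (ip (ξ k) (uu φ))) =
            fun φ => Real.cos (ip (ξ k) (((1 : ℝ) : ℂ) * uu φ) + 0) := by
          funext φ
          push_cast
          rw [one_mul, add_zero]
        have d2 : (fun φ => Real.cos (ip (ξ k) (uu φ) - ip (ξ k) v)) =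
            fun φ => Real.cos (ip (ξ k) (((1 : ℝ) : ℂ) * uu φ) + -ip (ξ k) v) := by
          funext φ
          push_cast
          rw [one_mul, sub_eq_add_neg]
        have k1 : Continuous fun φ => Real.cos (ip (ξ k) (uu φ)) :=
          Real.continuous_cos.comp (Av2_cont _ continuous_uu)
        have k2 : Continuous fun φ => Real.cos (ip (ξ k) (uu φ) - ip (ξ k) v) :=
          Real.continuous_cos.comp ((Av2_cont _ continuous_uu).sub continuous_const)
        have : (fun φ => (J ‖ξ k‖ * Real.cos (ip (ξ k) (uu φ)) -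
          J ‖ξ k‖ * Real.cos (ip (ξ k) (uu φ) - ip (ξ k) v)) / 2) = fun φ => (J ‖ξ k‖ / 2) *
            (Real.cos (ip (ξ k) (uu φ)) - Real.cos (ip (ξ k) (uu φ) - ip (ξ k) v)) := by
          funext φ
          ring
        rw [this, cavg_mul, cavg_sub k1 k2, d1, d2, c1, c2]
        ring
      have key2 := key.mul_left 2
      simp only [e] at key2
      unfold qF
      exact Av2_congr key2 fun k => by ring
    · intro k
      exact ((continuous_const.mul (Real.continuous_cos.comp (Av2_cont _ continuous_uu))).sub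
        (continuous_const.mul (Real.continuous_cos.comp
          ((Av2_cont _ continuous_uu).sub continuous_const)))).div_const 2
    · intro k φ
      have h1 := abs_le.1 (Av2_abs _ _ (hJ1 ‖ξ k‖) (hco (ip (ξ k) (uu φ))))
      have h2 := abs_le.1 (Av2_abs _ _ (hJ1 ‖ξ k‖) (hco (ip (ξ k) (uu φ) - ip (ξ k) v)))
      rw [abs_le]
      constructor <;> linarith [h1.1, h1.2, h2.1, h2.2]
  -- the average over the direction of `v`
  have key := hH (fun k => 4 * a k) (fun k ω => J ‖ξ k‖ ^ 2 *
      (1 - Real.cos (ip (ξ k) (t * uu ω))) / 2) (fun ω => qF F (t * uu ω))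
    (fun k => by have := ha k; positivity) (hsum.mul_left 4) ?_ ?_ (fun ω => s2 (t * uu ω))
  · have e : ∀ k, cavg (fun ω => J ‖ξ k‖ ^ 2 * (1 - Real.cos (ip (ξ k) (t * uu ω))) / 2) =
        J ‖ξ k‖ ^ 2 * (1 - J (t * ‖ξ k‖)) / 2 := by
      intro k
      have c1 := hC (ξ k) t 0
      rw [Real.cos_zero, mul_one] at c1
      simp only [add_zero] at c1
      have k1 : Continuous fun ω => Real.cos (ip (ξ k) (t * uu ω)) :=
        Real.continuous_cos.comp (Av2_cont _ (continuous_const.mul continuous_uu))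
      have : (fun ω => J ‖ξ k‖ ^ 2 * (1 - Real.cos (ip (ξ k) (t * uu ω))) / 2) =
          fun ω => (J ‖ξ k‖ ^ 2 / 2) * (1 - Real.cos (ip (ξ k) (t * uu ω))) := by
        funext ω
        ring
      rw [this, cavg_mul, cavg_sub continuous_const k1, cavg_const, c1]
      ring
    simp only [e] at key
    unfold QF
    exact Av2_congr key fun k => by ring
  · intro k
    exact (continuous_const.mul (continuous_const.sub (Real.continuous_cos.comp
      (Av2_cont _ (continuous_const.mul continuous_uu))))).div_const 2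
  · intro k ω
    have h1 := abs_le.1 (hco (ip (ξ k) (t * uu ω)))
    have h2 : J ‖ξ k‖ ^ 2 ≤ 1 := by
      rw [← sq_abs]
      exact pow_le_one₀ (abs_nonneg _) (hJ1 _)
    rw [abs_le]
    constructor
    · have : 0 ≤ J ‖ξ k‖ ^ 2 * (1 - Real.cos (ip (ξ k) (t * uu ω))) :=
        mul_nonneg (sq_nonneg _) (by linarith [h1.2])
      linarith
    · nlinarith [h1.1, h1.2, sq_nonneg (J ‖ξ k‖)]

end Dadc30.Gap
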