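import Pool.Agent.Lib.MP_dadc30_coG.TorB

set_option linter.all false

/-!
# MP_dadc30_co, Theorem Q, module Bes1: elementary bounds of the Bessel function
-/

open MeasureTheory Filter Topology
open scoped Real ComplexConjugate

namespace Dadc30.Gap

theorem Bes1_cont (x : ℝ) : Continuous fun φ : ℝ => Real.cos (x * Real.cos φ) := by
  fun_prop

theorem Bes1_sq (c : ℝ) : cavg (fun φ => c * Real.cos φ ^ 2) = c / 2 := by
  rw [cavg_mul]
  unfold cavg
  rw [integral_cos_sq]
  simp only [Real.cos_two_pi, Real.sin_two_pi, Real.cos_zero, Real.sin_zero]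
  field_simp
  ring

theorem Bes1_one_sub (x : ℝ) : 1 - J x = cavg (fun φ => 1 - Real.cos (x * Real.cos φ)) := by
  rw [cavg_sub continuous_const (Bes1_cont x), cavg_const]
  rfl

theorem bes1Stmt : Bes1Stmt := by
  intro x
  refine ⟨?_, ?_, ?_, fun hx => ?_⟩
  · unfold J
    congr 1
    funext φ
    rw [neg_mul, Real.cos_neg]
  · rw [abs_le]
    constructor
    · have h := cavg_mono (f := fun _ => (-1 : ℝ)) continuous_const (Bes1_cont x)
        (fun φ => Real.neg_one_le_cos _)
      rw [cavg_const] at h
      exact h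
    · have h := cavg_mono (g := fun _ => (1 : ℝ)) (Bes1_cont x) continuous_const
        (fun φ => Real.cos_le_one _)
      rw [cavg_const] at h
      exact h
  · rw [Bes1_one_sub]
    have h := cavg_mono (f := fun φ => 1 - Real.cos (x * Real.cos φ))
      (g := fun φ => (x ^ 2 / 2) * Real.cos φ ^ 2) (continuous_const.sub (Bes1_cont x))
      (by fun_prop) (fun φ => ?_)
    · rw [Bes1_sq] at h
      linarith
    · have h1 := Real.one_sub_sq_div_two_le_cos (x := x * Real.cos φ)
      have h2 : (x * Real.cos φ) ^ 2 = x ^ 2 * Real.cos φ ^ 2 := by ring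
      rw [h2] at h1
      show 1 - Real.cos (x * Real.cos φ) ≤ (x ^ 2 / 2) * Real.cos φ ^ 2
      linarith
  · rw [Bes1_one_sub]
    have h := cavg_mono (g := fun φ => 1 - Real.cos (x * Real.cos φ))
      (f := fun φ => (2 / π ^ 2 * x ^ 2) * Real.cos φ ^ 2) (by fun_prop)
      (continuous_const.sub (Bes1_cont x)) (fun φ => ?_)
    · rw [Bes1_sq] at h
      refine le_trans (le_of_eq ?_) h
      field_simp
    · have h0 : |x * Real.cos φ| ≤ π := by
        rw [abs_mul]
        have h1 := Real.abs_cos_le_one φ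
        have h2 := Real.pi_gt_three
        have h3 := mul_le_mul hx h1 (abs_nonneg _) zero_le_one
        linarith
      have h1 := Real.cos_le_one_sub_mul_cos_sq h0
      have h2 : (x * Real.cos φ) ^ 2 = x ^ 2 * Real.cos φ ^ 2 := by ring
      rw [h2] at h1
      show (2 / π ^ 2 * x ^ 2) * Real.cos φ ^ 2 ≤ 1 - Real.cos (x * Real.cos φ)
      linarith

end Dadc30.Gap
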