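import Pool.Agent.Lib.MP_dadc30_coG.TorB

set_option autoImplicit false

/-!
# MP_dadc30_co, package G, module Bes2: decay of the Bessel function
-/

open MeasureTheory Filter Topology
open scoped Real

namespace Dadc30.Gap

theorem Bes2_cont (x : ℝ) : Continuous fun φ : ℝ => Real.cos (x * Real.cos φ) := by fun_prop

theorem Bes2_quarter (x : ℝ) : ∫ φ in (0 : ℝ)..(2 * π), Real.cos (x * Real.cos φ) =
    4 * ∫ φ in (0 : ℝ)..(π / 2), Real.cos (x * Real.cos φ) := by
  have hi : ∀ a b : ℝ, IntervalIntegrable (fun φ : ℝ => Real.cos (x * Real.cos φ)) volume a b :=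
    fun a b => (Bes2_cont x).intervalIntegrable a b
  have e1 : ∫ φ in π..(2 * π), Real.cos (x * Real.cos φ) =
      ∫ φ in (0 : ℝ)..π, Real.cos (x * Real.cos φ) := by
    have h := intervalIntegral.integral_comp_add_right (a := 0) (b := π)
      (fun φ : ℝ => Real.cos (x * Real.cos φ)) π
    have h2 : ∀ φ : ℝ, Real.cos (x * Real.cos (φ + π)) = Real.cos (x * Real.cos φ) := by
      intro φ
      rw [Real.cos_add_pi, mul_neg, Real.cos_neg]
    simp only [h2] at h
    rw [h]
    congr 1 <;> ring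
  have e2 : ∫ φ in (π / 2)..π, Real.cos (x * Real.cos φ) =
      ∫ φ in (0 : ℝ)..(π / 2), Real.cos (x * Real.cos φ) := by
    have h := intervalIntegral.integral_comp_sub_left (a := 0) (b := π / 2)
      (fun φ : ℝ => Real.cos (x * Real.cos φ)) π
    have h2 : ∀ φ : ℝ, Real.cos (x * Real.cos (π - φ)) = Real.cos (x * Real.cos φ) := by
      intro φ
      rw [Real.cos_pi_sub, mul_neg, Real.cos_neg]
    simp only [h2] at h
    rw [h]
    congr 1 <;> ring
  rw [← intervalIntegral.integral_add_adjacent_intervals (hi 0 π) (hi π (2 * π)), e1,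
    ← intervalIntegral.integral_add_adjacent_intervals (hi 0 (π / 2)) (hi (π / 2) π), e2]
  ring

theorem Bes2_part (x δ : ℝ) (hx : 0 < x) (hδ : 0 < δ) (hδ2 : δ ≤ π / 2) :
    |∫ φ in δ..(π / 2), Real.cos (x * Real.cos φ)| ≤ 2 / (x * Real.sin δ) := by
  have hsin : ∀ φ ∈ Set.Icc δ (π / 2), 0 < Real.sin φ := by
    intro φ hφ
    exact Real.sin_pos_of_pos_of_lt_pi (hδ.trans_le hφ.1) (by linarith [hφ.2, Real.pi_pos])
  have hsd : 0 < Real.sin δ := hsin δ ⟨le_rfl, hδ2⟩
  have huIcc : Set.uIcc δ (π / 2) = Set.Icc δ (π / 2) := Set.uIcc_of_le hδ2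
  have hc1 : ContinuousOn (fun φ : ℝ => Real.cos (x * Real.cos φ)) (Set.uIcc δ (π / 2)) :=
    (Bes2_cont x).continuousOn
  have hc2 : ContinuousOn (fun φ : ℝ => Real.sin (x * Real.cos φ) * Real.cos φ /
      (x * Real.sin φ ^ 2)) (Set.uIcc δ (π / 2)) := by
    refine ContinuousOn.div (by fun_prop) (by fun_prop) ?_
    intro φ hφ
    rw [huIcc] at hφ
    have := hsin φ hφ
    positivity
  have hc3 : ContinuousOn (fun φ : ℝ => Real.cos φ / (x * Real.sin φ ^ 2))
      (Set.uIcc δ (π / 2)) := by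
    refine ContinuousOn.div (by fun_prop) (by fun_prop) ?_
    intro φ hφ
    rw [huIcc] at hφ
    have := hsin φ hφ
    positivity
  have hd1 : ∀ φ ∈ Set.uIcc δ (π / 2), HasDerivAt
      (fun φ => -(Real.sin (x * Real.cos φ) / (x * Real.sin φ)))
      (Real.cos (x * Real.cos φ) + Real.sin (x * Real.cos φ) * Real.cos φ /
        (x * Real.sin φ ^ 2)) φ := by
    intro φ hφ
    rw [huIcc] at hφ
    have hs := hsin φ hφ
    have h1 : HasDerivAt (fun φ => x * Real.cos φ) (x * -Real.sin φ) φ :=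
      (Real.hasDerivAt_cos φ).const_mul x
    have h2 : HasDerivAt (fun φ => Real.sin (x * Real.cos φ))
        (Real.cos (x * Real.cos φ) * (x * -Real.sin φ)) φ := h1.sin
    have h3 : HasDerivAt (fun φ => x * Real.sin φ) (x * Real.cos φ) φ :=
      (Real.hasDerivAt_sin φ).const_mul x
    have h4 := (h2.div h3 (by positivity)).neg
    refine h4.congr_deriv ?_
    field_simp
    ring
  have hd2 : ∀ φ ∈ Set.uIcc δ (π / 2), HasDerivAt
      (fun φ => -(1 / (x * Real.sin φ))) (Real.cos φ / (x * Real.sin φ ^ 2)) φ := by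
    intro φ hφ
    rw [huIcc] at hφ
    have hs := hsin φ hφ
    have h3 : HasDerivAt (fun φ => x * Real.sin φ) (x * Real.cos φ) φ :=
      (Real.hasDerivAt_sin φ).const_mul x
    have h4 := ((hasDerivAt_const φ (1 : ℝ)).div h3 (by positivity)).neg
    refine h4.congr_deriv ?_
    field_simp
    ring
  have hI1 := intervalIntegral.integral_eq_sub_of_hasDerivAt hd1
    ((hc1.add hc2).intervalIntegrable)
  have hI2 := intervalIntegral.integral_eq_sub_of_hasDerivAt hd2 hc3.intervalIntegrable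
  rw [intervalIntegral.integral_add hc1.intervalIntegrable hc2.intervalIntegrable] at hI1
  have hb : |∫ φ in δ..(π / 2), Real.sin (x * Real.cos φ) * Real.cos φ / (x * Real.sin φ ^ 2)| ≤
      ∫ φ in δ..(π / 2), Real.cos φ / (x * Real.sin φ ^ 2) := by
    have h := intervalIntegral.norm_integral_le_of_norm_le (μ := volume) hδ2
      (f := fun φ => Real.sin (x * Real.cos φ) * Real.cos φ / (x * Real.sin φ ^ 2))
      (g := fun φ => Real.cos φ / (x * Real.sin φ ^ 2))
      (Filter.Eventually.of_forall fun φ hφ => ?_) hc3.intervalIntegrable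
    · rwa [Real.norm_eq_abs] at h
    · have hφ' : φ ∈ Set.Icc δ (π / 2) := ⟨hφ.1.le, hφ.2⟩
      have hs := hsin φ hφ'
      have hcos : 0 ≤ Real.cos φ :=
        Real.cos_nonneg_of_neg_pi_div_two_le_of_le (by linarith [hφ'.1, Real.pi_pos]) hφ'.2
      rw [Real.norm_eq_abs, abs_div, abs_mul, abs_of_nonneg hcos,
        abs_of_pos (by positivity : 0 < x * Real.sin φ ^ 2)]
      refine div_le_div_of_nonneg_right ?_ (by positivity)
      exact mul_le_of_le_one_left hcos (Real.abs_sin_le_one _)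
  rw [hI2] at hb
  rw [Real.cos_pi_div_two, Real.sin_pi_div_two, mul_zero, Real.sin_zero] at hI1
  rw [Real.sin_pi_div_two] at hb
  have hb1 : |Real.sin (x * Real.cos δ) / (x * Real.sin δ)| ≤ 1 / (x * Real.sin δ) := by
    rw [abs_div, abs_of_pos (by positivity : 0 < x * Real.sin δ)]
    exact div_le_div_of_nonneg_right (Real.abs_sin_le_one _) (by positivity)
  have hb2 : 0 < 1 / (x * 1) := by positivity
  have e : (2 : ℝ) / (x * Real.sin δ) = 1 / (x * Real.sin δ) + 1 / (x * Real.sin δ) := by ring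
  rw [e]
  rw [abs_le] at hb hb1 ⊢
  simp only [zero_div, neg_zero, zero_sub, neg_neg] at hI1
  constructor <;> linarith [hb.1, hb.2, hb1.1, hb1.2]

theorem bes2Stmt : Bes2Stmt := by
  intro x hx
  have hx0 : 0 < x := by linarith
  set r := Real.sqrt x with hr
  have hr1 : 1 ≤ r := Real.one_le_sqrt.2 hx
  have hr0 : 0 < r := by linarith
  have hrr : r ^ 2 = x := Real.sq_sqrt hx0.le
  have hpi := Real.pi_gt_d2
  have hδ : 0 < 1 / r := by positivity
  have hδ1 : 1 / r ≤ 1 := by
    rw [div_le_one hr0]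
    exact hr1
  have hδ2 : 1 / r ≤ π / 2 := by linarith
  have hi : ∀ a b : ℝ, IntervalIntegrable (fun φ : ℝ => Real.cos (x * Real.cos φ)) volume a b :=
    fun a b => (Bes2_cont x).intervalIntegrable a b
  have h1 : |∫ φ in (0 : ℝ)..(1 / r), Real.cos (x * Real.cos φ)| ≤ 1 / r := by
    have h := intervalIntegral.norm_integral_le_of_norm_le_const (a := 0) (b := 1 / r) (C := 1)
      (f := fun φ : ℝ => Real.cos (x * Real.cos φ)) (fun φ _ => by
        rw [Real.norm_eq_abs]
        exact Real.abs_cos_le_one _)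
    rw [Real.norm_eq_abs, sub_zero, abs_of_pos hδ, one_mul] at h
    exact h
  have h2 := Bes2_part x (1 / r) hx0 hδ hδ2
  have hs := Real.mul_le_sin hδ.le hδ2
  have h3 : 2 / (x * Real.sin (1 / r)) ≤ π / r := by
    have h4 : 0 < 2 / π * (1 / r) := by positivity
    have h5 : x * (2 / π * (1 / r)) ≤ x * Real.sin (1 / r) :=
      mul_le_mul_of_nonneg_left hs hx0.le
    refine (div_le_div_of_nonneg_left (by norm_num) (by positivity) h5).trans (le_of_eq ?_)
    rw [← hrr]
    field_simp
  have h4 : |∫ φ in (0 : ℝ)..(π / 2), Real.cos (x * Real.cos φ)| ≤ (1 + π) / r := by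
    rw [← intervalIntegral.integral_add_adjacent_intervals (hi 0 (1 / r)) (hi (1 / r) (π / 2))]
    refine (abs_add_le _ _).trans ((add_le_add h1 (h2.trans h3)).trans (le_of_eq ?_))
    ring
  have h5 : |J x| ≤ 2 * (1 + π) / π / r := by
    unfold J cavg
    rw [Bes2_quarter, abs_mul, abs_mul, abs_of_pos (by positivity : 0 < (2 * π)⁻¹),
      abs_of_pos (by norm_num : (0 : ℝ) < 4)]
    refine (mul_le_mul_of_nonneg_left (mul_le_mul_of_nonneg_left h4 (by norm_num))
      (by positivity)).trans (le_of_eq ?_)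
    field_simp
    ring
  have h6 : J x ^ 2 ≤ (2 * (1 + π) / π / r) ^ 2 := by
    rw [← sq_abs (J x)]
    exact pow_le_pow_left₀ (abs_nonneg _) h5 2
  have h7 : x * J x ^ 2 ≤ (2 * (1 + π) / π) ^ 2 := by
    refine (mul_le_mul_of_nonneg_left h6 hx0.le).trans (le_of_eq ?_)
    rw [← hrr]
    field_simp
  refine h7.trans ?_
  rw [div_pow, div_le_iff₀ (by positivity)]
  nlinarith

end Dadc30.Gap
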