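import Pool.Agent.Lib.MP_dadc30_coG.TorB

set_option linter.all false

/-!
# MP_dadc30_co, Theorem Q, module CS: the Cauchy-Schwarz estimate
-/

open MeasureTheory Filter Topology
open scoped Real ComplexConjugate

namespace Dadc30.Gap

theorem CS_bdd {f : Tor → ℝ} (hf : Measurable f) {C : ℝ} (h : ∀ z, |f z| ≤ C) :
    Integrable f haarT :=
  Integrable.of_bound hf.aestronglyMeasurable C (ae_of_all _ fun z => by
    rw [Real.norm_eq_abs]; exact h z)

theorem csStmt : CS1Stmt → CS2Stmt → CorStmt → SpeStmt → CntStmt → CSStmt := by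
  intro h1 h2 hCor hSpe hCnt T B hB hU v
  obtain ⟨hm, hm01, hm0, hI⟩ := h1 T B hB
  obtain ⟨c0, c1, c2, c3, c4, c5, c6⟩ := hCor T B hB
  obtain ⟨a, ξ, hs⟩ := hSpe T B hB
  have hcont := hCnt _ a ξ hs
  have hq := h2 T B hB hcont v
  have hp := hI v
  set g : Tor → ℝ := fun z => mB T B (z - prj T v) - mB T B z with hg
  set E : Set Tor := {z | z ∈ B ∧ z + prj T (-v) ∉ B} with hE
  have hEm : MeasurableSet E :=
    hB.inter ((measurable_add_const (prj T (-v))) hB).compl
  have hgm : Measurable g := by
    refine Measurable.sub (hm.comp ?_) hm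
    simpa only [sub_eq_add_neg] using measurable_add_const (-prj T v)
  have hg1 : ∀ z, |g z| ≤ 1 := by
    intro z
    have h3 := hm01 (z - prj T v)
    have h4 := hm01 z
    rw [abs_le]
    constructor <;> simp only [hg] <;> linarith
  set e : Tor → ℝ := E.indicator (fun _ => (1 : ℝ)) with he
  have hem : Measurable e := measurable_const.indicator hEm
  have he01 : ∀ z, e z = 0 ∨ e z = 1 := by
    intro z
    by_cases hz : z ∈ E
    · right; simp [he, hz]
    · left; simp [he, hz]
  have hee : ∀ z, e z ^ 2 = e z := by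
    intro z
    rcases he01 z with h | h <;> rw [h] <;> norm_num
  have hpt : ∀ z, B.indicator (fun _ => (1 : ℝ)) z * mB T B (z - prj T v) = e z * g z := by
    intro z
    by_cases hz : z ∈ B
    · by_cases hz2 : z + prj T (-v) ∈ B
      · have hz3 : z - prj T v ∈ B := by rwa [prj_neg, ← sub_eq_add_neg] at hz2
        have hzE : z ∉ E := fun h => h.2 hz2
        simp [he, hzE, hz, hm0 hU _ hz3]
      · have hzE : z ∈ E := ⟨hz, hz2⟩
        simp [he, hzE, hz, hg, hm0 hU _ hz]
    · have hzE : z ∉ E := fun h => hz h.1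
      simp [he, hzE, hz]
  have hpe : ∫ z, e z * g z ∂haarT = pF (cor T B) v := by
    rw [← hp]
    exact integral_congr_ae (ae_of_all _ fun z => (hpt z).symm)
  have hEa : ∫ z, e z ∂haarT = dF (cor T B) v := by
    have h5 : dF (cor T B) (-v) = dF (cor T B) v := by
      unfold dF
      rw [c3]
    rw [← h5, c4, he, integral_indicator hEm, setIntegral_const, measureReal_def, smul_eq_mul,
      mul_one]
  have hie : Integrable e haarT := CS_bdd hem (C := 1) fun z => by
    rcases he01 z with h | h <;> rw [h] <;> norm_num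
  have hieg : Integrable (fun z => e z * g z) haarT := CS_bdd (hem.mul hgm) (C := 1) fun z => by
    rw [abs_mul]
    have h6 := hg1 z
    rcases he01 z with h | h <;> rw [h] <;> norm_num
    exact h6
  have higg : Integrable (fun z => g z ^ 2) haarT := CS_bdd (hgm.pow_const 2) (C := 1) fun z => by
    rw [abs_pow]
    exact pow_le_one₀ (abs_nonneg _) (hg1 z)
  have hquad : ∀ s : ℝ, 0 ≤ dF (cor T B) v * (s * s) + (-2 * pF (cor T B) v) * s +
      qF (cor T B) v := by
    intro s
    have h7 : ∫ z, (s * e z - g z) ^ 2 ∂haarT = dF (cor T B) v * (s * s) +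
        (-2 * pF (cor T B) v) * s + qF (cor T B) v := by
      have h8 : ∀ z, (s * e z - g z) ^ 2 = (s * s) * e z + (-2 * s) * (e z * g z) + g z ^ 2 := by
        intro z
        have h9 : (s * e z - g z) ^ 2 = (s * s) * e z ^ 2 + (-2 * s) * (e z * g z) + g z ^ 2 := by
          ring
        rw [h9, hee z]
      rw [integral_congr_ae (ae_of_all _ h8), integral_add, integral_add, integral_const_mul,
        integral_const_mul, hEa, hpe, hq]
      · ring
      · exact hie.const_mul _
      · exact hieg.const_mul _
      · exact (hie.const_mul _).add (hieg.const_mul _)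
      · exact higg
    rw [← h7]
    exact integral_nonneg fun z => sq_nonneg _
  have hd := discrim_le_zero hquad
  unfold discrim at hd
  nlinarith [hd]

end Dadc30.Gap
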