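import Pool.Agent.Lib.MP_dadc30_coG.TorB

set_option linter.all false

/-!
# MP_dadc30_co, Theorem Q, module CS1: averages of the indicator function over unit circles
-/

open MeasureTheory Filter Topology
open scoped Real ComplexConjugate

namespace Dadc30.Gap

theorem CS1_meas (T : ℝ) (B : Set Tor) (hB : MeasurableSet B) :
    Measurable fun p : Tor × ℝ => B.indicator (fun _ => (1 : ℝ)) (p.1 + prj T (uu p.2)) := by
  have h1 : Measurable fun p : Tor × ℝ => p.1 + prj T (uu p.2) :=
    measurable_fst.add ((measurable_prj T).comp (continuous_uu.measurable.comp measurable_snd))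
  have h2 : Measurable (B.indicator (fun _ => (1 : ℝ))) := measurable_const.indicator hB
  exact h2.comp h1

theorem CS1_eq (T : ℝ) (B : Set Tor) (z : Tor) : mB T B z = (2 * π)⁻¹ *
    ∫ φ in Set.Ioc 0 (2 * π), B.indicator (fun _ => (1 : ℝ)) (z + prj T (uu φ)) := by
  unfold mB cavg
  rw [intervalIntegral.integral_of_le (by positivity)]

theorem CS1_ind (B : Set Tor) (z : Tor) : 0 ≤ B.indicator (fun _ => (1 : ℝ)) z ∧
    B.indicator (fun _ => (1 : ℝ)) z ≤ 1 := by
  by_cases hz : z ∈ B
  · rw [Set.indicator_of_mem hz]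
    norm_num
  · rw [Set.indicator_of_notMem hz]
    norm_num

theorem CS1_bound (T : ℝ) (B : Set Tor) (z : Tor) : 0 ≤ mB T B z ∧ mB T B z ≤ 1 := by
  refine ⟨cavg_nonneg fun φ => (CS1_ind B _).1, ?_⟩
  have h1 : ‖∫ φ in (0 : ℝ)..(2 * π), B.indicator (fun _ => (1 : ℝ)) (z + prj T (uu φ))‖ ≤
      1 * |2 * π - 0| := by
    apply intervalIntegral.norm_integral_le_of_norm_le_const
    intro φ _
    rw [Real.norm_eq_abs, abs_of_nonneg (CS1_ind B _).1]
    exact (CS1_ind B _).2
  rw [sub_zero, one_mul, abs_of_nonneg (by positivity)] at h1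
  have h2 := (le_abs_self _).trans h1
  unfold mB cavg
  have hpi : (0 : ℝ) < 2 * π := by positivity
  calc (2 * π)⁻¹ * ∫ φ in (0 : ℝ)..(2 * π), B.indicator (fun _ => (1 : ℝ)) (z + prj T (uu φ))
      ≤ (2 * π)⁻¹ * (2 * π) := mul_le_mul_of_nonneg_left h2 (by positivity)
    _ = 1 := inv_mul_cancel₀ hpi.ne'

theorem CS1_inner (T : ℝ) (B : Set Tor) (hB : MeasurableSet B) (w : ℂ) :
    ∫ z, B.indicator (fun _ => (1 : ℝ)) z * B.indicator (fun _ => (1 : ℝ)) (z + prj T w) ∂haarT =
      cor T B w := by
  have h1 : (fun z : Tor => B.indicator (fun _ => (1 : ℝ)) z *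
      B.indicator (fun _ => (1 : ℝ)) (z + prj T w)) =
      ({z | z ∈ B ∧ z + prj T w ∈ B} : Set Tor).indicator 1 := by
    funext z
    by_cases h : z ∈ B
    · by_cases h' : z + prj T w ∈ B
      · rw [Set.indicator_of_mem h, Set.indicator_of_mem h',
          Set.indicator_of_mem (show z ∈ {z | z ∈ B ∧ z + prj T w ∈ B} from ⟨h, h'⟩)]
        simp
      · rw [Set.indicator_of_notMem h',
          Set.indicator_of_notMem (show z ∉ {z | z ∈ B ∧ z + prj T w ∈ B} from fun hh => h' hh.2)]
        simp
    · rw [Set.indicator_of_notMem h,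
        Set.indicator_of_notMem (show z ∉ {z | z ∈ B ∧ z + prj T w ∈ B} from fun hh => h hh.1)]
      simp
  have hm : MeasurableSet {z | z ∈ B ∧ z + prj T w ∈ B} :=
    hB.inter ((measurable_add_const (prj T w)) hB)
  rw [h1, integral_indicator_one hm]
  rfl

theorem CS1_formula (T : ℝ) (B : Set Tor) (hB : MeasurableSet B) (v : ℂ) :
    ∫ z, B.indicator (fun _ => (1 : ℝ)) z * mB T B (z - prj T v) ∂haarT = pF (cor T B) v := by
  have h1 : ∀ z, B.indicator (fun _ => (1 : ℝ)) z * mB T B (z - prj T v) =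
      (2 * π)⁻¹ * ∫ φ in Set.Ioc 0 (2 * π), B.indicator (fun _ => (1 : ℝ)) z *
        B.indicator (fun _ => (1 : ℝ)) (z + prj T (uu φ - v)) := by
    intro z
    rw [CS1_eq, integral_const_mul, mul_left_comm]
    congr 2
    apply integral_congr_ae
    filter_upwards with φ
    rw [prj_sub]
    congr 1
    abel
  have hint : Integrable (Function.uncurry fun (z : Tor) (φ : ℝ) =>
      B.indicator (fun _ => (1 : ℝ)) z * B.indicator (fun _ => (1 : ℝ)) (z + prj T (uu φ - v)))
      (haarT.prod (volume.restrict (Set.Ioc 0 (2 * π)))) := by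
    have hm : Measurable (Function.uncurry fun (z : Tor) (φ : ℝ) =>
      B.indicator (fun _ => (1 : ℝ)) z * B.indicator (fun _ => (1 : ℝ)) (z + prj T (uu φ - v))) := by
      have h2 : Measurable (B.indicator (fun _ => (1 : ℝ))) := measurable_const.indicator hB
      have h3 : Measurable fun p : Tor × ℝ => p.1 + prj T (uu p.2 - v) :=
        measurable_fst.add ((measurable_prj T).comp
          ((continuous_uu.measurable.comp measurable_snd).sub_const v))
      exact (h2.comp measurable_fst).mul (h2.comp h3)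
    refine Integrable.of_bound hm.aestronglyMeasurable 1 ?_
    filter_upwards with p
    have a := CS1_ind B p.1
    have b := CS1_ind B (p.1 + prj T (uu p.2 - v))
    change ‖B.indicator (fun _ => (1 : ℝ)) p.1 *
      B.indicator (fun _ => (1 : ℝ)) (p.1 + prj T (uu p.2 - v))‖ ≤ 1
    rw [Real.norm_eq_abs, abs_of_nonneg (mul_nonneg a.1 b.1)]
    exact mul_le_one₀ a.2 b.1 b.2
  simp only [h1]
  rw [integral_const_mul, integral_integral_swap hint]
  unfold pF cavg
  rw [intervalIntegral.integral_of_le (by positivity)]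
  congr 1
  apply integral_congr_ae
  filter_upwards with φ
  exact CS1_inner T B hB _

theorem cs1Stmt : CS1Stmt := by
  intro T B hB
  refine ⟨?_, CS1_bound T B, ?_, CS1_formula T B hB⟩
  · have h1 : mB T B = fun z => (2 * π)⁻¹ *
        ∫ φ in Set.Ioc 0 (2 * π), B.indicator (fun _ => (1 : ℝ)) (z + prj T (uu φ)) := by
      funext z
      exact CS1_eq T B z
    rw [h1]
    have h2 := (CS1_meas T B hB).stronglyMeasurable.integral_prod_right'
      (ν := volume.restrict (Set.Ioc 0 (2 * π)))
    exact (h2.measurable).const_mul _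
  · intro hU z hz
    unfold mB
    have : (fun φ => B.indicator (fun _ => (1 : ℝ)) (z + prj T (uu φ))) = fun _ => 0 := by
      funext φ
      rw [Set.indicator_of_notMem (hU z hz (uu φ) (norm_uu φ))]
    rw [this, cavg_const]

end Dadc30.Gap
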