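import Pool.Agent.Lib.MP_dadc30_coG.TorB

set_option linter.all false

/-!
# MP_dadc30_co, Theorem Q, module CS2: the variance of the circle averages
-/

open MeasureTheory Filter Topology
open scoped Real ComplexConjugate

namespace Dadc30.Gap

/-- bounded measurable functions are integrable -/
theorem CS2_int {f : Tor → ℝ} (hf : Measurable f) (h : ∀ z, ‖f z‖ ≤ 1) : Integrable f haarT :=
  Integrable.of_bound hf.aestronglyMeasurable 1 (Filter.Eventually.of_forall h)

theorem CS2_indMeas {B : Set Tor} (hB : MeasurableSet B) :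
    Measurable (B.indicator (fun _ => (1 : ℝ))) := measurable_const.indicator hB

theorem CS2_ind01 (B : Set Tor) (z : Tor) :
    0 ≤ B.indicator (fun _ => (1 : ℝ)) z ∧ B.indicator (fun _ => (1 : ℝ)) z ≤ 1 := by
  by_cases h : z ∈ B
  · rw [Set.indicator_of_mem h]; norm_num
  · rw [Set.indicator_of_notMem h]; norm_num

/-- exchange of the integral over the torus and the average over the angle -/
theorem CS2_swap {G : Tor → ℝ → ℝ} (hG : Measurable (Function.uncurry G))
    (h : ∀ z φ, ‖G z φ‖ ≤ 1) :
    ∫ z, cavg (G z) ∂haarT = cavg (fun φ => ∫ z, G z φ ∂haarT) := by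
  have hpi : (0 : ℝ) ≤ 2 * π := by positivity
  have h1 : ∀ z, cavg (G z) = (2 * π)⁻¹ * ∫ φ in Set.Ioc (0 : ℝ) (2 * π), G z φ := by
    intro z
    unfold cavg
    rw [intervalIntegral.integral_of_le hpi]
  have h2 : cavg (fun φ => ∫ z, G z φ ∂haarT) =
      (2 * π)⁻¹ * ∫ φ in Set.Ioc (0 : ℝ) (2 * π), ∫ z, G z φ ∂haarT := by
    unfold cavg
    rw [intervalIntegral.integral_of_le hpi]
  rw [h2, integral_congr_ae (Filter.Eventually.of_forall h1), integral_const_mul]
  congr 1
  apply integral_integral_swap
  refine Integrable.of_bound hG.aestronglyMeasurable 1 (Filter.Eventually.of_forall ?_)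
  intro p
  exact h p.1 p.2

/-- correlation of the circle averages -/
theorem CS2_corr (h1 : CS1Stmt) (hc : CorStmt) {T : ℝ} {B : Set Tor} (hB : MeasurableSet B)
    (v : ℂ) : ∫ z, mB T B z * mB T B (z - prj T v) ∂haarT =
      cavg fun φ => cavg fun ψ => cor T B (uu φ - uu ψ - v) := by
  obtain ⟨hm, h01, -, hf⟩ := h1 T B hB
  obtain ⟨-, -, -, hneg, -, -, -⟩ := hc T B hB
  have e1 : ∀ z, mB T B z * mB T B (z - prj T v) =
      cavg (fun φ => mB T B z * B.indicator (fun _ => (1 : ℝ)) (z - prj T v + prj T (uu φ))) := by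
    intro z
    rw [cavg_mul]
    rfl
  rw [integral_congr_ae (Filter.Eventually.of_forall e1)]
  have hG : Measurable (Function.uncurry (fun (z : Tor) (φ : ℝ) =>
      mB T B z * B.indicator (fun _ => (1 : ℝ)) (z - prj T v + prj T (uu φ)))) := by
    apply Measurable.mul
    · exact hm.comp measurable_fst
    · apply (CS2_indMeas hB).comp
      apply Measurable.add
      · exact measurable_fst.sub measurable_const
      · exact (measurable_prj T).comp (continuous_uu.measurable.comp measurable_snd)
  rw [CS2_swap hG]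
  · congr 1
    funext φ
    have e2 : ∫ z, mB T B z * B.indicator (fun _ => (1 : ℝ)) (z - prj T v + prj T (uu φ)) ∂haarT =
        ∫ z, B.indicator (fun _ => (1 : ℝ)) z * mB T B (z - prj T (uu φ - v)) ∂haarT := by
      rw [← integral_translate (fun z => B.indicator (fun _ => (1 : ℝ)) z *
        mB T B (z - prj T (uu φ - v))) (prj T (uu φ - v))]
      refine integral_congr_ae (Filter.Eventually.of_forall ?_)
      intro z
      have e3 : z - prj T v + prj T (uu φ) = z + prj T (uu φ - v) := by
        rw [prj_sub]; abel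
      have e4 : z + prj T (uu φ - v) - prj T (uu φ - v) = z := by abel
      show mB T B z * B.indicator (fun _ => (1 : ℝ)) (z - prj T v + prj T (uu φ)) =
        B.indicator (fun _ => (1 : ℝ)) (z + prj T (uu φ - v)) *
          mB T B (z + prj T (uu φ - v) - prj T (uu φ - v))
      rw [e3, e4, mul_comm]
    rw [e2, hf (uu φ - v)]
    unfold pF
    congr 1
    funext ψ
    rw [← hneg (uu φ - uu ψ - v)]
    congr 1
    ring
  · intro z φ
    have a1 := h01 z
    have a2 := CS2_ind01 B (z - prj T v + prj T (uu φ))
    rw [Real.norm_eq_abs, abs_of_nonneg (mul_nonneg a1.1 a2.1)]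
    exact mul_le_one₀ a1.2 a2.1 a2.2

theorem cs2Stmt : CS1Stmt → CorStmt → CS2Stmt := by
  intro h1 hc T B hB hcont v
  obtain ⟨hm, h01, -, -⟩ := h1 T B hB
  have hms : Measurable (fun z => mB T B (z - prj T v)) :=
    hm.comp (measurable_id.sub measurable_const)
  have b1 : ∀ z w : Tor, ‖mB T B z * mB T B w‖ ≤ 1 := by
    intro z w
    have a1 := h01 z
    have a2 := h01 w
    rw [Real.norm_eq_abs, abs_of_nonneg (mul_nonneg a1.1 a2.1)]
    exact mul_le_one₀ a1.2 a2.1 a2.2
  have i1 : Integrable (fun z => mB T B z * mB T B z) haarT :=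
    CS2_int (hm.mul hm) (fun z => b1 z z)
  have i2 : Integrable (fun z => mB T B z * mB T B (z - prj T v)) haarT :=
    CS2_int (hm.mul hms) (fun z => b1 z _)
  have i3 : Integrable (fun z => mB T B (z - prj T v) * mB T B (z - prj T v)) haarT :=
    CS2_int (hms.mul hms) (fun z => b1 _ _)
  have i31 : Integrable (fun z => mB T B (z - prj T v) * mB T B (z - prj T v) +
      mB T B z * mB T B z) haarT := i3.add i1
  have e0 : ∫ z, mB T B (z - prj T v) * mB T B (z - prj T v) ∂haarT =
      ∫ z, mB T B z * mB T B z ∂haarT := by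
    have := integral_translate (fun z => mB T B z * mB T B z) (-prj T v)
    simpa only [← sub_eq_add_neg] using this
  have e1 : ∫ z, (mB T B (z - prj T v) - mB T B z) ^ 2 ∂haarT =
      2 * (∫ z, mB T B z * mB T B z ∂haarT) -
        2 * ∫ z, mB T B z * mB T B (z - prj T v) ∂haarT := by
    have e2 : ∀ z, (mB T B (z - prj T v) - mB T B z) ^ 2 =
        (mB T B (z - prj T v) * mB T B (z - prj T v) + mB T B z * mB T B z) -
          2 * (mB T B z * mB T B (z - prj T v)) := by
      intro z
      ring
    rw [integral_congr_ae (Filter.Eventually.of_forall e2),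
      integral_sub i31 (i2.const_mul 2), integral_add i3 i1, integral_const_mul, e0]
    ring
  have e3 : ∫ z, mB T B z * mB T B z ∂haarT =
      cavg fun φ => cavg fun ψ => cor T B (uu φ - uu ψ) := by
    have := CS2_corr h1 hc (T := T) hB 0
    rw [prj_zero] at this
    simpa only [sub_zero] using this
  rw [e1, e3, CS2_corr h1 hc hB v]
  have c1 : Continuous (Function.uncurry fun φ ψ : ℝ => cor T B (uu φ - uu ψ)) := by
    apply hcont.comp
    exact (continuous_uu.comp continuous_fst).sub (continuous_uu.comp continuous_snd)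
  have c2 : Continuous (Function.uncurry fun φ ψ : ℝ => cor T B (uu φ - uu ψ - v)) := by
    apply hcont.comp
    exact ((continuous_uu.comp continuous_fst).sub (continuous_uu.comp continuous_snd)).sub
      continuous_const
  unfold qF
  have e4 : (fun φ => cavg fun ψ => cor T B (uu φ - uu ψ) - cor T B (uu φ - uu ψ - v)) =
      fun φ => (cavg fun ψ => cor T B (uu φ - uu ψ)) - cavg fun ψ => cor T B (uu φ - uu ψ - v) := by
    funext φ
    apply cavg_sub
    · exact hcont.comp (continuous_const.sub continuous_uu)
    · exact hcont.comp ((continuous_const.sub continuous_uu).sub continuous_const)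
  rw [e4, cavg_sub (continuous_cavg c1) (continuous_cavg c2)]
  ring

end Dadc30.Gap
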