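import Pool.Agent.Lib.MP_dadc30_coG.TorB

set_option linter.all false

/-!
# MP_dadc30_co, Theorem Q, module Cc: consecutive pairs
-/

namespace Dadc30.Gap

/-- the next point to the right -/
theorem Cc_next (U : Finset ℂ) (v : ℂ) (h : ∃ w ∈ U, v.re < w.re) :
    ∃ w ∈ U, v.re < w.re ∧ ∀ r ∈ U, ¬ (v.re < r.re ∧ r.re < w.re) := by
  classical
  obtain ⟨w0, hw0, hv0⟩ := h
  obtain ⟨w, hw, hmin⟩ := Finset.exists_min_image (U.filter fun w => v.re < w.re)
    (fun w : ℂ => w.re) ⟨w0, Finset.mem_filter.2 ⟨hw0, hv0⟩⟩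
  rw [Finset.mem_filter] at hw
  refine ⟨w, hw.1, hw.2, ?_⟩
  rintro r hr ⟨h1, h2⟩
  have h3 := hmin r (Finset.mem_filter.2 ⟨hr, h1⟩)
  linarith

theorem ccStmt : CcStmt := by
  classical
  intro U hU
  rcases U.eq_empty_or_nonempty with h0 | h0
  · subst h0
    simp
  obtain ⟨m, hm, hmax⟩ := Finset.exists_max_image U (fun w : ℂ => w.re) h0
  have hex : ∀ v ∈ U.erase m, ∃ w ∈ U, v.re < w.re ∧ ∀ r ∈ U, ¬ (v.re < r.re ∧ r.re < w.re) := by
    intro v hv
    rw [Finset.mem_erase] at hv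
    refine Cc_next U v ⟨m, hm, lt_of_le_of_ne (hmax v hv.2) ?_⟩
    intro he
    exact hv.1 (hU v hv.2 m hm he)
  choose! s hs1 hs2 hs3 using hex
  have hle : (U.erase m).card ≤ ((U ×ˢ U).filter fun e : ℂ × ℂ => e.1.re < e.2.re ∧
      ∀ r ∈ U, ¬ (e.1.re < r.re ∧ r.re < e.2.re)).card := by
    refine Finset.card_le_card_of_injOn (fun v => (v, s v)) ?_ ?_
    · intro v hv
      have hv' := hv
      rw [Finset.mem_coe] at hv
      rw [Finset.mem_coe, Finset.mem_filter, Finset.mem_product]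
      exact ⟨⟨Finset.mem_of_mem_erase hv, hs1 v hv⟩, hs2 v hv, hs3 v hv⟩
    · intro v _ w _ h
      exact congrArg Prod.fst h
  have hc := Finset.card_erase_add_one hm
  have : U.card ≤ ((U ×ˢ U).filter fun e : ℂ × ℂ => e.1.re < e.2.re ∧
      ∀ r ∈ U, ¬ (e.1.re < r.re ∧ r.re < e.2.re)).card + 1 := by omega
  convert this

end Dadc30.Gap
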