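import Pool.Agent.Lib.MP_dadc30_coG.TorB

set_option linter.all false

/-!
# MP_dadc30_co, Theorem Q, module Cir: the average of a plane wave over a circle (helper84)
-/

open MeasureTheory Filter Topology
open scoped Real ComplexConjugate

namespace Dadc30.Gap

theorem Cir_ip (ξ : ℂ) (t φ : ℝ) :
    ip ξ (t * uu φ) = t * ‖ξ‖ * Real.cos (φ + -Complex.arg ξ) := by
  have h1 : ((t : ℂ) * uu φ).re = t * Real.cos φ := by
    rw [Complex.re_ofReal_mul, uu, Complex.exp_ofReal_mul_I_re]
  have h2 : ((t : ℂ) * uu φ).im = t * Real.sin φ := by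
    rw [Complex.im_ofReal_mul, uu, Complex.exp_ofReal_mul_I_im]
  have h3 := Complex.norm_mul_cos_arg ξ
  have h4 := Complex.norm_mul_sin_arg ξ
  unfold ip
  rw [h1, h2, Real.cos_add, Real.cos_neg, Real.sin_neg]
  linear_combination -(t * Real.cos φ) * h3 - (t * Real.sin φ) * h4

theorem Cir_sin (s : ℝ) : cavg (fun φ => Real.sin (s * Real.cos φ)) = 0 := by
  have h := cavg_shift (f := fun φ => Real.sin (s * Real.cos φ))
    (fun φ => by simp only [Real.cos_add_two_pi]) π
  have h2 : (fun φ => Real.sin (s * Real.cos (φ + π))) =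
      fun φ => -1 * Real.sin (s * Real.cos φ) := by
    funext φ
    rw [Real.cos_add_pi, mul_neg, Real.sin_neg]
    ring
  rw [h2, cavg_mul] at h
  linarith

theorem Cir_avg (s c : ℝ) :
    cavg (fun φ => Real.cos (s * Real.cos φ + c)) = J s * Real.cos c := by
  have h1 : (fun φ => Real.cos (s * Real.cos φ + c)) = fun φ =>
      Real.cos c * Real.cos (s * Real.cos φ) - Real.sin c * Real.sin (s * Real.cos φ) := by
    funext φ
    rw [Real.cos_add]
    ring
  rw [h1, cavg_sub (f := fun φ => Real.cos c * Real.cos (s * Real.cos φ))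
    (g := fun φ => Real.sin c * Real.sin (s * Real.cos φ)) (by fun_prop) (by fun_prop),
    cavg_mul, cavg_mul, Cir_sin]
  unfold J
  ring

theorem cirStmt : CirStmt := by
  intro ξ t c
  have h1 : (fun φ => Real.cos (ip ξ (t * uu φ) + c)) =
      fun φ => (fun ψ => Real.cos (t * ‖ξ‖ * Real.cos ψ + c)) (φ + -Complex.arg ξ) := by
    funext φ
    rw [Cir_ip]
  rw [h1, cavg_shift (f := fun ψ => Real.cos (t * ‖ξ‖ * Real.cos ψ + c))
    (fun φ => by simp only [Real.cos_add_two_pi]), Cir_avg]

end Dadc30.Gap
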