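import Pool.Agent.Lib.MP_dadc30_coG.TorB

set_option autoImplicit false

open MeasureTheory Filter Topology

namespace Dadc30.Gap

theorem Cnt_summable {F : ℂ → ℝ} {a : (Fin 2 → ℤ) → ℝ} {ξ : (Fin 2 → ℤ) → ℂ} (h : Spc F a ξ) :
    Summable a := by
  have h0 := (h.2 0).summable
  simpa [ip] using h0

theorem cntStmt : CntStmt := by
  intro F a ξ h
  have hF : F = fun w => ∑' k, a k * Real.cos (ip (ξ k) w) := by
    funext w
    exact (h.2 w).tsum_eq.symm
  rw [hF]
  refine continuous_tsum (u := a) (fun k => ?_) (Cnt_summable h) (fun k w => ?_)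
  · unfold ip
    fun_prop
  · rw [Real.norm_eq_abs, abs_mul, abs_of_nonneg (h.1 k)]
    exact mul_le_of_le_one_right (h.1 k) (Real.abs_cos_le_one _)

end Dadc30.Gap
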