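import Pool.Agent.Lib.MP_dadc30_coG.TorB

set_option linter.all false

/-!
# MP_dadc30_co, Theorem Q, module Cor: elementary properties of the autocorrelation
-/

open MeasureTheory Filter Topology
open scoped Real ComplexConjugate

namespace Dadc30.Gap

theorem Cor_meas {B : Set Tor} (hB : MeasurableSet B) (a : Tor) :
    MeasurableSet {z : Tor | z + a ∈ B} :=
  (measurable_add_const a) hB

theorem Cor_dF (T : ℝ) (B : Set Tor) (hB : MeasurableSet B) (w : ℂ) :
    dF (cor T B) w = (haarT {z | z ∈ B ∧ z + prj T w ∉ B}).toReal := by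
  have h0 : cor T B 0 = (haarT B).toReal := by
    simp only [cor, prj_zero, add_zero, and_self]
    rfl
  have h1 : haarT B = haarT {z | z ∈ B ∧ z + prj T w ∈ B} +
      haarT {z | z ∈ B ∧ z + prj T w ∉ B} := by
    have := measure_inter_add_diff (μ := haarT) B (Cor_meas hB (prj T w))
    exact this.symm
  rw [dF, h0, h1, ENNReal.toReal_add (measure_ne_top _ _) (measure_ne_top _ _), cor]
  ring

theorem corStmt : CorStmt := by
  intro T B hB
  refine ⟨?_, ?_, ?_, ?_, Cor_dF T B hB, ?_, ?_⟩
  · simp only [cor, prj_zero, add_zero, and_self]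
    rfl
  · intro w
    exact ENNReal.toReal_nonneg
  · intro w
    refine ENNReal.toReal_mono (measure_ne_top _ _) (measure_mono ?_)
    intro z hz
    refine ⟨hz.1, ?_⟩
    rw [prj_zero, add_zero]
    exact hz.1
  · intro w
    unfold cor
    have hS : MeasurableSet {z : Tor | z ∈ B ∧ z + prj T (-w) ∈ B} :=
      hB.inter (Cor_meas hB _)
    rw [← haarT_translate hS (prj T w)]
    congr 2
    ext z
    simp only [Set.mem_ofPred_eq, prj_neg, add_neg_cancel_right]
    exact and_comm
  · intro v w
    rw [Cor_dF T B hB, Cor_dF T B hB, Cor_dF T B hB]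
    have hS : MeasurableSet {z : Tor | z ∈ B ∧ z + prj T w ∉ B} :=
      hB.inter (Cor_meas hB _).compl
    rw [← haarT_translate hS (prj T v),
      ← ENNReal.toReal_add (measure_ne_top _ _) (measure_ne_top _ _)]
    refine ENNReal.toReal_mono (by simp) ((measure_mono ?_).trans (measure_union_le _ _))
    intro z hz
    by_cases h : z + prj T v ∈ B
    · right
      refine ⟨h, ?_⟩
      rw [add_assoc, ← prj_add]
      exact hz.2
    · left
      exact ⟨hz.1, h⟩
  · intro hU u hu
    have : {z : Tor | z ∈ B ∧ z + prj T u ∈ B} = ∅ := by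
      ext z
      simp only [Set.mem_ofPred_eq, Set.mem_empty_iff_false, iff_false]
      exact fun h => hU z h.1 u hu h.2
    simp [cor, this]

end Dadc30.Gap
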