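import Pool.Agent.Lib.MP_dadc30_coG.TorB

set_option linter.all false

/-!
# MP_dadc30_co, Theorem Q, module Dbl: doubling (helper83)
-/

open MeasureTheory Filter Topology
open scoped Real ComplexConjugate

namespace Dadc30.Gap

theorem Dbl_cont {F : ℂ → ℝ} (hF : Good F) (t : ℝ) :
    Continuous fun φ => dF F ((t : ℂ) * uu φ) := by
  unfold dF
  exact continuous_const.sub (hF.cont.comp (continuous_const.mul continuous_uu))

theorem Dbl_two {F : ℂ → ℝ} (hF : Good F) (t : ℝ) : DF F (2 * t) ≤ 2 * DF F t := by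
  unfold DF
  rw [← cavg_mul]
  refine cavg_mono (Dbl_cont hF _) (continuous_const.mul (Dbl_cont hF t)) fun φ => ?_
  have h : ((2 * t : ℝ) : ℂ) * uu φ = (t : ℂ) * uu φ + (t : ℂ) * uu φ := by
    push_cast
    ring
  rw [h]
  have := hF.tri ((t : ℂ) * uu φ) ((t : ℂ) * uu φ)
  linarith

theorem dblStmt : DblStmt := by
  intro F hF
  refine ⟨Dbl_two hF, ?_, ?_, ?_⟩
  · unfold DF
    have : (fun φ => dF F (((1 : ℝ) : ℂ) * uu φ)) = fun _ => F 0 := by
      funext φ
      unfold dF
      rw [Complex.ofReal_one, one_mul, hF.unit _ (norm_uu φ), sub_zero]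
    rw [this, cavg_const]
  · intro t
    exact cavg_nonneg fun φ => sub_nonneg.2 (hF.le _)
  · intro K k hk
    induction K, hk using Nat.le_induction with
    | base => simp
    | succ K hk ih =>
      refine ih.trans ?_
      have h1 : ((1 : ℝ) / 2) ^ K = 2 * (1 / 2) ^ (K + 1) := by
        rw [pow_succ]
        ring
      have h2 := Dbl_two hF ((1 / 2) ^ (K + 1))
      rw [← h1] at h2
      have h3 : K + 1 - k = (K - k) + 1 := by omega
      rw [h3, pow_succ, mul_assoc]
      exact mul_le_mul_of_nonneg_left h2 (by positivity)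

end Dadc30.Gap
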