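import Pool.Agent.Lib.MP_dadc30_co.Tile
import Pool.Agent.Lib.MP_dadc30_co.FinTransfer

set_option linter.all false

/-!
# MP_dadc30_co, Theorem Q: quantitative gap for finite unit-distance graphs

Definitions and statements.  Everything in `ℂ`.  `m1C`, `upDens`, `sqBox`, `Avoids` are those of
`MP_dadc30_co.Defs`.

OVERVIEW. `B ⊆ Tor` measurable and unit-free of side `T` (`UF T B`), `F = cor T B` its
autocorrelation on `ℂ`.  `dF F w = F 0 - F w`, `DF F t` its average over `|w| = t`,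
`pF F v` = average of `F (u - v)` over `|u| = 1`, `PF F t` its average over `|v| = t`,
`qF F v = ‖m(· - v) - m‖²` where `m` is the average of `1_B` over unit circles.
* `GoodStmt` : all properties of `F` which are used (`Good F`), in particular `pF² ≤ dF · qF` and the
  spectral formula;
* `PBStmt` : `PF F t ≤ DF F t √((15 + 70 K) t)`, `t = 2^(-K)`;
* `SelStmt` : the selection of an independent set in a finite weighted unit-distance graph;
* `DegStmt` : the gap in terms of the average degree;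
* `SstStmt` : at most `5 n^(4/3)` unit distances; `ErrStmt`.
-/

open MeasureTheory Filter Topology
open scoped Real ComplexConjugate

namespace Dadc30.Gap

/-! ## A. The torus -/

/-- the torus `(ℝ/ℤ)²` -/
abbrev Tor : Type := UnitAddTorus (Fin 2)

/-- the normalized Haar measure of the torus -/
noncomputable def haarT : Measure Tor := Measure.pi fun _ : Fin 2 => AddCircle.haarAddCircle

/-- the homomorphism from the plane to the torus with kernel `T(ℤ + iℤ)` -/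
noncomputable def prj (T : ℝ) (w : ℂ) : Tor :=
  ![((w.re / T : ℝ) : UnitAddCircle), ((w.im / T : ℝ) : UnitAddCircle)]

/-- `B` contains no two points at distance one (torus of side `T`) -/
def UF (T : ℝ) (B : Set Tor) : Prop := ∀ z ∈ B, ∀ u : ℂ, ‖u‖ = 1 → z + prj T u ∉ B

/-- the autocorrelation of `B` -/
noncomputable def cor (T : ℝ) (B : Set Tor) (w : ℂ) : ℝ :=
  (haarT {z | z ∈ B ∧ z + prj T w ∈ B}).toReal

/-! ## B. Averages over circles -/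

/-- the unit vector with the angle `φ` -/
noncomputable def uu (φ : ℝ) : ℂ := Complex.exp (φ * Complex.I)

/-- average over the angle -/
noncomputable def cavg (f : ℝ → ℝ) : ℝ := (2 * π)⁻¹ * ∫ φ in (0 : ℝ)..(2 * π), f φ

/-- the Bessel function `J_0` -/
noncomputable def J (x : ℝ) : ℝ := cavg fun φ => Real.cos (x * Real.cos φ)

/-- real inner product in the plane -/
def ip (ξ w : ℂ) : ℝ := ξ.re * w.re + ξ.im * w.im

noncomputable def dF (F : ℂ → ℝ) (w : ℂ) : ℝ := F 0 - F w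

noncomputable def DF (F : ℂ → ℝ) (t : ℝ) : ℝ := cavg fun φ => dF F (t * uu φ)

noncomputable def pF (F : ℂ → ℝ) (v : ℂ) : ℝ := cavg fun φ => F (uu φ - v)

noncomputable def PF (F : ℂ → ℝ) (t : ℝ) : ℝ := cavg fun ω => pF F (t * uu ω)

noncomputable def qF (F : ℂ → ℝ) (v : ℂ) : ℝ :=
  2 * cavg fun φ => cavg fun ψ => F (uu φ - uu ψ) - F (uu φ - uu ψ - v)

noncomputable def QF (F : ℂ → ℝ) (t : ℝ) : ℝ := cavg fun ω => qF F (t * uu ω)

/-- spectral representation with the weights `a` and the frequencies `ξ` -/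
def Spc (F : ℂ → ℝ) (a : (Fin 2 → ℤ) → ℝ) (ξ : (Fin 2 → ℤ) → ℂ) : Prop :=
  (∀ k, 0 ≤ a k) ∧ ∀ w : ℂ, HasSum (fun k => a k * Real.cos (ip (ξ k) w)) (F w)

/-- the properties of the autocorrelation of a unit-free set which are used -/
structure Good (F : ℂ → ℝ) : Prop where
  cont : Continuous F
  nonneg : ∀ w, 0 ≤ F w
  le : ∀ w, F w ≤ F 0
  unit : ∀ u : ℂ, ‖u‖ = 1 → F u = 0
  tri : ∀ v w, dF F (v + w) ≤ dF F v + dF F w
  cs : ∀ v, pF F v ^ 2 ≤ dF F v * qF F v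
  spc : ∃ a ξ, Spc F a ξ

/-! ## C. Statements, measure theory part -/

/-- MODULE Dens1.  From the definition of `m1C` (supremum of upper densities; the set is nonempty,
bounded: `upDens_le_one`): take `A` measurable, `Avoids A`, `upDens A > m1C - ε/2` (`exists_lt_of_lt_csSup`;
if `m1C - ε/2 < 0` take `A = ∅`), then `frequently` `|A ∩ sqBox R| / (2R)² > m1C - ε/2`
(`frequently_lt_of_lt_limsup`), so it holds for some `R` so large that
`(m1C - ε/2) (2R)² ≥ (m1C - ε) (2R+2)²` (`m1C ≤ 1`); take `A ∩ sqBox R`. -/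
def Dens1Stmt : Prop := ∀ ε : ℝ, 0 < ε → ∃ R : ℝ, 0 < R ∧ ∃ A : Set ℂ, MeasurableSet A ∧
  A ⊆ sqBox R ∧ Avoids A ∧ (m1C - ε) * (2 * R + 2) ^ 2 ≤ (volume A).toReal

/-- MODULE Dens2.  `T = 2R+2`, `B = {z | T * rep z ∈ A}`, `rep z` the representative of `z` with
coordinates in `(-1/2, 1/2]` (`AddCircle.equivIoc 1 (-1/2)`, `UnitAddTorus.measurableEquivPiIoc`).
Measure: `UnitAddTorus.lintegral_preimage` (the local instance `volume` there is `haarT`) and scaling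
by `T` in the plane (`Complex.volume_preserving_equiv_pi` / `Measure.addHaar_smul`); `A ⊆ sqBox R` is
inside `T·(-1/2,1/2]²`.  `UF`: if `z` and `z + prj T u` are in `B`, with representatives `a/T`, `b/T`,
`a, b ∈ A`, then `b - a - u ∈ T(ℤ+iℤ)` and its coordinates have absolute value
`≤ 2R + 1 < T`, so `b = a + u`, `dist b a = 1`, contradiction. -/
def Dens2Stmt : Prop := ∀ R : ℝ, 0 < R → ∀ A : Set ℂ, MeasurableSet A → A ⊆ sqBox R → Avoids A →
  ∃ B : Set Tor, MeasurableSet B ∧ UF (2 * R + 2) B ∧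
    (haarT B).toReal = (volume A).toReal / (2 * R + 2) ^ 2

/-- MODULE Dens.  `Dens1Stmt → Dens2Stmt → DensStmt`. -/
def DensStmt : Prop := ∀ ε : ℝ, 0 < ε → ∃ T : ℝ, ∃ B : Set Tor, MeasurableSet B ∧
  UF T B ∧ m1C - ε ≤ (haarT B).toReal

/-- MODULE Pos.  `tile (1/4) _ (sqBox (1/4))`: the square has diameter `< 1` and area `1/4`. -/
def PosStmt : Prop := 0 < m1C

/-- MODULE TorB (theorems, no Stmt): `prj_add`, `prj_zero`, `prj_neg`, `prj_sub`, `measurable_prj`,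
`continuous_prj`, instance `IsProbabilityMeasure haarT`, instance
`haarT.IsAddLeftInvariant`/`IsAddRightInvariant` (so that `measurePreserving_add_right` applies).
Everybody in part C uses this module. -/
def TorBDoc : Prop := True

/-- MODULE Cor.  Elementary properties of the autocorrelation.  `cor_neg`: translate.
`tri`: `{z ∈ B, z+v+w ∉ B} ⊆ {z ∈ B, z+v ∉ B} ∪ {z+v ∈ B, z+v+w ∉ B}` and
`haarT {z ∈ B, z + prj T w ∉ B} = cor T B 0 - cor T B w`. -/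
def CorStmt : Prop := ∀ (T : ℝ) (B : Set Tor), MeasurableSet B →
  cor T B 0 = (haarT B).toReal ∧ (∀ w, 0 ≤ cor T B w) ∧ (∀ w, cor T B w ≤ cor T B 0) ∧
  (∀ w, cor T B (-w) = cor T B w) ∧
  (∀ w, dF (cor T B) w = (haarT {z | z ∈ B ∧ z + prj T w ∉ B}).toReal) ∧
  (∀ v w, dF (cor T B) (v + w) ≤ dF (cor T B) v + dF (cor T B) w) ∧
  (UF T B → ∀ u : ℂ, ‖u‖ = 1 → cor T B u = 0)

/-- MODULE Spe.  Parseval on the torus (`UnitAddTorus.hasSum_prod_mFourierCoeff`, the local instance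
`volume` of that file is `haarT`) for `f = 1_B` and `g = 1_B(· + prj T w)`:
`mFourierCoeff g k = mFourier k (prj T w) * mFourierCoeff f k` (translation invariance), so
`cor T B w = Σ ‖f^(k)‖² mFourier k (prj T w)`; real parts: `a k = ‖f^(k)‖²`,
`ξ k = (2π/T)(k 0 + k 1 i)` (also right for `T = 0`). -/
def SpeStmt : Prop := ∀ (T : ℝ) (B : Set Tor), MeasurableSet B →
  ∃ a ξ, Spc (cor T B) a ξ

/-- MODULE Cnt.  A function with a spectral representation is continuous (the terms are bounded by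
`a k`, summable by the case `w = 0`; `continuous_tsum`). -/
def CntStmt : Prop := ∀ (F : ℂ → ℝ) (a : (Fin 2 → ℤ) → ℝ) (ξ : (Fin 2 → ℤ) → ℂ),
  Spc F a ξ → Continuous F

/-- average of the indicator function of `B` over the unit circle around `z` -/
noncomputable def mB (T : ℝ) (B : Set Tor) (z : Tor) : ℝ :=
  cavg fun φ => B.indicator (fun _ => (1 : ℝ)) (z + prj T (uu φ))

/-- MODULE CS1.  (uses TorB) Measurability of `mB`: `(z, φ) ↦ 1_B (z + prj T (uu φ))` is jointly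
measurable (`StronglyMeasurable.integral_prod_right`, interval integral as set integral over
`Ioc 0 (2π)`).  The formula is Fubini (`integral_integral_swap`): for fixed `φ`,
`∫ 1_B z * 1_B (z - prj T v + prj T (uu φ)) = cor T B (uu φ - v)`. -/
def CS1Stmt : Prop := ∀ (T : ℝ) (B : Set Tor), MeasurableSet B → Measurable (mB T B) ∧
  (∀ z, 0 ≤ mB T B z ∧ mB T B z ≤ 1) ∧ (UF T B → ∀ z ∈ B, mB T B z = 0) ∧
  ∀ v : ℂ, ∫ z, B.indicator (fun _ => (1 : ℝ)) z * mB T B (z - prj T v) ∂haarT = pF (cor T B) v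

/-- MODULE CS2.  (uses TorB, CS1, Cor, and the continuity of `cor T B`)
`∫ (mB (z - prj T v) - mB z)² = 2 ∫ mB² - 2 ∫ mB z mB (z - prj T v)` (translation invariance).
Fubini: for fixed `φ, ψ`, `∫ 1_B (z + prj T (uu φ)) 1_B (z - prj T v + prj T (uu ψ)) =
cor T B (uu ψ - uu φ - v)` (translate by `prj T (uu φ)`); and `∫ mB²` is the case `v = 0`.  Exchange of
the two angles: either name them in the right order from the beginning (write
`mB z mB (z - prj T v)` with `ψ` for the first and `φ` for the second factor) or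
`intervalIntegral_integral_interchange`. -/
def CS2Stmt : Prop := ∀ (T : ℝ) (B : Set Tor), MeasurableSet B → Continuous (cor T B) → ∀ v : ℂ,
  ∫ z, (mB T B (z - prj T v) - mB T B z) ^ 2 ∂haarT = qF (cor T B) v

/-- MODULE CS.  (uses CS1, CS2, Cor, Spe, Cnt) `mB z = 0` for `z ∈ B` (`UF`), so the integrand in CS1 is
`1_E z * (mB (z - prj T v) - mB z)`, `E = {z ∈ B, z - prj T v ∉ B}` (if `z - prj T v ∈ B` then
`mB (z - prj T v) = 0`); Cauchy-Schwarz: `pF² ≤ haarT E * ∫ (mB (z - prj T v) - mB z)²`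
(e.g. `∫ 1_E g ≤ (λ haarT E + λ⁻¹ ∫ g²)/2` for all `λ > 0`, or `integral_mul_le_Lp_mul_Lq`), and
`haarT E = dF (cor T B) (-v) = dF (cor T B) v` (`CorStmt`). -/
def CSStmt : Prop := ∀ (T : ℝ) (B : Set Tor), MeasurableSet B → UF T B →
  ∀ v : ℂ, pF (cor T B) v ^ 2 ≤ dF (cor T B) v * qF (cor T B) v

/-- MODULE GoodM.  `CorStmt → SpeStmt → CntStmt → CSStmt → GoodStmt`. -/
def GoodStmt : Prop := ∀ (T : ℝ) (B : Set Tor), MeasurableSet B → UF T B → Good (cor T B)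

/-! ## D. Statements, analysis part -/

/-- MODULE Bes1.  `0 ≤ 1 - cos y ≤ y²/2`, `Real.cos_quadratic_upper_bound`
(`|y| ≤ π → cos y ≤ 1 - 2/π² y²`), `cavg (cos²) = 1/2`; `J (-x) = J x`. -/
def Bes1Stmt : Prop := ∀ x : ℝ, J (-x) = J x ∧ |J x| ≤ 1 ∧ 1 - J x ≤ x ^ 2 / 4 ∧
  (|x| ≤ 1 → x ^ 2 / π ^ 2 ≤ 1 - J x)

/-- MODULE Bes2.  `J x = (2/π) ∫_0^{π/2} cos (x cos φ) dφ` (symmetries).  Split at
`δ = x^(-1/2) ≤ π/2`.  First part `≤ δ`.  On `[δ, π/2]` integrate by parts: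
`cos (x cos φ) = (d/dφ)(-sin (x cos φ)/x) * (1/sin φ)`; the boundary term at `π/2` is `0`, at `δ` it is
`≤ 1/(x sin δ)`, and `∫_δ^{π/2} cos φ / sin² φ ≤ 1/sin δ`.  With `sin δ ≥ (2/π) δ`
(`Real.mul_le_sin`): second part `≤ 2/(x sin δ) ≤ π/(x δ)`.
So `|J x| ≤ (2/π)(1 + π) x^(-1/2)` and `x (J x)² ≤ (2(1+π)/π)² ≤ 7`. -/
def Bes2Stmt : Prop := ∀ x : ℝ, 1 ≤ x → x * J x ^ 2 ≤ 7

/-- MODULE Pt.  (uses Bes1, Bes2) with `t = 2^(-K)`:
`x < 1`: `2 (1 - J (t x)) ≤ t² x² / 2 ≤ t²/2`, `J² ≤ 1`.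
`2^k ≤ x < 2^(k+1)`, `k < K`: `J x² ≤ 7/x`, `2 (1 - J (t x)) ≤ t² x²/2`, product
`≤ 7/2 t² x ≤ 7/2 t² x² 2^(-k)`, and `x² ≤ π² 4^(k+1) (1 - J (2^(-k-1) x))`.
`x ≥ 2^K`: `J x² ≤ 7 t`.  All other terms are `≥ 0`. -/
def PtStmt : Prop := ∀ (K : ℕ) (x : ℝ), 0 ≤ x →
  J x ^ 2 * (2 * (1 - J ((1 / 2) ^ K * x))) ≤
    14 * (1 / 2) ^ K * (1 - J ((1 / 2) ^ K * x)) +
    (∑ k ∈ Finset.range K,
      14 * π ^ 2 * ((1 / 2) ^ K) ^ 2 * 2 ^ k * (1 - J ((1 / 2) ^ (k + 1) * x))) +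
    ((1 / 2) ^ K) ^ 2 / 2

/-- MODULE Cir.  `ip ξ (t * uu φ) = t ‖ξ‖ cos (φ - arg ξ)`; periodicity of the integral;
the `sin` part vanishes by `φ ↦ φ + π`. -/
def CirStmt : Prop := ∀ (ξ : ℂ) (t c : ℝ),
  cavg (fun φ => Real.cos (ip ξ (t * uu φ) + c)) = J (t * ‖ξ‖) * Real.cos c

/-- MODULE Hsc.  Dominated convergence
(`intervalIntegral.hasSum_integral_of_dominated_convergence`, bounds `a k`). -/
def HscStmt : Prop := ∀ (a : (Fin 2 → ℤ) → ℝ) (g : (Fin 2 → ℤ) → ℝ → ℝ) (G : ℝ → ℝ),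
  (∀ k, 0 ≤ a k) → Summable a → (∀ k, Continuous (g k)) → (∀ k φ, |g k φ| ≤ 1) →
  (∀ φ, HasSum (fun k => a k * g k φ) (G φ)) → HasSum (fun k => a k * cavg (g k)) (cavg G)

/-- MODULE Av1.  (uses Cir, Hsc, TorB) `HasSum` of `dF F (t uu φ) = F 0 - F (t uu φ)` averaged. -/
def Av1Stmt : Prop := ∀ (F : ℂ → ℝ) (a : (Fin 2 → ℤ) → ℝ) (ξ : (Fin 2 → ℤ) → ℂ), Spc F a ξ →
  ∀ t : ℝ, HasSum (fun k => a k * (1 - J (t * ‖ξ k‖))) (DF F t)

/-- MODULE Av2.  (uses Cir, Hsc, Bes1, TorB) The averages over `ψ`, `φ`, `ω` one after the other (each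
time `Hsc`): `cavg_ψ cos (ip ξ (uu φ - uu ψ - v)) = J ‖ξ‖ cos (ip ξ (uu φ) - ip ξ v)` (`t = -1` in
`Cir`), `cavg_φ`: `J ‖ξ‖² cos (ip ξ v)`, so
`qF F v = Σ a k * J ‖ξ k‖² * 2 (1 - cos (ip (ξ k) v))`; then `cavg_ω` with `v = t uu ω`. -/
def Av2Stmt : Prop := ∀ (F : ℂ → ℝ) (a : (Fin 2 → ℤ) → ℝ) (ξ : (Fin 2 → ℤ) → ℂ), Spc F a ξ →
  ∀ t : ℝ, HasSum (fun k => a k * (J ‖ξ k‖ ^ 2 * (2 * (1 - J (t * ‖ξ k‖))))) (QF F t)

/-- MODULE Dbl.  `dF F (2 w) ≤ 2 dF F w` averaged: `DF F (2 t) ≤ 2 DF F t`; `DF F 1 = F 0`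
(`unit`). -/
def DblStmt : Prop := ∀ F : ℂ → ℝ, Good F → (∀ t, DF F (2 * t) ≤ 2 * DF F t) ∧ DF F 1 = F 0 ∧
  (∀ t, 0 ≤ DF F t) ∧ ∀ K k : ℕ, k ≤ K → DF F ((1 / 2) ^ k) ≤ 2 ^ (K - k) * DF F ((1 / 2) ^ K)

/-- MODULE QB.  (uses Pt, Av1, Av2, Dbl) Sum `PtStmt` at `x = ‖ξ k‖` against `a k`; `Σ a k = F 0`
(`spc` at `0`) `≤ 2^K DF F (2^(-K))`; `DF F (2^(-k-1)) ≤ 2^(K-k-1) DF F (2^(-K))`.  Constant:
`14 + 7 π² K + 1/2 ≤ 15 + 70 K` (`π² < 10`). -/
def QBStmt : Prop := ∀ F : ℂ → ℝ, Good F → ∀ K : ℕ,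
  QF F ((1 / 2) ^ K) ≤ (15 + 70 * K) * (1 / 2) ^ K * DF F ((1 / 2) ^ K)

/-- MODULE PB.  `2 pF F v ≤ λ dF F v + λ⁻¹ qF F v` for all `λ > 0` (`cs`), averaged over
`v = t uu ω` (continuity of `pF`, `qF`, `dF` in `v`: from the continuity and boundedness of `F`); so
`PF² ≤ DF QF`; then `QBStmt`. -/
def PBStmt : Prop := ∀ F : ℂ → ℝ, Good F → ∀ K : ℕ, 0 ≤ PF F ((1 / 2) ^ K) ∧
  PF F ((1 / 2) ^ K) ^ 2 ≤ (15 + 70 * K) * (1 / 2) ^ K * DF F ((1 / 2) ^ K) ^ 2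

/-! ## E. Statements, graph part -/

/-- the degree of `x` in the unit-distance graph on `X` -/
noncomputable def deg (X : Finset ℂ) (x : ℂ) : ℕ :=
  letI := Classical.decPred fun y : ℂ => dist x y = 1; (X.filter fun y => dist x y = 1).card

/-- MODULE Sel1.  `S = {x | z + prj T (u x) ∈ B} ∪ {x | z + prj T (u x) - prj T v ∈ B, and
z + prj T (u x) ∉ B, and no y ∈ X with dist x y = 1, z + prj T (u y) ∈ B}`.  Two points of the first
kind (second kind) are not at distance one by `UF`; mixed by definition.  Every `x` in the second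
layer which is excluded has a neighbour `y` with the pair counted.  (indicator functions as
`if … then 1 else 0`, `open Classical`) -/
def Sel1Stmt : Prop := ∀ (T : ℝ) (B : Set Tor), UF T B → ∀ (X : Finset ℂ) (w : ℂ → ℝ),
  (∀ x, 0 ≤ w x) → ∀ (v u : ℂ), ‖u‖ = 1 → ∀ z : Tor, ∃ S ⊆ X, Avoids (S : Set ℂ) ∧
  ∑ x ∈ X, w x * (B.indicator (fun _ => (1 : ℝ)) (z + prj T (u * x)) +
    ({z | z - prj T v ∈ B ∧ z ∉ B} : Set Tor).indicator (fun _ => (1 : ℝ)) (z + prj T (u * x))) -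
  ∑ x ∈ X, ∑ y ∈ X, w x * (if dist x y = 1 then
    ({z | z + prj T (u * x) - prj T v ∈ B ∧ z + prj T (u * y) ∈ B} : Set Tor).indicator
      (fun _ => (1 : ℝ)) z else 0) ≤ ∑ x ∈ S, w x

/-- MODULE Sel2.  (uses TorB, Cor, Sel1, and the continuity of `cor T B`) Let `M` be the maximum of
`Σ_S w` over the `S ⊆ X` with `Avoids S`.  Integrate `Sel1` over `z ∈ Tor` for fixed `u = uu θ`:
`∫ 1_B (z + a) = cor T B 0`, `∫ 1[z + a - prj T v ∈ B, z + a ∉ B] = dF (cor T B) v`,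
`∫ 1[z + prj (u x) - prj v ∈ B, z + prj (u y) ∈ B] = cor T B (u (x - y) - v)`.  Average over `θ`: for
`dist x y = 1` the average of `cor T B (uu θ * (x - y) - v)` is `pF (cor T B) v`
(`uu θ * (x-y) = uu (θ + arg (x-y))`, `cavg_shift`). -/
def Sel2Stmt : Prop := ∀ (T : ℝ) (B : Set Tor), MeasurableSet B → UF T B →
  Continuous (cor T B) → ∀ (X : Finset ℂ) (w : ℂ → ℝ), (∀ x, 0 ≤ w x) → ∀ v : ℂ,
  ∃ S ⊆ X, Avoids (S : Set ℂ) ∧ (∑ x ∈ X, w x) * (cor T B 0 + dF (cor T B) v) -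
    (∑ x ∈ X, w x * deg X x) * pF (cor T B) v ≤ ∑ x ∈ S, w x

/-- MODULE Sel.  (uses TorB, Good, Sel2) Take the `S` with the maximal `Σ_S w` (finitely many) and
average `Sel2` over `v = t uu ω`. -/
def SelStmt : Prop := ∀ (T : ℝ) (B : Set Tor), MeasurableSet B → UF T B →
  ∀ (X : Finset ℂ) (w : ℂ → ℝ), (∀ x, 0 ≤ w x) → ∀ t : ℝ, ∃ S ⊆ X, Avoids (S : Set ℂ) ∧
  (∑ x ∈ X, w x) * (cor T B 0 + DF (cor T B) t) -
    (∑ x ∈ X, w x * deg X x) * PF (cor T B) t ≤ ∑ x ∈ S, w x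

/-- MODULE Deg1.  (uses Dens, Cor, Good, PB, Dbl, Sel) For `ε > 0` take `T`, `B` from `DensStmt`,
`t = 2^(-K)`; `(D PF)² ≤ D² (15+70K) 2^(-K) DF² ≤ (DF/2)²`, so the bound of `SelStmt` is
`≥ w(X) (cor 0 + DF/2) ≥ w(X) cor 0 (1 + 2^(-K-1)) ≥ w(X) (m1C - ε) (1 + 2^(-K-1))`.  There are
finitely many `S`, so the maximum satisfies the inequality with `ε = 0`. -/
def Deg1Stmt : Prop := ∀ (X : Finset ℂ) (w : ℂ → ℝ), (∀ x, 0 ≤ w x) → ∀ (D : ℝ) (K : ℕ), 0 ≤ D →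
  ∑ x ∈ X, w x * deg X x ≤ D * ∑ x ∈ X, w x → 4 * D ^ 2 * (15 + 70 * K) ≤ 2 ^ K →
  ∃ S ⊆ X, Avoids (S : Set ℂ) ∧ m1C * (1 + (1 / 2) ^ (K + 1)) * ∑ x ∈ X, w x ≤ ∑ x ∈ S, w x

/-- MODULE Lg.  Calculus: the least `K` with `4 D² (15 + 70 K) ≤ 2^K` satisfies `K ≥ 1`,
`2^K ≤ 8 D² (15 + 70 K)` and `K ≤ C log (D + 1)`. -/
def LgStmt : Prop := ∃ C : ℝ, 0 < C ∧ ∀ D : ℝ, 1 ≤ D → ∃ K : ℕ,
  4 * D ^ 2 * (15 + 70 * K) ≤ 2 ^ K ∧ (2 : ℝ) ^ K ≤ C * (D ^ 2 * Real.log (D + 1))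

/-- MODULE Deg.  (uses Deg1, Lg, Pos) -/
def DegStmt : Prop := ∃ κ : ℝ, 0 < κ ∧ ∀ (X : Finset ℂ) (w : ℂ → ℝ), (∀ x, 0 ≤ w x) →
  ∀ D : ℝ, 1 ≤ D → ∑ x ∈ X, w x * deg X x ≤ D * ∑ x ∈ X, w x →
  ∃ S ⊆ X, Avoids (S : Set ℂ) ∧
    (m1C + κ / (D ^ 2 * Real.log (D + 1))) * ∑ x ∈ X, w x ≤ ∑ x ∈ S, w x

/-! ## F. Statements, the number of unit distances -/

/-- MODULE Pl1.  Intermediate value theorem for `F e - F e'` on the interval between `s` and `s'`. -/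
def Pl1Stmt : Prop := ∀ (f g : ℝ → ℝ) (a b c d : ℝ), ContinuousOn f (Set.Icc a b) →
  ContinuousOn g (Set.Icc c d) → (∀ s, a < s → s < b → c < s → s < d → f s ≠ g s) →
  ∀ s s', a < s → s < b → c < s → s < d → a < s' → s' < b → c < s' → s' < d →
  f s < g s → f s' < g s'

/-- an `x`-monotone drawing without crossings -/
structure Drawing (V : Finset ℂ) (E : Finset (ℂ × ℂ)) (f : ℂ × ℂ → ℝ → ℝ) : Prop where
  inj : ∀ v ∈ V, ∀ w ∈ V, v.re = w.re → v = w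
  mem : ∀ e ∈ E, e.1 ∈ V ∧ e.2 ∈ V ∧ e.1.re < e.2.re
  cont : ∀ e ∈ E, ContinuousOn (f e) (Set.Icc e.1.re e.2.re)
  left : ∀ e ∈ E, f e e.1.re = e.1.im
  right : ∀ e ∈ E, f e e.2.re = e.2.im
  off : ∀ e ∈ E, ∀ v ∈ V, e.1.re < v.re → v.re < e.2.re → f e v.re ≠ v.im
  nocross : ∀ e ∈ E, ∀ e' ∈ E, e ≠ e' → ∀ s, e.1.re < s → s < e.2.re → e'.1.re < s →
    s < e'.2.re → f e s ≠ f e' s

/-- `e'` is the lowest edge above `e` among the edges with the same left end point -/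
def Wedge (E : Finset (ℂ × ℂ)) (f : ℂ × ℂ → ℝ → ℝ) (e e' : ℂ × ℂ) : Prop :=
  e' ∈ E ∧ e'.1 = e.1 ∧ (∀ s, e.1.re < s → s < e.2.re → s < e'.2.re → f e s < f e' s) ∧
  ∀ g ∈ E, g.1 = e.1 → (∀ s, e.1.re < s → s < e.2.re → s < g.2.re → f e s < f g s) →
    g ≠ e' → ∀ s, e.1.re < s → s < e'.2.re → s < g.2.re → f e' s < f g s

/-- `e` is the highest edge with its left end point -/
def Top (E : Finset (ℂ × ℂ)) (f : ℂ × ℂ → ℝ → ℝ) (e : ℂ × ℂ) : Prop :=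
  ∀ g ∈ E, g.1 = e.1 → g ≠ e → ∀ s, e.1.re < s → s < e.2.re → s < g.2.re → f g s < f e s

/-- MODULE Pl2.  (uses Pl1) Two different edges `e, g` with the same left end point are comparable:
one is above the other on the whole common interval (nonempty), by Pl1.  So (finite set, strict total
order near the end point; transitivity by comparing at one `s` near `e.1.re`) every `e` is `Top` or
has a `Wedge`.  And at most one `Top` edge for each left end point. -/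
def Pl2Stmt : Prop := ∀ V E f, Drawing V E f →
  (∀ e ∈ E, Top E f e ∨ ∃ e', Wedge E f e e') ∧
  ∀ e ∈ E, ∀ g ∈ E, Top E f e → Top E f g → e.1 = g.1 → e = g

/-- MODULE Pl3.  (uses Pl1) For a wedge `(e, e')` let `v` be the vertex with the least `v.re` among the
`v ∈ V` with `e.1.re < v.re ≤ min e.2.re e'.2.re` and `f e v.re ≤ v.im ≤ f e' v.re` (the end point
`e.2` or `e'.2` with the smaller `re` is such a vertex).  Then no edge `g ∈ E` is strictly between `e`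
and `e'` at an `s` with `e.1.re < s < v.re`: `g` stays strictly between `e` and `e'` to the left of `s`
(Pl1); if `g.1.re > e.1.re` then `g.1` is a vertex in the region to the left of `v`; if
`g.1.re = e.1.re` then `g.1 = e.1` and `g` contradicts `Wedge`; if `g.1.re < e.1.re` then by
continuity `f g e.1.re = e.1.im`, against `off`. -/
def Pl3Stmt : Prop := ∀ V E f, Drawing V E f → ∀ e ∈ E, ∀ e', Wedge E f e e' →
  ∃ v ∈ V, e.1.re < v.re ∧ v.re ≤ e.2.re ∧ v.re ≤ e'.2.re ∧ f e v.re ≤ v.im ∧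
    v.im ≤ f e' v.re ∧
    ∀ g ∈ E, ∀ s, e.1.re < s → s < v.re → g.1.re < s → s < g.2.re →
      ¬ (f e s < f g s ∧ f g s < f e' s)

/-- MODULE Pl4.  (uses Pl1, Pl2, Pl3) `#Top ≤ |V|` (left end point).  To an edge `e` which is not
`Top` assign `v` of Pl3 (for some `Wedge e e'`) and the bit `v.im = f e v.re`.  This is injective:
bit true: `v = e.2` by `off`; `v ≠ e'.2` (else `e = e'` as pairs, but `f e < f e'`), so
`v.im < f e' v.re`; two such edges `e, g` with `e.2 = g.2 = v`, say `e` below `g` just left of `v`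
(Pl1, `nocross`): near `v`, `f g s → v.im < f e' v.re`, so `g` is strictly between `e` and `e'`,
contradiction.  bit false: `f e v.re < v.im` so `v.re < e.2.re`; two such edges `e ≠ g` for the same
`v`: by `nocross` at `v.re`, say `f e v.re < f g v.re < v.im ≤ f e' v.re`; by continuity `g` is strictly
between `e` and `e'` for `s` slightly less than `v.re`, contradiction (`g.1.re < v.re`, so `g` is defined
there).  Hence `|E| ≤ |V| + 2 |V|`. -/
def PlStmt : Prop := ∀ V E f, Drawing V E f → E.card ≤ 3 * V.card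

/-- MODULE Smp.  Random subset.  For `p ∈ [0,1]` and `S ⊆ V`:
`Σ_{W ⊆ V, S ⊆ W} p^|W| (1-p)^(|V| - |W|) = p^|S|` (`Finset.sum_pow_mul_eq_add_pow` or induction); sum the
hypothesis with the weights `p^|W| (1-p)^(|V|-|W|)` over `W ∈ V.powerset`; expectation of the number
of edges in `W` is `p² |E|`, of the number of `q ∈ P` in `W` it is `p⁴ |P|`. -/
def SmpStmt : Prop := ∀ (V : Finset ℂ) (E : Finset (ℂ × ℂ)) (P : Finset ((ℂ × ℂ) × (ℂ × ℂ))),
  (∀ e ∈ E, e.1 ∈ V ∧ e.2 ∈ V ∧ e.1 ≠ e.2) →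
  (∀ q ∈ P, q.1.1 ∈ V ∧ q.1.2 ∈ V ∧ q.2.1 ∈ V ∧ q.2.2 ∈ V ∧ q.1.1 ≠ q.1.2 ∧ q.2.1 ≠ q.2.2 ∧
    q.1.1 ≠ q.2.1 ∧ q.1.1 ≠ q.2.2 ∧ q.1.2 ≠ q.2.1 ∧ q.1.2 ≠ q.2.2) →
  (∀ W ⊆ V, ((E.filter fun e => e.1 ∈ W ∧ e.2 ∈ W).card : ℝ) ≤ 3 * W.card +
    (P.filter fun q => q.1.1 ∈ W ∧ q.1.2 ∈ W ∧ q.2.1 ∈ W ∧ q.2.2 ∈ W).card) →
  ∀ p : ℝ, 0 ≤ p → p ≤ 1 → p ^ 2 * E.card ≤ 3 * p * V.card + p ^ 4 * P.card

/-- the upper unit semicircle with the centre `c` -/
noncomputable def arc (c : ℂ) (s : ℝ) : ℝ := c.im + √(1 - (s - c.re) ^ 2)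

/-- MODULE Arc.  (1) `‖p - c‖ = 1`, `c.im ≤ p.im` iff `|p.re - c.re| ≤ 1` and `p.im = arc c p.re`.
(2) two different upper semicircles meet at most once: let `p, q` be two common points, `p ≠ q`,
`c ≠ c'`.  `c, c'` are the two centres of unit circles through `p, q`, so `c + c' = p + q`
(algebra), and `c.im, c'.im ≤ min p.im q.im` gives `c.im = c'.im = p.im = q.im`, then
`p.re - c.re, q.re - c.re, p.re - c'.re, q.re - c'.re = ±1`, contradiction. -/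
def ArcStmt : Prop := (∀ p c : ℂ, (‖p - c‖ = 1 ∧ c.im ≤ p.im) ↔
    (|p.re - c.re| ≤ 1 ∧ p.im = arc c p.re)) ∧
  ∀ c c' : ℂ, c ≠ c' → ∀ s s' : ℝ, |s - c.re| ≤ 1 → |s - c'.re| ≤ 1 → |s' - c.re| ≤ 1 →
    |s' - c'.re| ≤ 1 → arc c s = arc c' s → arc c s' = arc c' s' → s = s'

/-- the points of `X` on the upper unit semicircle with the centre `c` -/
def OnArc (X : Finset ℂ) (c p : ℂ) : Prop := p ∈ X ∧ ‖p - c‖ = 1 ∧ c.im ≤ p.im

/-- `(p, q)` are consecutive points of `X` on the upper unit semicircle with the centre `c` -/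
def Cons (X : Finset ℂ) (c : ℂ) (e : ℂ × ℂ) : Prop := OnArc X c e.1 ∧ OnArc X c e.2 ∧
  e.1.re < e.2.re ∧ ∀ r, OnArc X c r → ¬ (e.1.re < r.re ∧ r.re < e.2.re)

open Classical in
/-- the edges -/
noncomputable def edg (X : Finset ℂ) : Finset (ℂ × ℂ) :=
  (X ×ˢ X).filter fun e => ∃ c ∈ X, Cons X c e

open Classical in
/-- the crossing pairs of edges, the centre with the smaller real part first -/
noncomputable def crs (X : Finset ℂ) : Finset ((ℂ × ℂ) × (ℂ × ℂ)) :=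
  (edg X ×ˢ edg X).filter fun q => ∃ c ∈ X, ∃ c' ∈ X, c.re < c'.re ∧ Cons X c q.1 ∧
    Cons X c' q.2 ∧ ∃ s, q.1.1.re < s ∧ s < q.1.2.re ∧ q.2.1.re < s ∧ s < q.2.2.re ∧
      arc c s = arc c' s

/-- general position -/
def Gp (X : Finset ℂ) : Prop := (∀ v ∈ X, ∀ w ∈ X, v.re = w.re → v = w) ∧
  ∀ v ∈ X, ∀ w ∈ X, v.im = w.im → v = w

/-- MODULE Cc.  Induction on `U` (remove the point with the largest real part, its predecessor exists
if `U` has at least two points). -/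
def CcStmt : Prop := ∀ U : Finset ℂ, (∀ v ∈ U, ∀ w ∈ U, v.re = w.re → v = w) →
  open Classical in U.card ≤ ((U ×ˢ U).filter fun e => e.1.re < e.2.re ∧
    ∀ r ∈ U, ¬ (e.1.re < r.re ∧ r.re < e.2.re)).card + 1

/-- MODULE Ed1.  (uses Arc, Cc) In general position the centre of an edge is unique (Arc (2) with
`s = e.1.re`, `s' = e.2.re`), every `c` has at least `|U_c| - 1` edges, `U_c` = points on the arc of `c`
(consecutive elements of a finite set with distinct `re`), and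
`Σ_c |U_c| = ½ Σ_x deg X x` because for `dist x c = 1` exactly one of `x.im > c.im`,
`c.im > x.im` holds.  Hence. -/
def Ed1Stmt : Prop := ∀ X : Finset ℂ, Gp X →
  (∑ x ∈ X, (deg X x : ℝ)) ≤ 2 * (edg X).card + 2 * X.card

/-- MODULE Ed2.  (uses Arc) `q ↦ (c, c')` is injective on `crs X` (the common point `s` is unique by Arc
(2), the edge of `c` over `s` is unique, `Cons`), into the pairs of `X × X` with `c.re < c'.re`,
of which there are at most `|X|²/2`.  And a crossing pair has four different end points: a common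
end point is either a second common point of the two arcs, or the open intervals are disjoint. -/
def Ed2Stmt : Prop := ∀ X : Finset ℂ, Gp X → (2 * (crs X).card : ℝ) ≤ (X.card : ℝ) ^ 2 ∧
  ∀ q ∈ crs X, q.1.1 ≠ q.2.1 ∧ q.1.1 ≠ q.2.2 ∧ q.1.2 ≠ q.2.1 ∧ q.1.2 ≠ q.2.2

/-- MODULE Ed3.  (uses Arc, Pl) `W ⊆ X`.  Remove from the edges inside `W` one edge of each crossing
pair inside `W`; the rest with `f e = arc c`, `c` the centre of `e` (choice), is a `Drawing` with the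
vertices `W`: `off`: a vertex `v ∈ W` on the arc of `e` between the end points would be `OnArc X c`
(Arc (1)), against `Cons`; `nocross`: same centre: consecutive pairs have disjoint open
intervals; different centres (`re` different by `Gp`): it would be in `crs X`. -/
def Ed3Stmt : Prop := ∀ X : Finset ℂ, Gp X → ∀ W ⊆ X,
  open Classical in ((edg X).filter fun e => e.1 ∈ W ∧ e.2 ∈ W).card ≤ 3 * W.card +
    ((crs X).filter fun q => q.1.1 ∈ W ∧ q.1.2 ∈ W ∧ q.2.1 ∈ W ∧ q.2.2 ∈ W).card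

/-- MODULE Gen.  Rotation into general position: only finitely many (≤ 4 |X|²) unit vectors `u` are
excluded by `(u (v - w)).re = 0` or `(u (v - w)).im = 0`, `v ≠ w ∈ X`; the degrees are invariant. -/
def GenStmt : Prop := ∀ X : Finset ℂ, ∃ Y : Finset ℂ, Gp Y ∧ Y.card = X.card ∧
  ∑ x ∈ X, (deg X x : ℝ) = ∑ y ∈ Y, (deg Y y : ℝ)

/-- MODULE Sst.  (uses Smp, Ed1, Ed2, Ed3, Gen) `p = n^(-1/3)`:
`|E| ≤ 3 n/p + p² n²/2 = 3.5 n^(4/3)`; `Σ deg ≤ 2 |E| + 2 n ≤ 9 n^(4/3)`. -/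
def SstStmt : Prop := ∀ X : Finset ℂ,
  ∑ x ∈ X, (deg X x : ℝ) ≤ 10 * (X.card : ℝ) ^ ((4 : ℝ) / 3)

/-! ## G. Final statements -/

/-- MODULE Err.  (uses Deg, Sst) `w = 1`, `D = 10 n^(1/3)`;
`log (10 n^(1/3) + 1) ≤ C log n` for `n ≥ 2`.  Transfer between `ℂ` and `Plane` by `FinTransfer_e`. -/
def ErrStmt : Prop := ∃ κ : ℝ, 0 < κ ∧ ∀ n : ℕ, 2 ≤ n →
  m1 * n + κ * ((n : ℝ) ^ ((1 : ℝ) / 3) / Real.log n) ≤ fE n

open Classical in
/-- MODULE DegP.  `DegStmt` transferred to `Plane` by `FinTransfer_e`. -/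
def DegPStmt : Prop := ∃ κ : ℝ, 0 < κ ∧ ∀ (X : Finset Plane) (w : Plane → ℝ), (∀ x ∈ X, 0 ≤ w x) →
  ∀ D : ℝ, 1 ≤ D →
  ∑ x ∈ X, w x * (X.filter fun y => dist x y = 1).card ≤ D * ∑ x ∈ X, w x →
  ∃ S ⊆ X, (∀ x ∈ S, ∀ y ∈ S, dist x y ≠ 1) ∧
    (m1 + κ / (D ^ 2 * Real.log (D + 1))) * ∑ x ∈ X, w x ≤ ∑ x ∈ S, w x

end Dadc30.Gap
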