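import Pool.Agent.Lib.MP_dadc30_coG.TorB

set_option linter.all false

/-!
# MP_dadc30_co, Theorem Q, module Deg: the gap in terms of the average degree
-/

open MeasureTheory Filter Topology
open scoped Real ComplexConjugate

namespace Dadc30.Gap

theorem degStmt : Deg1Stmt → LgStmt → PosStmt → DegStmt := by
  intro h1 h2 h3
  obtain ⟨C, hC, hL⟩ := h2
  have hm : 0 < m1C := h3
  refine ⟨m1C / (2 * C), by positivity, fun X w hw D hD hsum => ?_⟩
  obtain ⟨K, hK1, hK2⟩ := hL D hD
  obtain ⟨S, hS, hA, hle⟩ := h1 X w hw D K (by linarith) hsum hK1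
  refine ⟨S, hS, hA, le_trans ?_ hle⟩
  have hW : 0 ≤ ∑ x ∈ X, w x := Finset.sum_nonneg fun x _ => hw x
  refine mul_le_mul_of_nonneg_right ?_ hW
  have hlog : 0 < Real.log (D + 1) := Real.log_pos (by linarith)
  have hq : 0 < D ^ 2 * Real.log (D + 1) := by positivity
  rw [mul_add, mul_one]
  refine add_le_add le_rfl ?_
  have h5 : (1 / 2 : ℝ) ^ (K + 1) = 1 / (2 * 2 ^ K) := by
    rw [one_div_pow, pow_succ]
    ring
  rw [h5, div_div, mul_one_div]
  refine div_le_div_of_nonneg_left hm.le (by positivity) ?_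
  linarith

end Dadc30.Gap
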