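import Pool.Agent.Lib.MP_dadc30_coG.TorB

set_option linter.all false

/-!
# MP_dadc30_co, Theorem Q, module Deg1: the gap in terms of the average degree
-/

open MeasureTheory Filter Topology
open scoped Real ComplexConjugate

namespace Dadc30.Gap

/-- an independent set of maximal weight -/
theorem Deg1_max (X : Finset ℂ) (w : ℂ → ℝ) : ∃ S ⊆ X, Avoids (S : Set ℂ) ∧
    ∀ S' ⊆ X, Avoids (S' : Set ℂ) → ∑ x ∈ S', w x ≤ ∑ x ∈ S, w x := by
  classical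
  have hne : (X.powerset.filter fun S : Finset ℂ => Avoids (S : Set ℂ)).Nonempty := by
    refine ⟨∅, Finset.mem_filter.mpr ⟨Finset.mem_powerset.mpr (Finset.empty_subset _), ?_⟩⟩
    intro x hx
    simp at hx
  obtain ⟨S, hS, hmax⟩ := Finset.exists_max_image _ (fun S => ∑ x ∈ S, w x) hne
  rw [Finset.mem_filter, Finset.mem_powerset] at hS
  refine ⟨S, hS.1, hS.2, fun S' h1 h2 => ?_⟩
  exact hmax S' (Finset.mem_filter.mpr ⟨Finset.mem_powerset.mpr h1, h2⟩)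

/-- the bound with an error `ε` -/
theorem Deg1_eps (hDens : DensStmt) (hCor : CorStmt) (hGood : GoodStmt) (hPB : PBStmt)
    (hDbl : DblStmt) (hSel : SelStmt) (X : Finset ℂ) (w : ℂ → ℝ) (hw : ∀ x, 0 ≤ w x) (D : ℝ)
    (K : ℕ) (hD : 0 ≤ D) (hdeg : ∑ x ∈ X, w x * deg X x ≤ D * ∑ x ∈ X, w x)
    (hK : 4 * D ^ 2 * (15 + 70 * K) ≤ 2 ^ K) (ε : ℝ) (hε : 0 < ε) :
    ∃ S ⊆ X, Avoids (S : Set ℂ) ∧
      (m1C - ε) * (1 + (1 / 2) ^ (K + 1)) * ∑ x ∈ X, w x ≤ ∑ x ∈ S, w x := by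
  obtain ⟨T, B, hB, hU, hm⟩ := hDens ε hε
  have hG := hGood T B hB hU
  obtain ⟨S, hS, hA, hs⟩ := hSel T B hB hU X w hw ((1 / 2) ^ K)
  refine ⟨S, hS, hA, ?_⟩
  have hF0 : m1C - ε ≤ cor T B 0 := by
    rw [(hCor T B hB).1]
    exact hm
  have hF0' : 0 ≤ cor T B 0 := hG.nonneg 0
  obtain ⟨hP0, hP⟩ := hPB (cor T B) hG K
  obtain ⟨-, hD1, hD0, hDk⟩ := hDbl (cor T B) hG
  have hDF0 := hD0 ((1 / 2) ^ K)
  have hDF := hDk K 0 (Nat.zero_le _)
  rw [pow_zero, hD1, Nat.sub_zero] at hDF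
  set F0 := cor T B 0 with hF0d
  set P := PF (cor T B) ((1 / 2) ^ K) with hPd
  set E := DF (cor T B) ((1 / 2) ^ K) with hEd
  set W := ∑ x ∈ X, w x with hW
  set Wd := ∑ x ∈ X, w x * deg X x with hWd
  set M := ∑ x ∈ S, w x with hM
  have hW0 : 0 ≤ W := Finset.sum_nonneg fun x _ => hw x
  have hpow : (2 : ℝ) ^ K * (1 / 2) ^ K = 1 := by
    rw [← mul_pow]
    norm_num
  have hh0 : (0 : ℝ) < (1 / 2) ^ K := by positivity
  have h1 : (D * P) ^ 2 ≤ (E / 2) ^ 2 := by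
    calc (D * P) ^ 2 = D ^ 2 * P ^ 2 := by ring
      _ ≤ D ^ 2 * ((15 + 70 * K) * (1 / 2) ^ K * E ^ 2) :=
          mul_le_mul_of_nonneg_left hP (sq_nonneg _)
      _ = (4 * D ^ 2 * (15 + 70 * K)) * ((1 / 2) ^ K * E ^ 2 / 4) := by ring
      _ ≤ 2 ^ K * ((1 / 2) ^ K * E ^ 2 / 4) := mul_le_mul_of_nonneg_right hK (by positivity)
      _ = (2 ^ K * (1 / 2) ^ K) * (E ^ 2 / 4) := by ring
      _ = (E / 2) ^ 2 := by rw [hpow]; ring
  have h2 : D * P ≤ E / 2 := abs_le_of_sq_le_sq' h1 (by positivity) |>.2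
  have h3 : (1 / 2) ^ K * F0 ≤ E := by
    calc (1 / 2 : ℝ) ^ K * F0 ≤ (1 / 2) ^ K * (2 ^ K * E) := mul_le_mul_of_nonneg_left hDF hh0.le
      _ = (2 ^ K * (1 / 2) ^ K) * E := by ring
      _ = E := by rw [hpow, one_mul]
  have h4 : Wd * P ≤ W * (E / 2) := by
    calc Wd * P ≤ D * W * P := mul_le_mul_of_nonneg_right hdeg hP0
      _ = W * (D * P) := by ring
      _ ≤ W * (E / 2) := mul_le_mul_of_nonneg_left h2 hW0
  have h5 : W * (F0 + E / 2) ≤ M := by nlinarith [hs]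
  have h6 : F0 * (1 + (1 / 2) ^ (K + 1)) ≤ F0 + E / 2 := by
    rw [pow_succ]
    nlinarith
  calc (m1C - ε) * (1 + (1 / 2) ^ (K + 1)) * W ≤ F0 * (1 + (1 / 2) ^ (K + 1)) * W :=
        mul_le_mul_of_nonneg_right (mul_le_mul_of_nonneg_right hF0 (by positivity)) hW0
    _ ≤ (F0 + E / 2) * W := mul_le_mul_of_nonneg_right h6 hW0
    _ = W * (F0 + E / 2) := by ring
    _ ≤ M := h5

/-- MODULE Deg1 -/
theorem deg1Stmt : DensStmt → CorStmt → GoodStmt → PBStmt → DblStmt → SelStmt → Deg1Stmt := by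
  intro hDens hCor hGood hPB hDbl hSel X w hw D K hD hdeg hK
  obtain ⟨S, hS, hA, hmax⟩ := Deg1_max X w
  refine ⟨S, hS, hA, ?_⟩
  have hW0 : 0 ≤ ∑ x ∈ X, w x := Finset.sum_nonneg fun x _ => hw x
  have hc : (0 : ℝ) < 1 + (1 / 2) ^ (K + 1) := by positivity
  apply le_of_forall_pos_le_add
  intro δ hδ
  have hC : 0 < (1 + (1 / 2) ^ (K + 1)) * (∑ x ∈ X, w x) + 1 := by positivity
  obtain ⟨S', h1, h2, h3⟩ := Deg1_eps hDens hCor hGood hPB hDbl hSel X w hw D K hD hdeg hK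
    (δ / ((1 + (1 / 2) ^ (K + 1)) * (∑ x ∈ X, w x) + 1)) (by positivity)
  have h4 := hmax S' h1 h2
  set c : ℝ := 1 + (1 / 2) ^ (K + 1) with hcd
  set W := ∑ x ∈ X, w x with hW
  have h5 : δ / (c * W + 1) * c * W ≤ δ := by
    have h6 : δ / (c * W + 1) * c * W = δ * ((c * W) / (c * W + 1)) := by ring
    rw [h6]
    have h7 : (c * W) / (c * W + 1) ≤ 1 := by
      rw [div_le_one hC]
      linarith
    nlinarith
  have h8 : (m1C - δ / (c * W + 1)) * c * W = m1C * c * W - δ / (c * W + 1) * c * W := by ring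
  linarith

end Dadc30.Gap
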