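import Pool.Agent.Lib.MP_dadc30_coG.TorB

set_option linter.all false

/-!
# MP_dadc30_co, Theorem Q, module DegP: transfer to the Euclidean plane
-/

open MeasureTheory Filter Topology
open scoped Real ComplexConjugate

namespace Dadc30.Gap

open Classical in
theorem DegP_deg (X : Finset Plane) (x : Plane) :
    deg (X.map FinTransfer_e.symm.toEquiv.toEmbedding) (FinTransfer_e.symm x) =
      (X.filter fun y => dist x y = 1).card := by
  unfold deg
  rw [Finset.filter_map, Finset.card_map]
  refine congrArg Finset.card ?_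
  ext y
  simp only [Finset.mem_filter, Function.comp]
  have h1 : dist (FinTransfer_e.symm x) (FinTransfer_e.symm.toEquiv.toEmbedding y) = dist x y :=
    FinTransfer_e.symm.dist_map x y
  rw [h1]

theorem degPStmt : DegStmt → DegPStmt := by
  classical
  rintro ⟨κ, hκ, h⟩
  refine ⟨κ, hκ, ?_⟩
  intro X w hw D hD hsum
  set f := FinTransfer_e.symm.toEquiv.toEmbedding with hf
  have hfa : ∀ x, f x = FinTransfer_e.symm x := fun x => rfl
  let w' : ℂ → ℝ := fun z => if FinTransfer_e z ∈ X then w (FinTransfer_e z) else 0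
  have hw' : ∀ z, 0 ≤ w' z := by
    intro z
    simp only [w']
    split_ifs with hz
    · exact hw _ hz
    · exact le_rfl
  have hw2 : ∀ x ∈ X, w' (f x) = w x := by
    intro x hx
    simp only [w', hfa, LinearIsometryEquiv.apply_symm_apply, hx, if_true]
  have e1 : ∑ z ∈ X.map f, w' z = ∑ x ∈ X, w x := by
    rw [Finset.sum_map]
    exact Finset.sum_congr rfl fun x hx => hw2 x hx
  have e2 : ∑ z ∈ X.map f, w' z * deg (X.map f) z =
      ∑ x ∈ X, w x * (X.filter fun y => dist x y = 1).card := by
    rw [Finset.sum_map]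
    refine Finset.sum_congr rfl fun x hx => ?_
    rw [hw2 x hx, hfa, hf, DegP_deg]
  obtain ⟨S, hS, hav, hle⟩ := h (X.map f) w' hw' D hD (by
    rw [e1, e2]
    refine le_trans (le_of_eq ?_) hsum
    refine Finset.sum_congr rfl fun x hx => ?_
    refine congrArg (fun t : ℕ => w x * (t : ℝ)) ?_
    refine congrArg Finset.card ?_
    ext y
    simp only [Finset.mem_filter])
  refine ⟨S.map FinTransfer_e.toEquiv.toEmbedding, ?_, ?_, ?_⟩
  · intro x hx
    rw [Finset.mem_map] at hx
    obtain ⟨z, hz, rfl⟩ := hx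
    have h1 := hS hz
    rw [Finset.mem_map] at h1
    obtain ⟨y, hy, hyz⟩ := h1
    have h2 : FinTransfer_e z = y := by
      rw [← hyz, hfa, LinearIsometryEquiv.apply_symm_apply]
    change FinTransfer_e z ∈ X
    rw [h2]
    exact hy
  · intro x hx y hy
    rw [Finset.mem_map] at hx hy
    obtain ⟨z, hz, rfl⟩ := hx
    obtain ⟨z', hz', rfl⟩ := hy
    change dist (FinTransfer_e z) (FinTransfer_e z') ≠ 1
    rw [FinTransfer_e.dist_map]
    exact hav z hz z' hz'
  · rw [e1] at hle
    have e3 : ∑ x ∈ S.map FinTransfer_e.toEquiv.toEmbedding, w x = ∑ z ∈ S, w' z := by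
      rw [Finset.sum_map]
      refine Finset.sum_congr rfl fun z hz => ?_
      have h1 := hS hz
      rw [Finset.mem_map] at h1
      obtain ⟨y, hy, hyz⟩ := h1
      have h2 : FinTransfer_e z = y := by
        rw [← hyz, hfa, LinearIsometryEquiv.apply_symm_apply]
      change w (FinTransfer_e z) = w' z
      simp only [w', h2, hy, if_true]
    rw [e3, m1_eq_m1C]
    exact hle

end Dadc30.Gap
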