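import Pool.Agent.Lib.MP_dadc30_coG.TorB

/-!
# MP_dadc30_coG, Dens: unit-free sets of the torus with density close to `m1C`
-/

namespace Dadc30.Gap

open MeasureTheory Filter Topology

theorem densStmt (h1 : Dens1Stmt) (h2 : Dens2Stmt) : DensStmt := by
  intro ε hε
  obtain ⟨R, hR, A, hAm, hAs, hAv, hA⟩ := h1 ε hε
  obtain ⟨B, hBm, hBu, hB⟩ := h2 R hR A hAm hAs hAv
  refine ⟨2 * R + 2, B, hBm, hBu, ?_⟩
  rw [hB, le_div_iff₀ (by positivity)]
  exact hA

end Dadc30.Gap
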