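import Pool.Agent.Lib.MP_dadc30_coG.TorB

set_option linter.all false

/-!
# MP_dadc30_co, Theorem Q, module Dens1
-/

open MeasureTheory Filter Topology
open scoped Real ComplexConjugate

namespace Dadc30.Gap

theorem Dens1_avoids_empty : Avoids (∅ : Set ℂ) := fun x hx => absurd hx (by simp)

theorem Dens1_nonempty : ({d | ∃ A : Set ℂ, MeasurableSet A ∧ Avoids A ∧ d = upDens A}).Nonempty :=
  ⟨upDens ∅, ∅, MeasurableSet.empty, Dens1_avoids_empty, rfl⟩

theorem Dens1_m1C_le_one : m1C ≤ 1 := by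
  unfold m1C
  refine csSup_le Dens1_nonempty ?_
  rintro d ⟨A, _, _, rfl⟩
  exact upDens_le_one A

theorem dens1Stmt : Dens1Stmt := by
  intro ε hε
  by_cases hm : m1C ≤ ε
  · refine ⟨1, one_pos, ∅, MeasurableSet.empty, Set.empty_subset _, Dens1_avoids_empty, ?_⟩
    have h : (m1C - ε) * (2 * 1 + 2) ^ 2 ≤ 0 :=
      mul_nonpos_of_nonpos_of_nonneg (by linarith) (by positivity)
    exact h.trans ENNReal.toReal_nonneg
  · have hm' : ε < m1C := not_le.mp hm
    have h1 : m1C - ε / 2 <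
        sSup {d | ∃ A : Set ℂ, MeasurableSet A ∧ Avoids A ∧ d = upDens A} := by
      change m1C - ε / 2 < m1C
      linarith
    obtain ⟨d, ⟨A, hA, hAv, rfl⟩, hd⟩ := exists_lt_of_lt_csSup Dens1_nonempty h1
    unfold upDens at hd
    have hf : ∃ᶠ R : ℝ in atTop,
        m1C - ε / 2 < (volume (A ∩ sqBox R)).toReal / (2 * R) ^ 2 := by
      refine frequently_lt_of_lt_limsup ?_ hd
      exact IsBoundedUnder.isCoboundedUnder_le
        (isBoundedUnder_of ⟨0, fun R => tile_ratio_nonneg A R⟩)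
    obtain ⟨R, hR, hR2⟩ := (hf.and_eventually (eventually_ge_atTop (max 1 (6 / ε)))).exists
    have hR1 : 1 ≤ R := (le_max_left _ _).trans hR2
    have hR6 : 6 / ε ≤ R := (le_max_right _ _).trans hR2
    have h6 : 6 ≤ R * ε := (div_le_iff₀ hε).mp hR6
    refine ⟨R, by linarith, A ∩ sqBox R, hA.inter (measurableSet_sqBox R),
      Set.inter_subset_right, fun x hx y hy => hAv x hx.1 y hy.1, ?_⟩
    have hpos : (0 : ℝ) < (2 * R) ^ 2 := by positivity
    rw [lt_div_iff₀ hpos] at hR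
    have hle := Dens1_m1C_le_one
    have key : (m1C - ε) * (2 * R + 2) ^ 2 ≤ (m1C - ε / 2) * (2 * R) ^ 2 := by
      have e1 : (m1C - ε) * (8 * R + 4) ≤ 8 * R + 4 := by
        have : (m1C - ε) * (8 * R + 4) ≤ 1 * (8 * R + 4) :=
          mul_le_mul_of_nonneg_right (by linarith) (by linarith)
        linarith
      have e2 : 12 * R ≤ 2 * ε * R ^ 2 := by nlinarith
      nlinarith
    linarith

end Dadc30.Gap
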