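import Pool.Agent.Lib.MP_dadc30_coG.TorB

set_option autoImplicit false

/-!
# MP_dadc30_co, package G, module Dens2: from the plane to the torus
-/

open MeasureTheory Filter Topology
open scoped Real

namespace Dadc30.Gap

/-- the local instance of `Mathlib.Analysis.Fourier.AddCircleMulti` -/
theorem Dens2_mp (a : Fin 2 → ℝ) : MeasurePreserving (UnitAddTorus.measurableEquivPiIoc a) haarT
    (Measure.comap Subtype.val volume) :=
  UnitAddTorus.measurePreserving_equivPiIoc a

theorem Dens2_circle (x y v : ℝ) (h : ((x : ℝ) : UnitAddCircle) + ((v : ℝ) : UnitAddCircle) =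
    ((y : ℝ) : UnitAddCircle)) (h1 : |y - x - v| < 1) : y = x + v := by
  have h2 : ((y - x - v : ℝ) : UnitAddCircle) = 0 := by
    have h3 : ((y - x - v : ℝ) : UnitAddCircle) = (y : UnitAddCircle) - (x : UnitAddCircle) -
      (v : UnitAddCircle) := rfl
    rw [h3, ← h]
    abel
  obtain ⟨n, hn⟩ := (AddCircle.coe_eq_zero_iff (1 : ℝ)).1 h2
  rw [zsmul_eq_mul, mul_one] at hn
  rw [← hn] at h1
  have h4 : |n| < 1 := by exact_mod_cast h1
  have h5 : n = 0 := Int.abs_lt_one_iff.1 h4
  rw [h5] at hn
  simp only [Int.cast_zero] at hn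
  linarith

theorem dens2Stmt : Dens2Stmt := by
  intro R hR A hA hAR hAv
  have hT : 0 < 2 * R + 2 := by linarith
  set T : ℝ := 2 * R + 2 with hTdef
  let a : Fin 2 → ℝ := fun _ => -(1 / 2)
  let e := UnitAddTorus.measurableEquivPiIoc a
  let L : (Fin 2 → ℝ) → ℂ := fun x => Complex.measurableEquivPi.symm (T • x)
  have hL : ∀ x, L x = ((T * x 0 : ℝ) : ℂ) + ((T * x 1 : ℝ) : ℂ) * Complex.I := fun x => rfl
  have hLre : ∀ x, (L x).re = T * x 0 := by
    intro x
    rw [hL]
    simp
  have hLim : ∀ x, (L x).im = T * x 1 := by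
    intro x
    rw [hL]
    simp
  have hLm : Measurable L :=
    Complex.measurableEquivPi.symm.measurable.comp (measurable_id.const_smul T)
  let A' : Set (Fin 2 → ℝ) := L ⁻¹' A
  have hA'm : MeasurableSet A' := hLm hA
  have hA'b : ∀ x ∈ A', ∀ i, |x i| * T ≤ R := by
    intro x hx i
    have h1 := hAR hx
    have h2 : |(L x).re| ≤ R ∧ |(L x).im| ≤ R := h1
    rw [hLre, hLim, abs_mul, abs_mul, abs_of_pos hT] at h2
    fin_cases i
    · show |x 0| * T ≤ R
      linarith [h2.1]
    · show |x 1| * T ≤ R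
      linarith [h2.2]
  have hbox : ∀ x ∈ A', ∀ i, x i ∈ Set.Ioc (a i) (a i + 1) := by
    intro x hx i
    have h1 := hA'b x hx i
    have h2 : |x i| < 1 / 2 := by
      by_contra h
      rw [not_lt] at h
      have : 1 / 2 * T ≤ |x i| * T := mul_le_mul_of_nonneg_right h hT.le
      linarith
    rw [abs_lt] at h2
    show -(1 / 2) < x i ∧ x i ≤ -(1 / 2) + 1
    constructor <;> linarith [h2.1, h2.2]
  have hem : Measurable fun z : Tor => ((e z).1 : Fin 2 → ℝ) :=
    measurable_subtype_coe.comp e.measurable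
  refine ⟨{z | (e z).1 ∈ A'}, hem hA'm, ?_, ?_⟩
  · intro z hz u hu hzu
    have hz1 : ∀ i, (((e z).1 i : ℝ) : UnitAddCircle) = z i := fun i =>
      congrFun (e.symm_apply_apply z) i
    have hz2 : ∀ i, (((e (z + prj T u)).1 i : ℝ) : UnitAddCircle) = (z + prj T u) i := fun i =>
      congrFun (e.symm_apply_apply (z + prj T u)) i
    set x : Fin 2 → ℝ := (e z).1 with hx
    set y : Fin 2 → ℝ := (e (z + prj T u)).1 with hy
    have hxA : x ∈ A' := hz
    have hyA : y ∈ A' := hzu
    have hsmall : ∀ (i : Fin 2) (v : ℝ), |v| ≤ 1 → |y i - x i - v / T| < 1 := by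
      intro i v hv
      have h1 := hA'b x hxA i
      have h2 := hA'b y hyA i
      have h3 : |y i - x i - v / T| ≤ |y i| + |x i| + |v| / T := by
        refine (abs_sub _ _).trans (add_le_add (abs_sub _ _) (le_of_eq ?_))
        rw [abs_div, abs_of_pos hT]
      have h4 : (|y i| + |x i| + |v| / T) * T < 1 * T := by
        rw [add_mul, add_mul, div_mul_cancel₀ _ hT.ne']
        linarith
      exact h3.trans_lt (lt_of_mul_lt_mul_right h4 hT.le)
    have hu1 : |u.re| ≤ 1 := by
      rw [← hu]
      exact Complex.abs_re_le_norm u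
    have hu2 : |u.im| ≤ 1 := by
      rw [← hu]
      exact Complex.abs_im_le_norm u
    have k0 : y 0 = x 0 + u.re / T := by
      refine Dens2_circle _ _ _ ?_ (hsmall 0 u.re hu1)
      rw [hz1, hz2]
      rfl
    have k1 : y 1 = x 1 + u.im / T := by
      refine Dens2_circle _ _ _ ?_ (hsmall 1 u.im hu2)
      rw [hz1, hz2]
      rfl
    have k2 : L y = L x + u := by
      apply Complex.ext
      · rw [Complex.add_re, hLre, hLre, k0]
        field_simp
      · rw [Complex.add_im, hLim, hLim, k1]
        field_simp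
    refine hAv (L y) hyA (L x) hxA ?_
    rw [k2, dist_eq_norm, add_sub_cancel_left]
    exact hu
  · have hbm : MeasurableSet {x : Fin 2 → ℝ | ∀ i, x i ∈ Set.Ioc (a i) (a i + 1)} :=
      MeasurableSet.univ_pi' (fun i => measurableSet_Ioc)
    have h1 : haarT {z | (e z).1 ∈ A'} = volume A' := by
      have h5 := (Dens2_mp a).measure_preimage (s := Subtype.val ⁻¹' A')
        (measurable_subtype_coe hA'm).nullMeasurableSet
      have h6 : (UnitAddTorus.measurableEquivPiIoc a) ⁻¹' (Subtype.val ⁻¹' A') =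
        {z | (e z).1 ∈ A'} := rfl
      rw [h6] at h5
      refine h5.trans ((Measure.comap_apply Subtype.val Subtype.val_injective
        (fun s hs => MeasurableSet.subtype_image hbm hs) volume
          (measurable_subtype_coe hA'm)).trans ?_)
      congr 1
      ext x
      constructor
      · rintro ⟨w, hw, rfl⟩
        exact hw
      · intro hx
        exact ⟨⟨x, hbox x hx⟩, hx, rfl⟩
    have h3 : volume A' = ENNReal.ofReal |(T ^ 2)⁻¹| * volume A := by
      have h4 : A' = (fun x : Fin 2 → ℝ => T • x) ⁻¹' (Complex.measurableEquivPi.symm ⁻¹' A) := rfl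
      rw [h4, Measure.addHaar_preimage_smul _ hT.ne',
        (Complex.volume_preserving_equiv_pi.symm).measure_preimage_equiv]
      simp
    rw [h1, h3, ENNReal.toReal_mul, ENNReal.toReal_ofReal (abs_nonneg _),
      abs_of_pos (by positivity)]
    rw [div_eq_inv_mul]

end Dadc30.Gap
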