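import Pool.Agent.Lib.MP_dadc30_coG.TorB

set_option linter.all false
set_option autoImplicit false

namespace Dadc30.Gap

open scoped Real

open Classical in
/-- the points of `X` on the arc with the centre `c` -/
noncomputable def Ed1_U (X : Finset ℂ) (c : ℂ) : Finset ℂ := X.filter fun p => OnArc X c p

open Classical in
/-- the consecutive pairs on the arc with the centre `c` -/
noncomputable def Ed1_C (X : Finset ℂ) (c : ℂ) : Finset (ℂ × ℂ) :=
  (X ×ˢ X).filter fun e => Cons X c e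

lemma Ed1_mem_U (X : Finset ℂ) (c p : ℂ) : p ∈ Ed1_U X c ↔ OnArc X c p := by
  classical
  unfold Ed1_U
  rw [Finset.mem_filter]
  exact ⟨fun h => h.2, fun h => ⟨h.1, h⟩⟩

lemma Ed1_card (hCc : CcStmt) (X : Finset ℂ) (hX : Gp X) (c : ℂ) :
    (Ed1_U X c).card ≤ (Ed1_C X c).card + 1 := by
  classical
  have h := hCc (Ed1_U X c) (fun v hv w hw h => hX.1 v ((Ed1_mem_U X c v).mp hv).1 w
    ((Ed1_mem_U X c w).mp hw).1 h)
  refine h.trans ?_
  apply Nat.add_le_add_right
  apply Finset.card_le_card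
  intro e he
  rw [Finset.mem_filter, Finset.mem_product, Ed1_mem_U, Ed1_mem_U] at he
  unfold Ed1_C
  rw [Finset.mem_filter, Finset.mem_product]
  refine ⟨⟨he.1.1.1, he.1.2.1⟩, he.1.1, he.1.2, he.2.1, ?_⟩
  intro r hr
  exact he.2.2 r ((Ed1_mem_U X c r).mpr hr)

lemma Ed1_sum (hArc : ArcStmt) (X : Finset ℂ) :
    ∑ c ∈ X, (Ed1_C X c).card ≤ (edg X).card := by
  classical
  obtain ⟨A1, A2⟩ := hArc
  rw [← Finset.card_biUnion]
  · apply Finset.card_le_card
    intro e he
    rw [Finset.mem_biUnion] at he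
    obtain ⟨c, hc, hec⟩ := he
    unfold Ed1_C at hec
    rw [Finset.mem_filter] at hec
    unfold edg
    rw [Finset.mem_filter]
    exact ⟨hec.1, c, hc, hec.2⟩
  · intro c _ c' _ hne
    show Disjoint (Ed1_C X c) (Ed1_C X c')
    rw [Finset.disjoint_left]
    intro e he he'
    unfold Ed1_C at he he'
    rw [Finset.mem_filter] at he he'
    have h := he.2
    have h' := he'.2
    have a1 := (A1 e.1 c).mp h.1.2
    have a2 := (A1 e.2 c).mp h.2.1.2
    have b1 := (A1 e.1 c').mp h'.1.2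
    have b2 := (A1 e.2 c').mp h'.2.1.2
    have := A2 c c' hne e.1.re e.2.re a1.1 b1.1 a2.1 b2.1 (a1.2.symm.trans b1.2)
      (a2.2.symm.trans b2.2)
    have h3 := h.2.2.1
    linarith

lemma Ed1_deg (X : Finset ℂ) : ∑ x ∈ X, deg X x ≤ 2 * ∑ c ∈ X, (Ed1_U X c).card := by
  classical
  have e1 : ∀ x ∈ X, deg X x = ∑ y ∈ X, (if dist x y = 1 then 1 else 0) := by
    intro x _
    unfold deg
    rw [← Finset.card_filter]
  have e2 : ∀ c ∈ X, (Ed1_U X c).card = ∑ y ∈ X, (if dist y c = 1 ∧ c.im ≤ y.im then 1 else 0) := by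
    intro c _
    rw [← Finset.card_filter]
    apply congrArg
    ext w
    rw [Ed1_mem_U]
    unfold OnArc
    simp only [Finset.mem_filter, Complex.dist_eq]
  rw [Finset.sum_congr rfl e1, Finset.sum_congr rfl e2, two_mul]
  have e3 : ∑ c ∈ X, ∑ y ∈ X, (if dist y c = 1 ∧ c.im ≤ y.im then 1 else 0)
      = ∑ c ∈ X, ∑ y ∈ X, (if dist y c = 1 ∧ y.im ≤ c.im then 1 else 0) := by
    rw [Finset.sum_comm]
    apply Finset.sum_congr rfl
    intro c _
    apply Finset.sum_congr rfl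
    intro y _
    rw [dist_comm]
  have e4 : ∑ x ∈ X, ∑ y ∈ X, (if dist x y = 1 then 1 else 0)
      ≤ ∑ c ∈ X, ∑ y ∈ X, (if dist y c = 1 ∧ c.im ≤ y.im then 1 else 0)
        + ∑ c ∈ X, ∑ y ∈ X, (if dist y c = 1 ∧ y.im ≤ c.im then 1 else 0) := by
    rw [← Finset.sum_add_distrib]
    apply Finset.sum_le_sum
    intro c _
    rw [← Finset.sum_add_distrib]
    apply Finset.sum_le_sum
    intro y _
    rw [dist_comm c y]
    by_cases h : dist y c = 1
    · rcases le_total c.im y.im with h2 | h2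
      · simp [h, h2]
      · simp [h, h2]
    · simp [h]
  calc _ ≤ _ := e4
    _ = _ := by rw [← e3]

theorem ed1Stmt : ArcStmt → CcStmt → Ed1Stmt := by
  intro hArc hCc X hX
  have h1 : ∑ c ∈ X, (Ed1_U X c).card ≤ (edg X).card + X.card := by
    calc ∑ c ∈ X, (Ed1_U X c).card ≤ ∑ c ∈ X, ((Ed1_C X c).card + 1) :=
          Finset.sum_le_sum fun c _ => Ed1_card hCc X hX c
      _ = ∑ c ∈ X, (Ed1_C X c).card + X.card := by
          rw [Finset.sum_add_distrib]
          simp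
      _ ≤ _ := Nat.add_le_add_right (Ed1_sum hArc X) _
  have h2 := Ed1_deg X
  have h3 : ∑ x ∈ X, deg X x ≤ 2 * (edg X).card + 2 * X.card := by omega
  exact_mod_cast h3

end Dadc30.Gap
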