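import Pool.Agent.Lib.MP_dadc30_coG.TorB

set_option linter.all false

/-!
# MP_dadc30_co, Theorem Q, module Ed2: crossing pairs of edges (helper78)
-/

open MeasureTheory Filter Topology
open scoped Real ComplexConjugate

namespace Dadc30.Gap

theorem Ed2_abs (hA : ArcStmt) {X : Finset ℂ} {c : ℂ} {e : ℂ × ℂ} (h : Cons X c e) {s : ℝ}
    (h1 : e.1.re ≤ s) (h2 : s ≤ e.2.re) : |s - c.re| ≤ 1 := by
  have h3 := ((hA.1 e.1 c).1 h.1.2).1
  have h4 := ((hA.1 e.2 c).1 h.2.1.2).1
  rw [abs_le] at h3 h4 ⊢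
  constructor
  · linarith [h3.1]
  · linarith [h4.2]

/-- two consecutive pairs on the same arc whose open intervals have a common point are equal -/
theorem Ed2_uniq {X : Finset ℂ} (hX : Gp X) {c : ℂ} {e g : ℂ × ℂ} (he : Cons X c e)
    (hg : Cons X c g) {s : ℝ} (h1 : e.1.re < s) (h2 : s < e.2.re) (h3 : g.1.re < s)
    (h4 : s < g.2.re) : e = g := by
  obtain ⟨e1, e2, _, e4⟩ := he
  obtain ⟨g1, g2, _, g4⟩ := hg
  have k1 : e.1 = g.1 := by
    refine hX.1 _ e1.1 _ g1.1 (le_antisymm ?_ ?_)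
    · by_contra h
      exact g4 e.1 e1 ⟨not_le.1 h, by linarith⟩
    · by_contra h
      exact e4 g.1 g1 ⟨not_le.1 h, by linarith⟩
  have k2 : e.2 = g.2 := by
    refine hX.1 _ e2.1 _ g2.1 (le_antisymm ?_ ?_)
    · by_contra h
      exact e4 g.2 g2 ⟨by linarith, not_le.1 h⟩
    · by_contra h
      exact g4 e.2 e2 ⟨by linarith, not_le.1 h⟩
  exact Prod.ext k1 k2

theorem Ed2_pairs (X : Finset ℂ) :
    2 * ((X ×ˢ X).filter fun p : ℂ × ℂ => p.1.re < p.2.re).card ≤ X.card * X.card := by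
  classical
  have h1 : ((X ×ˢ X).filter fun p : ℂ × ℂ => p.1.re < p.2.re).card ≤
      ((X ×ˢ X).filter fun p : ℂ × ℂ => p.2.re < p.1.re).card := by
    refine Finset.card_le_card_of_injOn Prod.swap ?_ Prod.swap_injective.injOn
    intro p hp
    rw [Finset.mem_coe, Finset.mem_filter, Finset.mem_product] at hp ⊢
    exact ⟨⟨hp.1.2, hp.1.1⟩, hp.2⟩
  have h2 : Disjoint ((X ×ˢ X).filter fun p : ℂ × ℂ => p.1.re < p.2.re)
      ((X ×ˢ X).filter fun p : ℂ × ℂ => p.2.re < p.1.re) := by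
    rw [Finset.disjoint_left]
    intro p hp hq
    rw [Finset.mem_filter] at hp hq
    exact lt_asymm hp.2 hq.2
  have h3 : (((X ×ˢ X).filter fun p : ℂ × ℂ => p.1.re < p.2.re) ∪
      ((X ×ˢ X).filter fun p : ℂ × ℂ => p.2.re < p.1.re)).card ≤ (X ×ˢ X).card :=
    Finset.card_le_card (Finset.union_subset (Finset.filter_subset _ _) (Finset.filter_subset _ _))
  rw [Finset.card_union_of_disjoint h2, Finset.card_product] at h3
  omega

theorem ed2Stmt (hA : ArcStmt) : Ed2Stmt := by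
  classical
  intro X hX
  have hmem : ∀ q ∈ crs X, ∃ c ∈ X, ∃ c' ∈ X, c.re < c'.re ∧ Cons X c q.1 ∧
      Cons X c' q.2 ∧ ∃ s, q.1.1.re < s ∧ s < q.1.2.re ∧ q.2.1.re < s ∧ s < q.2.2.re ∧
      arc c s = arc c' s := by
    intro q hq
    unfold crs at hq
    rw [Finset.mem_filter] at hq
    exact hq.2
  refine ⟨?_, ?_⟩
  · choose! c hc c' hc' hlt hq1 hq2 s hs1 hs2 hs3 hs4 hs5 using hmem
    have h1 : (crs X).card ≤ ((X ×ˢ X).filter fun p : ℂ × ℂ => p.1.re < p.2.re).card := by
      refine Finset.card_le_card_of_injOn (fun q => (c q, c' q)) ?_ ?_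
      · intro q hq
        rw [Finset.mem_coe] at hq
        rw [Finset.mem_coe, Finset.mem_filter, Finset.mem_product]
        exact ⟨⟨hc q hq, hc' q hq⟩, hlt q hq⟩
      · intro q hq g hg hqg
        rw [Finset.mem_coe] at hq hg
        have k1 : c q = c g := congrArg Prod.fst hqg
        have k2 : c' q = c' g := congrArg Prod.snd hqg
        have a1 := hq1 q hq
        have a2 := hq2 q hq
        have b1 := hq1 g hg
        have b2 := hq2 g hg
        have a3 := hs5 q hq
        have b3 := hs5 g hg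
        rw [← k1] at b1
        rw [← k2] at b2
        rw [← k1, ← k2] at b3
        have hne : c q ≠ c' q := by
          intro h
          have := hlt q hq
          rw [h] at this
          exact lt_irrefl _ this
        have hss : s q = s g := hA.2 (c q) (c' q) hne (s q) (s g)
          (Ed2_abs hA a1 (hs1 q hq).le (hs2 q hq).le) (Ed2_abs hA a2 (hs3 q hq).le (hs4 q hq).le)
          (Ed2_abs hA b1 (hs1 g hg).le (hs2 g hg).le) (Ed2_abs hA b2 (hs3 g hg).le (hs4 g hg).le)
          a3 b3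
        have c1 := hs1 g hg
        have c2 := hs2 g hg
        have c3 := hs3 g hg
        have c4 := hs4 g hg
        rw [← hss] at c1 c2 c3 c4
        exact Prod.ext (Ed2_uniq hX a1 b1 (hs1 q hq) (hs2 q hq) c1 c2)
          (Ed2_uniq hX a2 b2 (hs3 q hq) (hs4 q hq) c3 c4)
    have h2 : 2 * (crs X).card ≤ X.card * X.card := by
      have := Ed2_pairs X
      omega
    rw [sq]
    exact_mod_cast h2
  · intro q hq
    obtain ⟨c, hc, c', hc', hlt, h1, h2, s, s1, s2, s3, s4, s5⟩ := hmem q hq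
    have hne : c ≠ c' := by
      intro h
      rw [h] at hlt
      exact lt_irrefl _ hlt
    have a1 := (hA.1 q.1.1 c).1 h1.1.2
    have a2 := (hA.1 q.1.2 c).1 h1.2.1.2
    have b1 := (hA.1 q.2.1 c').1 h2.1.2
    have b2 := (hA.1 q.2.2 c').1 h2.2.1.2
    have g1 := Ed2_abs hA h1 s1.le s2.le
    have g2 := Ed2_abs hA h2 s3.le s4.le
    refine ⟨?_, ?_, ?_, ?_⟩
    · intro h
      rw [← h] at b1
      have := hA.2 c c' hne s q.1.1.re g1 g2 a1.1 b1.1 s5 (a1.2.symm.trans b1.2)
      linarith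
    · intro h
      rw [h] at s1
      linarith
    · intro h
      rw [h] at s2
      linarith
    · intro h
      rw [← h] at b2
      have := hA.2 c c' hne s q.1.2.re g1 g2 a2.1 b2.1 s5 (a2.2.symm.trans b2.2)
      linarith

end Dadc30.Gap
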