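import Pool.Agent.Lib.MP_dadc30_coG.TorB

set_option linter.all false
set_option autoImplicit false

namespace Dadc30.Gap

open scoped Real

lemma Ed3_cont (c : ℂ) : Continuous (arc c) := by
  unfold arc
  fun_prop

theorem ed3Stmt : ArcStmt → PlStmt → Ed3Stmt := by
  classical
  intro hArc hPl X hX W hW
  obtain ⟨A1, A2⟩ := hArc
  set EW := (edg X).filter fun e => e.1 ∈ W ∧ e.2 ∈ W with hEW
  set CW := (crs X).filter fun q => q.1.1 ∈ W ∧ q.1.2 ∈ W ∧ q.2.1 ∈ W ∧ q.2.2 ∈ W with hCW
  set E' := EW \ CW.image (fun q => q.1) with hE'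
  -- centres
  have hcen : ∀ e : ℂ × ℂ, ∃ c : ℂ, e ∈ edg X → c ∈ X ∧ Cons X c e := by
    intro e
    by_cases he : e ∈ edg X
    · have h1 := he
      unfold edg at h1
      rw [Finset.mem_filter] at h1
      obtain ⟨c, hc, hcc⟩ := h1.2
      exact ⟨c, fun _ => ⟨hc, hcc⟩⟩
    · exact ⟨0, fun h => absurd h he⟩
  choose cen hcen using hcen
  have hmem : ∀ e ∈ E', e ∈ edg X ∧ e.1 ∈ W ∧ e.2 ∈ W ∧ e ∉ CW.image (fun q => q.1) := by
    intro e he
    rw [hE', Finset.mem_sdiff, hEW, Finset.mem_filter] at he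
    exact ⟨he.1.1, he.1.2.1, he.1.2.2, he.2⟩
  -- points on arcs
  have hbetween : ∀ e ∈ E', ∀ s : ℝ, e.1.re < s → s < e.2.re → |s - (cen e).re| ≤ 1 := by
    intro e he s h1 h2
    obtain ⟨he1, _⟩ := hmem e he
    obtain ⟨hc, hcons⟩ := hcen e he1
    have b1 := ((A1 e.1 (cen e)).mp hcons.1.2).1
    have b2 := ((A1 e.2 (cen e)).mp hcons.2.1.2).1
    rw [abs_le] at b1 b2 ⊢
    constructor <;> linarith [b1.1, b1.2, b2.1, b2.2]
  have hD : Drawing W E' (fun e => arc (cen e)) := by
    constructor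
    · intro v hv w hw h
      exact hX.1 v (hW hv) w (hW hw) h
    · intro e he
      obtain ⟨he1, he2, he3, _⟩ := hmem e he
      exact ⟨he2, he3, (hcen e he1).2.2.2.1⟩
    · intro e he
      exact (Ed3_cont _).continuousOn
    · intro e he
      obtain ⟨he1, _⟩ := hmem e he
      exact ((A1 e.1 (cen e)).mp (hcen e he1).2.1.2).2.symm
    · intro e he
      obtain ⟨he1, _⟩ := hmem e he
      exact ((A1 e.2 (cen e)).mp (hcen e he1).2.2.1.2).2.symm
    · intro e he v hv h1 h2 h3
      obtain ⟨he1, _⟩ := hmem e he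
      have hon : OnArc X (cen e) v := ⟨hW hv, (A1 v (cen e)).mpr ⟨hbetween e he v.re h1 h2, h3.symm⟩⟩
      exact (hcen e he1).2.2.2.2 v hon ⟨h1, h2⟩
    · intro e he e' he' hne s h1 h2 h3 h4 heq
      obtain ⟨he1, he2, he3, he4⟩ := hmem e he
      obtain ⟨he1', he2', he3', he4'⟩ := hmem e' he'
      obtain ⟨hc, hcons⟩ := hcen e he1
      obtain ⟨hc', hcons'⟩ := hcen e' he1'
      by_cases hcc : cen e = cen e'
      · rw [← hcc] at hcons'
        apply hne
        have r1 : e.1.re = e'.1.re := by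
          rcases lt_trichotomy e.1.re e'.1.re with h | h | h
          · exact absurd ⟨h, h3.trans h2⟩ (hcons.2.2.2 e'.1 hcons'.1)
          · exact h
          · exact absurd ⟨h, h1.trans h4⟩ (hcons'.2.2.2 e.1 hcons.1)
        have r2 : e.2.re = e'.2.re := by
          rcases lt_trichotomy e.2.re e'.2.re with h | h | h
          · exact absurd ⟨h3.trans h2, h⟩ (hcons'.2.2.2 e.2 hcons.2.1)
          · exact h
          · exact absurd ⟨h1.trans h4, h⟩ (hcons.2.2.2 e'.2 hcons'.2.1)
        exact Prod.ext (hX.1 _ (hW he2) _ (hW he2') r1) (hX.1 _ (hW he3) _ (hW he3') r2)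
      · have hre : (cen e).re ≠ (cen e').re := fun h => hcc (hX.1 _ hc _ hc' h)
        rcases lt_or_gt_of_ne hre with h | h
        · apply he4
          rw [Finset.mem_image]
          refine ⟨(e, e'), ?_, rfl⟩
          rw [hCW, Finset.mem_filter]
          refine ⟨?_, he2, he3, he2', he3'⟩
          unfold crs
          rw [Finset.mem_filter, Finset.mem_product]
          exact ⟨⟨he1, he1'⟩, cen e, hc, cen e', hc', h, hcons, hcons', s, h1, h2, h3, h4, heq⟩
        · apply he4'
          rw [Finset.mem_image]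
          refine ⟨(e', e), ?_, rfl⟩
          rw [hCW, Finset.mem_filter]
          refine ⟨?_, he2', he3', he2, he3⟩
          unfold crs
          rw [Finset.mem_filter, Finset.mem_product]
          exact ⟨⟨he1', he1⟩, cen e', hc', cen e, hc, h, hcons', hcons, s, h3, h4, h1, h2, heq.symm⟩
  have h1 := hPl W E' _ hD
  have h2 : EW.card ≤ E'.card + CW.card := by
    have h3 : EW.card - (CW.image fun q => q.1).card ≤ E'.card := by
      rw [hE']
      exact Finset.le_card_sdiff _ _
    have h4 : (CW.image fun q => q.1).card ≤ CW.card := Finset.card_image_le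
    omega
  calc EW.card ≤ E'.card + CW.card := h2
    _ ≤ 3 * W.card + CW.card := by omega

end Dadc30.Gap
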