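import Pool.Agent.Lib.MP_dadc30_coG.TorB

set_option linter.all false

/-!
# MP_dadc30_co, Theorem Q, module Err: the error term
-/

open MeasureTheory Filter Topology
open scoped Real ComplexConjugate

namespace Dadc30.Gap

theorem Err_log {n : ℝ} (hn : 2 ≤ n) :
    Real.log (10 * n ^ ((1 : ℝ) / 3) + 1) ≤ 5 * Real.log n := by
  have hq1 : 1 ≤ n ^ ((1 : ℝ) / 3) := Real.one_le_rpow (by linarith) (by norm_num)
  have hq2 : n ^ ((1 : ℝ) / 3) ≤ n := by
    conv_rhs => rw [← Real.rpow_one n]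
    exact Real.rpow_le_rpow_of_exponent_le (by linarith) (by norm_num)
  have h4 : (16 : ℝ) ≤ n ^ 4 := by
    have := pow_le_pow_left₀ (by norm_num : (0 : ℝ) ≤ 2) hn 4
    linarith
  have h5 : 10 * n ^ ((1 : ℝ) / 3) + 1 ≤ n ^ 5 := by
    have e : n ^ 5 = n ^ 4 * n := by ring
    rw [e]
    nlinarith
  calc Real.log (10 * n ^ ((1 : ℝ) / 3) + 1) ≤ Real.log (n ^ 5) :=
        Real.log_le_log (by linarith) h5
    _ = 5 * Real.log n := by
        rw [Real.log_pow]
        norm_num

/-- MODULE Err. -/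
theorem errStmt : DegStmt → SstStmt → ErrStmt := by
  classical
  rintro ⟨κ, hκ, h⟩ hs
  refine ⟨κ / 500, by positivity, ?_⟩
  intro n hn
  have hn2 : (2 : ℝ) ≤ (n : ℝ) := by exact_mod_cast hn
  obtain ⟨P, hP, hPa⟩ := FinTransfer_f n
  set f := FinTransfer_e.symm.toEquiv.toEmbedding with hf
  have hfa : ∀ x, f x = FinTransfer_e.symm x := fun x => rfl
  set q : ℝ := (n : ℝ) ^ ((1 : ℝ) / 3) with hq
  have hq1 : 1 ≤ q := Real.one_le_rpow (by linarith) (by norm_num)
  have hq3 : q ^ 3 = n := by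
    rw [hq, ← Real.rpow_natCast, ← Real.rpow_mul (by linarith)]
    norm_num
  have hq4 : (n : ℝ) ^ ((4 : ℝ) / 3) = q ^ 4 := by
    rw [hq, ← Real.rpow_natCast, ← Real.rpow_mul (by linarith)]
    norm_num
  have hcard : (P.map f).card = n := by rw [Finset.card_map, hP]
  obtain ⟨S, hS, hav, hle⟩ := h (P.map f) (fun _ => 1) (fun _ => zero_le_one) (10 * q)
    (by linarith) (by
      simp only [one_mul, Finset.sum_const, nsmul_eq_mul, mul_one]
      rw [hcard]
      refine (hs (P.map f)).trans (le_of_eq ?_)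
      rw [hcard, hq4, ← hq3]
      ring)
  simp only [Finset.sum_const, nsmul_eq_mul, mul_one] at hle
  rw [hcard] at hle
  have hSP : S.map FinTransfer_e.toEquiv.toEmbedding ⊆ P := by
    intro x hx
    rw [Finset.mem_map] at hx
    obtain ⟨z, hz, rfl⟩ := hx
    have h1 := hS hz
    rw [Finset.mem_map] at h1
    obtain ⟨y, hy, hyz⟩ := h1
    have h2 : FinTransfer_e z = y := by
      rw [← hyz, hfa, LinearIsometryEquiv.apply_symm_apply]
    change FinTransfer_e z ∈ P
    rw [h2]
    exact hy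
  have hSa : ∀ x ∈ S.map FinTransfer_e.toEquiv.toEmbedding,
      ∀ y ∈ S.map FinTransfer_e.toEquiv.toEmbedding, dist x y ≠ 1 := by
    intro x hx y hy
    rw [Finset.mem_map] at hx hy
    obtain ⟨z, hz, rfl⟩ := hx
    obtain ⟨z', hz', rfl⟩ := hy
    change dist (FinTransfer_e z) (FinTransfer_e z') ≠ 1
    rw [FinTransfer_e.dist_map]
    exact hav z hz z' hz'
  have hc := FinTransfer_le_alpha hSP hSa
  rw [Finset.card_map, hPa] at hc
  have hc' : (S.card : ℝ) ≤ (fE n : ℝ) := by exact_mod_cast hc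
  refine le_trans ?_ (hle.trans hc')
  rw [m1_eq_m1C, add_mul]
  refine add_le_add le_rfl ?_
  have hL := Err_log hn2
  rw [← hq] at hL
  have hL0 : 0 < Real.log (10 * q + 1) := Real.log_pos (by linarith)
  have hn0 : 0 < Real.log (n : ℝ) := Real.log_pos (by linarith)
  have hq0 : 0 < q := by linarith
  rw [show κ / ((10 * q) ^ 2 * Real.log (10 * q + 1)) * (n : ℝ) =
    κ * q / (100 * Real.log (10 * q + 1)) from by
      rw [← hq3]
      field_simp
      ring]
  rw [show κ / 500 * (q / Real.log (n : ℝ)) = κ * q / (100 * (5 * Real.log (n : ℝ))) from by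
      field_simp
      norm_num]
  gcongr

end Dadc30.Gap
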