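import Pool.Agent.Lib.MP_dadc30_coG.TorB

set_option linter.all false
set_option autoImplicit false

namespace Dadc30.Gap

open scoped Real

lemma Gen_polar (z : ℂ) (θ : ℝ) : (uu θ * z).re = ‖z‖ * Real.cos (θ + Complex.arg z) ∧
    (uu θ * z).im = ‖z‖ * Real.sin (θ + Complex.arg z) := by
  have h : uu θ * z = (‖z‖ : ℂ) * Complex.exp (((θ + Complex.arg z : ℝ) : ℂ) * Complex.I) := by
    unfold uu
    conv_lhs => rw [← Complex.norm_mul_exp_arg_mul_I z]
    push_cast
    rw [add_mul, Complex.exp_add]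
    ring
  rw [h]
  constructor
  · rw [Complex.re_ofReal_mul, Complex.exp_ofReal_mul_I_re]
  · rw [Complex.im_ofReal_mul, Complex.exp_ofReal_mul_I_im]

lemma Gen_countable (z : ℂ) (hz : z ≠ 0) :
    {θ : ℝ | (uu θ * z).re = 0 ∨ (uu θ * z).im = 0}.Countable := by
  have hn : ‖z‖ ≠ 0 := norm_ne_zero_iff.mpr hz
  apply Set.Countable.mono (s₂ := (Set.range fun k : ℤ => (2 * (k : ℝ) + 1) * π / 2 - Complex.arg z) ∪
    (Set.range fun k : ℤ => (k : ℝ) * π - Complex.arg z))
  · intro θ hθ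
    obtain ⟨h1, h2⟩ := Gen_polar z θ
    rcases hθ with h | h
    · left
      rw [h1] at h
      rcases mul_eq_zero.mp h with h3 | h3
      · exact absurd h3 hn
      · obtain ⟨k, hk⟩ := Real.cos_eq_zero_iff.mp h3
        exact ⟨k, by show (2 * (k : ℝ) + 1) * π / 2 - Complex.arg z = θ; linarith⟩
    · right
      rw [h2] at h
      rcases mul_eq_zero.mp h with h3 | h3
      · exact absurd h3 hn
      · obtain ⟨k, hk⟩ := Real.sin_eq_zero_iff.mp h3
        exact ⟨k, by show (k : ℝ) * π - Complex.arg z = θ; linarith⟩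
  · exact (Set.countable_range _).union (Set.countable_range _)

lemma Gen_deg (X : Finset ℂ) (u : ℂ) (hu : ‖u‖ = 1) (x : ℂ) [DecidableEq ℂ] :
    deg (X.image fun y => u * y) (u * x) = deg X x := by
  classical
  have hu0 : u ≠ 0 := by
    intro h
    rw [h] at hu
    simp at hu
  have hinj : Function.Injective fun y : ℂ => u * y := fun a b h => mul_left_cancel₀ hu0 h
  have hd : ∀ y : ℂ, dist (u * x) (u * y) = dist x y := by
    intro y
    rw [Complex.dist_eq, Complex.dist_eq, ← mul_sub, norm_mul, hu, one_mul]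
  unfold deg
  refine Eq.trans ?_ (Finset.card_image_of_injective _ hinj)
  apply congrArg
  ext w
  simp only [Finset.mem_filter, Finset.mem_image]
  constructor
  · rintro ⟨⟨y, hy, rfl⟩, h⟩
    rw [hd] at h
    exact ⟨y, ⟨hy, h⟩, rfl⟩
  · rintro ⟨y, ⟨hy, h⟩, rfl⟩
    exact ⟨⟨y, hy, rfl⟩, by rw [hd]; exact h⟩

theorem genStmt : GenStmt := by
  classical
  intro X
  have hc : (⋃ q ∈ ((X ×ˢ X).filter fun q => q.1 ≠ q.2 : Finset (ℂ × ℂ)),
      {θ : ℝ | (uu θ * (q.1 - q.2)).re = 0 ∨ (uu θ * (q.1 - q.2)).im = 0}).Countable := by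
    apply Set.Countable.biUnion (Finset.countable_toSet _)
    intro q hq
    apply Gen_countable
    rw [Finset.mem_coe, Finset.mem_filter] at hq
    exact sub_ne_zero.mpr hq.2
  have hne : ∃ θ : ℝ, θ ∉ (⋃ q ∈ ((X ×ˢ X).filter fun q => q.1 ≠ q.2 : Finset (ℂ × ℂ)),
      {θ : ℝ | (uu θ * (q.1 - q.2)).re = 0 ∨ (uu θ * (q.1 - q.2)).im = 0}) := by
    by_contra hcon
    push Not at hcon
    have : (Set.univ : Set ℝ).Countable := hc.mono fun θ _ => hcon θ
    exact Cardinal.not_countable_real this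
  obtain ⟨θ, hθ⟩ := hne
  have hgood : ∀ v ∈ X, ∀ w ∈ X, v ≠ w → (uu θ * (v - w)).re ≠ 0 ∧ (uu θ * (v - w)).im ≠ 0 := by
    intro v hv w hw hvw
    by_contra hcon
    apply hθ
    rw [Set.mem_iUnion₂]
    refine ⟨(v, w), ?_, ?_⟩
    · rw [Finset.mem_filter, Finset.mem_product]
      exact ⟨⟨hv, hw⟩, hvw⟩
    · show (uu θ * (v - w)).re = 0 ∨ (uu θ * (v - w)).im = 0
      by_contra h
      push Not at h
      exact hcon h
  have hu : ‖uu θ‖ = 1 := by
    unfold uu
    exact Complex.norm_exp_ofReal_mul_I θ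
  have hu0 : uu θ ≠ 0 := by
    intro h
    rw [h] at hu
    simp at hu
  have hinj : Function.Injective fun y : ℂ => uu θ * y := fun a b h => mul_left_cancel₀ hu0 h
  refine ⟨X.image fun y => uu θ * y, ⟨?_, ?_⟩, Finset.card_image_of_injective _ hinj, ?_⟩
  · intro v hv w hw h
    obtain ⟨v', hv', rfl⟩ := Finset.mem_image.mp hv
    obtain ⟨w', hw', rfl⟩ := Finset.mem_image.mp hw
    by_contra hne
    have hne' : v' ≠ w' := fun h => hne (by rw [h])
    apply (hgood v' hv' w' hw' hne').1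
    rw [mul_sub, Complex.sub_re]
    linarith
  · intro v hv w hw h
    obtain ⟨v', hv', rfl⟩ := Finset.mem_image.mp hv
    obtain ⟨w', hw', rfl⟩ := Finset.mem_image.mp hw
    by_contra hne
    have hne' : v' ≠ w' := fun h => hne (by rw [h])
    apply (hgood v' hv' w' hw' hne').2
    rw [mul_sub, Complex.sub_im]
    linarith
  · rw [Finset.sum_image (fun a _ b _ h => hinj h)]
    apply Finset.sum_congr rfl
    intro x _
    rw [Gen_deg X (uu θ) hu x]

end Dadc30.Gap
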