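import Pool.Agent.Lib.MP_dadc30_coG.TorB

set_option linter.all false

/-!
# MP_dadc30_co, Theorem Q, module GoodM
-/

open MeasureTheory Filter Topology
open scoped Real ComplexConjugate

namespace Dadc30.Gap

theorem goodStmt : CorStmt → SpeStmt → CntStmt → CSStmt → GoodStmt := by
  intro hCor hSpe hCnt hCS T B hB hU
  obtain ⟨h0, h1, h2, h3, h4, h5, h6⟩ := hCor T B hB
  obtain ⟨a, ξ, hs⟩ := hSpe T B hB
  exact ⟨hCnt _ a ξ hs, h1, h2, h6 hU, h5, hCS T B hB hU, ⟨a, ξ, hs⟩⟩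

end Dadc30.Gap
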