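import Pool.Agent.Lib.MP_dadc30_coG.TorB

set_option linter.all false

/-!
# MP_dadc30_co, Theorem Q, module Hsc: averages of series
-/

open MeasureTheory Filter Topology
open scoped Real ComplexConjugate

namespace Dadc30.Gap

theorem hscStmt : HscStmt := by
  intro a g G ha hs hg hb hG
  have key : HasSum (fun k => ∫ φ in (0 : ℝ)..(2 * π), a k * g k φ) (∫ φ in (0 : ℝ)..(2 * π), G φ) := by
    refine intervalIntegral.hasSum_integral_of_dominated_convergence (fun k _ => a k)
      (fun k => ((hg k).const_mul (a k)).aestronglyMeasurable) ?_ ?_ ?_ ?_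
    · intro k
      refine Filter.Eventually.of_forall fun φ _ => ?_
      rw [Real.norm_eq_abs, abs_mul, abs_of_nonneg (ha k)]
      exact mul_le_of_le_one_right (ha k) (hb k φ)
    · exact Filter.Eventually.of_forall fun φ _ => hs
    · exact intervalIntegrable_const
    · exact Filter.Eventually.of_forall fun φ _ => hG φ
  have h2 := key.mul_left (2 * π)⁻¹
  have e : (fun k => a k * cavg (g k)) =
      fun k => (2 * π)⁻¹ * ∫ φ in (0 : ℝ)..(2 * π), a k * g k φ := by
    funext k
    rw [intervalIntegral.integral_const_mul, cavg]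
    ring
  rw [e]
  exact h2

end Dadc30.Gap
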