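import Pool.Agent.Lib.MP_dadc30_coG.TorB

set_option linter.all false

/-!
# MP_dadc30_co, Theorem Q, module Lg: calculus
-/

open MeasureTheory Filter Topology
open scoped Real ComplexConjugate

namespace Dadc30.Gap

theorem lgStmt : LgStmt := by
  refine ⟨2 * 2 ^ 14, by norm_num, fun D hD => ?_⟩
  have hl2 : 0.6931471803 < Real.log 2 := Real.log_two_gt_d9
  set L := Real.log (D + 1) with hL
  have hLl : Real.log 2 ≤ L := Real.log_le_log (by norm_num) (by linarith)
  have hL0 : 0 < L := by linarith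
  have hD2 : 1 ≤ D ^ 2 := one_le_pow₀ hD
  have hDL : L ≤ D ^ 2 * L := le_mul_of_one_le_left hL0.le hD2
  have hy : (1 : ℝ) ≤ 2 ^ 14 * (D ^ 2 * L) := by nlinarith
  obtain ⟨n, hn1, hn2⟩ := exists_nat_pow_near hy (by norm_num : (1 : ℝ) < 2)
  have hLD : L ≤ D + 1 := (Real.log_le_sub_one_of_pos (by linarith)).trans (by linarith)
  have h1 : (n : ℝ) * Real.log 2 ≤ 14 * Real.log 2 + 3 * L := by
    have h2 : (2 : ℝ) ^ n ≤ 2 ^ 14 * (D + 1) ^ 3 := by
      refine hn1.trans (mul_le_mul_of_nonneg_left ?_ (by positivity))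
      have h5 : D ^ 2 ≤ (D + 1) ^ 2 := pow_le_pow_left₀ (by linarith) (by linarith) 2
      calc D ^ 2 * L ≤ (D + 1) ^ 2 * (D + 1) := mul_le_mul h5 hLD hL0.le (by positivity)
        _ = (D + 1) ^ 3 := by ring
    have h3 := Real.log_le_log (by positivity) h2
    have hD1 : (0 : ℝ) < (D + 1) ^ 3 := by positivity
    rw [Real.log_pow, Real.log_mul (by positivity) hD1.ne', Real.log_pow, Real.log_pow] at h3
    push_cast at h3
    linarith
  refine ⟨n + 1, ?_, ?_⟩
  · refine le_trans ?_ hn2.le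
    push_cast
    have h6 : (15 + 70 * ((n : ℝ) + 1)) * Real.log 2 ≤ 1275 * L := by nlinarith
    have h7 : (15 + 70 * ((n : ℝ) + 1)) * (1 / 2) ≤ 1275 * L := by
      refine le_trans ?_ h6
      exact mul_le_mul_of_nonneg_left (by linarith) (by positivity)
    nlinarith
  · rw [pow_succ]
    linarith

end Dadc30.Gap
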