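import Pool.Agent.Lib.MP_dadc30_coG.TorB

set_option linter.all false

/-!
# MP_dadc30_co, Theorem Q, module PB: the averages of `pF`
-/

open MeasureTheory Filter Topology
open scoped Real ComplexConjugate

namespace Dadc30.Gap

/-- the autocorrelation is even -/
theorem PB_even {F : ℂ → ℝ} (h : Good F) (w : ℂ) : F (-w) = F w := by
  obtain ⟨a, ξ, -, hs⟩ := h.spc
  have h1 := hs (-w)
  have h2 := hs w
  have h3 : (fun k => a k * Real.cos (ip (ξ k) (-w))) = fun k => a k * Real.cos (ip (ξ k) w) := by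
    funext k
    have : ip (ξ k) (-w) = -ip (ξ k) w := by
      simp only [ip, Complex.neg_re, Complex.neg_im]
      ring
    rw [this, Real.cos_neg]
  rw [h3] at h1
  exact h1.unique h2

theorem PB_dF_nonneg {F : ℂ → ℝ} (h : Good F) (v : ℂ) : 0 ≤ dF F v := by
  unfold dF
  linarith [h.le v]

/-- a zero of `dF` is a period -/
theorem PB_period {F : ℂ → ℝ} (h : Good F) {v : ℂ} (hv : dF F v = 0) (x : ℂ) :
    F (x - v) = F x := by
  have hv' : dF F (-v) = 0 := by
    unfold dF at hv ⊢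
    rw [PB_even h]
    exact hv
  have h1 := h.tri x (-v)
  have h2 := h.tri (x - v) v
  rw [hv', ← sub_eq_add_neg] at h1
  rw [hv, sub_add_cancel] at h2
  unfold dF at h1 h2
  linarith

theorem PB_qF_nonneg {F : ℂ → ℝ} (h : Good F) (v : ℂ) : 0 ≤ qF F v := by
  rcases (PB_dF_nonneg h v).eq_or_lt with h0 | h0
  · have h1 := PB_period h h0.symm
    unfold qF
    refine mul_nonneg (by norm_num) ?_
    refine cavg_nonneg fun φ => cavg_nonneg fun ψ => ?_
    rw [h1]
    linarith
  · have h1 := h.cs v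
    by_contra hq
    push Not at hq
    have h2 : 0 ≤ pF F v ^ 2 := sq_nonneg _
    nlinarith [mul_neg_of_pos_of_neg h0 hq]

theorem PB_pF_nonneg {F : ℂ → ℝ} (h : Good F) (v : ℂ) : 0 ≤ pF F v :=
  cavg_nonneg fun _ => h.nonneg _

/-- the pointwise inequality -/
theorem PB_point {F : ℂ → ℝ} (h : Good F) {l : ℝ} (hl : 0 < l) (v : ℂ) :
    2 * pF F v ≤ l * dF F v + l⁻¹ * qF F v := by
  have h1 := h.cs v
  have h2 := PB_dF_nonneg h v
  have h3 := PB_qF_nonneg h v
  have h5 : 0 ≤ l⁻¹ := (inv_pos.mpr hl).le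
  have h6 : l * l⁻¹ = 1 := mul_inv_cancel₀ hl.ne'
  refine abs_le_of_sq_le_sq' ?_ (by positivity) |>.2
  have h7 : (l * dF F v + l⁻¹ * qF F v) ^ 2 = (l * dF F v - l⁻¹ * qF F v) ^ 2
      + 4 * (l * l⁻¹) * (dF F v * qF F v) := by ring
  rw [h7, h6]
  nlinarith [sq_nonneg (l * dF F v - l⁻¹ * qF F v)]

theorem PB_cont_p {F : ℂ → ℝ} (h : Good F) (t : ℝ) : Continuous fun ω : ℝ => pF F (t * uu ω) := by
  have hu := continuous_uu
  have hF := h.cont
  unfold pF
  apply continuous_cavg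
  exact hF.comp ((hu.comp continuous_snd).sub (continuous_const.mul (hu.comp continuous_fst)))

theorem PB_cont_d {F : ℂ → ℝ} (h : Good F) (t : ℝ) : Continuous fun ω : ℝ => dF F (t * uu ω) := by
  have hu := continuous_uu
  have hF := h.cont
  unfold dF
  exact continuous_const.sub (hF.comp (continuous_const.mul hu))

theorem PB_cont_q {F : ℂ → ℝ} (h : Good F) (t : ℝ) : Continuous fun ω : ℝ => qF F (t * uu ω) := by
  have hu := continuous_uu
  have hF := h.cont
  unfold qF
  refine continuous_const.mul ?_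
  apply continuous_cavg
  have h1 : Continuous fun p : ℝ × ℝ =>
      cavg fun ψ => F (uu p.2 - uu ψ) - F (uu p.2 - uu ψ - t * uu p.1) := by
    apply continuous_cavg
    have e1 : Continuous fun z : (ℝ × ℝ) × ℝ => uu z.1.2 - uu z.2 :=
      (hu.comp (continuous_snd.comp continuous_fst)).sub (hu.comp continuous_snd)
    have e2 : Continuous fun z : (ℝ × ℝ) × ℝ => (t : ℂ) * uu z.1.1 :=
      continuous_const.mul (hu.comp (continuous_fst.comp continuous_fst))
    exact (hF.comp e1).sub (hF.comp (e1.sub e2))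
  exact h1

/-- MODULE PB -/
theorem pbStmt : QBStmt → DblStmt → PBStmt := by
  intro hQ _ F h K
  set t : ℝ := (1 / 2) ^ K with ht
  have ht0 : 0 < t := by positivity
  have hP0 : 0 ≤ PF F t := cavg_nonneg fun _ => PB_pF_nonneg h _
  have hD0 : 0 ≤ DF F t := cavg_nonneg fun _ => PB_dF_nonneg h _
  refine ⟨hP0, ?_⟩
  set c : ℝ := (15 + 70 * K) * t with hc
  have hc0 : 0 < c := by positivity
  have hl : 0 < √c := Real.sqrt_pos.mpr hc0
  have hlc : √c * √c = c := Real.mul_self_sqrt hc0.le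
  have h1 : 2 * PF F t ≤ √c * DF F t + (√c)⁻¹ * QF F t := by
    have c1 : Continuous fun ω : ℝ => √c * dF F (t * uu ω) :=
      continuous_const.mul (PB_cont_d h t)
    have c2 : Continuous fun ω : ℝ => (√c)⁻¹ * qF F (t * uu ω) :=
      continuous_const.mul (PB_cont_q h t)
    have c3 : Continuous fun ω : ℝ => √c * dF F (t * uu ω) + (√c)⁻¹ * qF F (t * uu ω) :=
      c1.add c2
    have c4 : Continuous fun ω : ℝ => 2 * pF F (t * uu ω) :=
      continuous_const.mul (PB_cont_p h t)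
    have c5 := cavg_mono c4 c3 fun ω => PB_point h hl _
    rw [cavg_add c1 c2, cavg_mul, cavg_mul, cavg_mul] at c5
    exact c5
  have h2 : QF F t ≤ c * DF F t := hQ F h K
  have h3 : (√c)⁻¹ * QF F t ≤ √c * DF F t := by
    calc (√c)⁻¹ * QF F t ≤ (√c)⁻¹ * (c * DF F t) :=
          mul_le_mul_of_nonneg_left h2 (inv_pos.mpr hl).le
      _ = (√c)⁻¹ * (√c * √c * DF F t) := by rw [hlc]
      _ = √c * DF F t := by field_simp
  have h4 : PF F t ≤ √c * DF F t := by linarith
  calc PF F t ^ 2 ≤ (√c * DF F t) ^ 2 := pow_le_pow_left₀ hP0 h4 2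
    _ = (√c * √c) * DF F t ^ 2 := by ring
    _ = c * DF F t ^ 2 := by rw [hlc]

end Dadc30.Gap
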