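import Pool.Agent.Lib.MP_dadc30_coG.TorB

set_option autoImplicit false

/-!
# MP_dadc30_co, package G, module Pl: a drawing without crossings has at most `3 |V|` edges
-/

open MeasureTheory Filter Topology
open scoped Real

namespace Dadc30.Gap

theorem Pl_contLeft {F : ℝ → ℝ} {a b x : ℝ} (hF : ContinuousOn F (Set.Icc a b)) (h1 : a < x)
    (h2 : x ≤ b) : Tendsto F (𝓝[<] x) (𝓝 (F x)) := by
  have h3 : ContinuousWithinAt F (Set.Icc a b) x := hF x ⟨h1.le, h2⟩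
  refine (h3.mono_left ?_ : Tendsto F (𝓝[<] x) (𝓝 (F x)))
  refine nhdsWithin_le_iff.2 ?_
  filter_upwards [Ioo_mem_nhdsLT h1] with s hs
  exact ⟨hs.1.le, hs.2.le.trans h2⟩

theorem Pl_key {V : Finset ℂ} {E : Finset (ℂ × ℂ)} {f : ℂ × ℂ → ℝ → ℝ} (hD : Drawing V E f)
    {e g e' : ℂ × ℂ} {v : ℂ} (hg : g ∈ E) (hW : e' ∈ E) (hW1 : e'.1 = e.1)
    (hv1 : e.1.re < v.re) (hv3 : v.re ≤ e'.2.re) (hgl : g.1.re < v.re) (hgr : v.re ≤ g.2.re)
    (hlast : ∀ g ∈ E, ∀ s, e.1.re < s → s < v.re → g.1.re < s → s < g.2.re →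
      ¬ (f e s < f g s ∧ f g s < f e' s))
    (hlt : ∀ᶠ s in 𝓝[<] v.re, f e s < f g s) (hx : f g v.re < f e' v.re) : False := by
  have h1 : Tendsto (f g) (𝓝[<] v.re) (𝓝 (f g v.re)) := Pl_contLeft (hD.cont g hg) hgl hgr
  have h2 : Tendsto (f e') (𝓝[<] v.re) (𝓝 (f e' v.re)) :=
    Pl_contLeft (hD.cont e' hW) (by rw [hW1]; exact hv1) hv3
  have h3 : ∀ᶠ s in 𝓝[<] v.re, f g s < f e' s := h1.eventually_lt h2 hx
  have h4 : ∀ᶠ s in 𝓝[<] v.re, s ∈ Set.Ioo (max e.1.re g.1.re) v.re :=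
    Ioo_mem_nhdsLT (max_lt hv1 hgl)
  obtain ⟨s, hs1, hs2, hs3⟩ := (hlt.and (h3.and h4)).exists
  exact hlast g hg s ((le_max_left _ _).trans_lt hs3.1) hs3.2
    ((le_max_right _ _).trans_lt hs3.1) (hs3.2.trans_le hgr) ⟨hs1, hs2⟩

/-- the edge `e` with its wedge `e'` and the vertex `v` -/
def Pl_P (V : Finset ℂ) (E : Finset (ℂ × ℂ)) (f : ℂ × ℂ → ℝ → ℝ) (e e' : ℂ × ℂ) (v : ℂ) : Prop :=
  Wedge E f e e' ∧ v ∈ V ∧ e.1.re < v.re ∧ v.re ≤ e.2.re ∧ v.re ≤ e'.2.re ∧ f e v.re ≤ v.im ∧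
    v.im ≤ f e' v.re ∧
    ∀ g ∈ E, ∀ s, e.1.re < s → s < v.re → g.1.re < s → s < g.2.re →
      ¬ (f e s < f g s ∧ f g s < f e' s)

theorem Pl_end {V : Finset ℂ} {E : Finset (ℂ × ℂ)} {f : ℂ × ℂ → ℝ → ℝ} (hD : Drawing V E f)
    {e : ℂ × ℂ} {v : ℂ} (he : e ∈ E) (hv : v ∈ V) (h1 : e.1.re < v.re) (h2 : v.re ≤ e.2.re)
    (h3 : v.im = f e v.re) : v = e.2 := by
  rcases lt_or_eq_of_le h2 with h | h
  · exact absurd h3.symm (hD.off e he v hv h1 h)
  · exact hD.inj v hv e.2 (hD.mem e he).2.1 h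

theorem Pl_strict {V : Finset ℂ} {E : Finset (ℂ × ℂ)} {f : ℂ × ℂ → ℝ → ℝ} (hD : Drawing V E f)
    {e : ℂ × ℂ} {v : ℂ} (he : e ∈ E) (hv : v ∈ V) (h2 : v.re ≤ e.2.re)
    (h3 : v.im ≠ f e v.re) : v.re < e.2.re := by
  rcases lt_or_eq_of_le h2 with h | h
  · exact h
  · have h4 : v = e.2 := hD.inj v hv e.2 (hD.mem e he).2.1 h
    refine absurd ?_ h3
    rw [h4]
    exact (hD.right e he).symm

/-- first kind: not `f e < f g` to the left of `v` -/
theorem Pl_true {V : Finset ℂ} {E : Finset (ℂ × ℂ)} {f : ℂ × ℂ → ℝ → ℝ} (hD : Drawing V E f)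
    {e g e' : ℂ × ℂ} {v : ℂ} (he : e ∈ E) (hg : g ∈ E) (hP : Pl_P V E f e e' v)
    (_h1 : v.im = f e v.re) (h2 : v = e.2) (h3 : v = g.2) (hgv : g.1.re < v.re)
    (hlt : ∀ s, e.1.re < s → g.1.re < s → s < v.re → f e s < f g s) : False := by
  obtain ⟨hW, hv, p1, p2, p3, p4, p5, p6⟩ := hP
  have hge : f g v.re = v.im := by
    rw [h3]
    exact hD.right g hg
  refine Pl_key hD hg hW.1 hW.2.1 p1 p3 hgv (by rw [← h3]) p6 ?_ ?_
  · filter_upwards [Ioo_mem_nhdsLT (max_lt p1 hgv)] with s hs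
    exact hlt s ((le_max_left _ _).trans_lt hs.1) ((le_max_right _ _).trans_lt hs.1) hs.2
  · rw [hge]
    refine lt_of_le_of_ne p5 fun h => ?_
    have h4 : v = e'.2 := Pl_end hD hW.1 hv (by rw [hW.2.1]; exact p1) p3 h
    have h5 : e' = e := by
      apply Prod.ext
      · exact hW.2.1
      · rw [← h4, ← h2]
    have hee := (hD.mem e he).2.2
    obtain ⟨s, hs1, hs2⟩ := exists_between hee
    have h6 := hW.2.2.1 s hs1 hs2 (by rw [h5]; exact hs2)
    rw [h5] at h6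
    exact lt_irrefl _ h6

/-- second kind: not `f e v < f g v` -/
theorem Pl_false {V : Finset ℂ} {E : Finset (ℂ × ℂ)} {f : ℂ × ℂ → ℝ → ℝ} (hD : Drawing V E f)
    {e g e' : ℂ × ℂ} {v : ℂ} (he : e ∈ E) (hg : g ∈ E) (hP : Pl_P V E f e e' v)
    (hgv : g.1.re < v.re) (hgr : v.re ≤ g.2.re) (h2 : f g v.re < v.im)
    (hlt : f e v.re < f g v.re) : False := by
  obtain ⟨hW, hv, p1, p2, p3, p4, p5, p6⟩ := hP
  refine Pl_key hD hg hW.1 hW.2.1 p1 p3 hgv hgr p6 ?_ (h2.trans_le p5)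
  exact (Pl_contLeft (hD.cont e he) p1 p2).eventually_lt
    (Pl_contLeft (hD.cont g hg) hgv hgr) hlt

theorem plStmt (H1 : Pl1Stmt) (H2 : Pl2Stmt) (H3 : Pl3Stmt) : PlStmt := by
  classical
  intro V E f hD
  obtain ⟨hTW, hTop⟩ := H2 V E f hD
  have hex : ∀ e : ℂ × ℂ, ∃ (e' : ℂ × ℂ) (v : ℂ), e ∈ E → ¬ Top E f e → Pl_P V E f e e' v := by
    intro e
    by_cases he : e ∈ E
    · by_cases ht : Top E f e
      · exact ⟨e, 0, fun _ h => absurd ht h⟩
      · obtain ⟨e', he'⟩ := (hTW e he).resolve_left ht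
        obtain ⟨v, hv, h⟩ := H3 V E f hD e he e' he'
        exact ⟨e', v, fun _ _ => ⟨he', hv, h⟩⟩
    · exact ⟨e, 0, fun h => absurd h he⟩
  choose W v hP using hex
  have c1 : (E.filter fun e => Top E f e).card ≤ V.card := by
    refine Finset.card_le_card_of_injOn (fun e => e.1) ?_ ?_
    · intro e he
      exact (hD.mem e (Finset.mem_filter.1 he).1).1
    · intro e he g hg h
      have he' := Finset.mem_filter.1 he
      have hg' := Finset.mem_filter.1 hg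
      exact hTop e he'.1 g hg'.1 he'.2 hg'.2 h
  have c2 : (E.filter fun e => ¬ Top E f e ∧ (v e).im = f e (v e).re).card ≤ V.card := by
    refine Finset.card_le_card_of_injOn v ?_ ?_
    · intro e he
      have he' := Finset.mem_filter.1 he
      exact (hP e he'.1 he'.2.1).2.1
    · intro e he g hg h
      obtain ⟨heE, heT, hev⟩ := Finset.mem_filter.1 he
      obtain ⟨hgE, hgT, hgv⟩ := Finset.mem_filter.1 hg
      have hPe := hP e heE heT
      have hPg := hP g hgE hgT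
      have h' : v e = v g := h
      rw [← h'] at hPg hgv
      have h2 : v e = e.2 := Pl_end hD heE hPe.2.1 hPe.2.2.1 hPe.2.2.2.1 hev
      have h3 : v e = g.2 := Pl_end hD hgE hPg.2.1 hPg.2.2.1 hPg.2.2.2.1 hgv
      by_contra hne
      have hm : max e.1.re g.1.re < (v e).re := max_lt hPe.2.2.1 hPg.2.2.1
      obtain ⟨s0, hs1, hs2⟩ := exists_between hm
      have q1 : e.1.re < s0 := (le_max_left _ _).trans_lt hs1
      have q2 : g.1.re < s0 := (le_max_right _ _).trans_lt hs1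
      have q3 : s0 < e.2.re := by rw [← h2]; exact hs2
      have q4 : s0 < g.2.re := by rw [← h3]; exact hs2
      rcases lt_or_gt_of_ne (hD.nocross e heE g hgE hne s0 q1 q3 q2 q4) with hlt | hlt
      · refine Pl_true hD heE hgE hPe hev h2 h3 hPg.2.2.1 fun s a1 a2 a3 => ?_
        exact H1 (f e) (f g) _ _ _ _ (hD.cont e heE) (hD.cont g hgE)
          (fun s b1 b2 b3 b4 => hD.nocross e heE g hgE hne s b1 b2 b3 b4) s0 s q1 q3 q2 q4 a1
          (by rw [← h2]; exact a3) a2 (by rw [← h3]; exact a3) hlt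
      · refine Pl_true hD hgE heE hPg hgv h3 h2 hPe.2.2.1 fun s a1 a2 a3 => ?_
        exact H1 (f g) (f e) _ _ _ _ (hD.cont g hgE) (hD.cont e heE)
          (fun s b1 b2 b3 b4 => (hD.nocross e heE g hgE hne s b3 b4 b1 b2).symm) s0 s q2 q4 q1 q3
          a1 (by rw [← h3]; exact a3) a2 (by rw [← h2]; exact a3) hlt
  have c3 : (E.filter fun e => ¬ Top E f e ∧ ¬ (v e).im = f e (v e).re).card ≤ V.card := by
    refine Finset.card_le_card_of_injOn v ?_ ?_
    · intro e he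
      have he' := Finset.mem_filter.1 he
      exact (hP e he'.1 he'.2.1).2.1
    · intro e he g hg h
      obtain ⟨heE, heT, hev⟩ := Finset.mem_filter.1 he
      obtain ⟨hgE, hgT, hgv⟩ := Finset.mem_filter.1 hg
      have hPe := hP e heE heT
      have hPg := hP g hgE hgT
      have h' : v e = v g := h
      rw [← h'] at hPg hgv
      have h2 : (v e).re < e.2.re := Pl_strict hD heE hPe.2.1 hPe.2.2.2.1 hev
      have h3 : (v e).re < g.2.re := Pl_strict hD hgE hPg.2.1 hPg.2.2.2.1 hgv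
      have k1 : f e (v e).re < (v e).im := lt_of_le_of_ne hPe.2.2.2.2.2.1 fun h => hev h.symm
      have k2 : f g (v e).re < (v e).im := lt_of_le_of_ne hPg.2.2.2.2.2.1 fun h => hgv h.symm
      by_contra hne
      rcases lt_or_gt_of_ne (hD.nocross e heE g hgE hne _ hPe.2.2.1 h2 hPg.2.2.1 h3) with hlt | hlt
      · exact Pl_false hD heE hgE hPe hPg.2.2.1 h3.le k2 hlt
      · exact Pl_false hD hgE heE hPg hPe.2.2.1 h2.le k1 hlt
  have hsub : E ⊆ (E.filter fun e => Top E f e) ∪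
      ((E.filter fun e => ¬ Top E f e ∧ (v e).im = f e (v e).re) ∪
        (E.filter fun e => ¬ Top E f e ∧ ¬ (v e).im = f e (v e).re)) := by
    intro e he
    rw [Finset.mem_union, Finset.mem_union, Finset.mem_filter, Finset.mem_filter,
      Finset.mem_filter]
    tauto
  have h1 := Finset.card_le_card hsub
  have h2 := Finset.card_union_le (E.filter fun e => Top E f e)
    ((E.filter fun e => ¬ Top E f e ∧ (v e).im = f e (v e).re) ∪
        (E.filter fun e => ¬ Top E f e ∧ ¬ (v e).im = f e (v e).re))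
  have h3 := Finset.card_union_le (E.filter fun e => ¬ Top E f e ∧ (v e).im = f e (v e).re)
    (E.filter fun e => ¬ Top E f e ∧ ¬ (v e).im = f e (v e).re)
  omega

end Dadc30.Gap
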