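import Pool.Agent.Lib.MP_dadc30_coG.TorB

set_option linter.all false

/-!
# MP_dadc30_co, Theorem Q, module Pl1: intermediate value theorem (helper78)
-/

open MeasureTheory Filter Topology
open scoped Real ComplexConjugate

namespace Dadc30.Gap

theorem pl1Stmt : Pl1Stmt := by
  intro f g a b c d hf hg hne s s' h1 h2 h3 h4 h5 h6 h7 h8 hlt
  by_contra hcon
  have hcon' : g s' ≤ f s' := not_lt.1 hcon
  have hsub1 : Set.uIcc s s' ⊆ Set.Icc a b := by
    intro z hz
    rw [Set.mem_uIcc] at hz
    rcases hz with hz | hz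
    · exact ⟨by linarith [hz.1], by linarith [hz.2]⟩
    · exact ⟨by linarith [hz.1], by linarith [hz.2]⟩
  have hsub2 : Set.uIcc s s' ⊆ Set.Icc c d := by
    intro z hz
    rw [Set.mem_uIcc] at hz
    rcases hz with hz | hz
    · exact ⟨by linarith [hz.1], by linarith [hz.2]⟩
    · exact ⟨by linarith [hz.1], by linarith [hz.2]⟩
  have hc : ContinuousOn (fun z => f z - g z) (Set.uIcc s s') :=
    (hf.mono hsub1).sub (hg.mono hsub2)
  have h0 : (0 : ℝ) ∈ Set.uIcc (f s - g s) (f s' - g s') := by
    rw [Set.mem_uIcc]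
    left
    exact ⟨by linarith, by linarith⟩
  obtain ⟨z, hz, hz0⟩ := intermediate_value_uIcc hc h0
  have hz' : f z = g z := by
    have : f z - g z = 0 := hz0
    linarith
  rw [Set.mem_uIcc] at hz
  rcases hz with hz | hz
  · exact hne z (by linarith [hz.1]) (by linarith [hz.2]) (by linarith [hz.1])
      (by linarith [hz.2]) hz'
  · exact hne z (by linarith [hz.1]) (by linarith [hz.2]) (by linarith [hz.1])
      (by linarith [hz.2]) hz'

end Dadc30.Gap
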