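import Pool.Agent.Lib.MP_dadc30_coG.TorB

set_option linter.all false

/-!
# MP_dadc30_co, Theorem Q, module Pl2: top edges and wedges (helper78)
-/

open MeasureTheory Filter Topology
open scoped Real ComplexConjugate

namespace Dadc30.Gap

/-- `g` is above `e` (same left end point) -/
def Pl2_lt (f : ℂ × ℂ → ℝ → ℝ) (e g : ℂ × ℂ) : Prop :=
  ∀ s, e.1.re < s → s < e.2.re → s < g.2.re → f e s < f g s

theorem Pl2_cmp (h1 : Pl1Stmt) {V : Finset ℂ} {E : Finset (ℂ × ℂ)} {f : ℂ × ℂ → ℝ → ℝ}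
    (hD : Drawing V E f) {e g : ℂ × ℂ} (he : e ∈ E) (hg : g ∈ E) (heg : e.1 = g.1) (hne : e ≠ g)
    {s : ℝ} (hs1 : e.1.re < s) (hs2 : s < e.2.re) (hs3 : s < g.2.re) (hlt : f e s < f g s) :
    Pl2_lt f e g := by
  intro s' k1 k2 k3
  exact h1 (f e) (f g) e.1.re e.2.re g.1.re g.2.re (hD.cont e he) (hD.cont g hg)
    (hD.nocross e he g hg hne) s s' hs1 hs2 (by rw [← heg]; exact hs1) hs3 k1 k2
    (by rw [← heg]; exact k1) k3 hlt

theorem Pl2_ne {V : Finset ℂ} {E : Finset (ℂ × ℂ)} {f : ℂ × ℂ → ℝ → ℝ}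
    (hD : Drawing V E f) {e g : ℂ × ℂ} (he : e ∈ E) (hg : g ∈ E) (heg : e.1 = g.1) (hne : e ≠ g)
    {s : ℝ} (hs1 : e.1.re < s) (hs2 : s < e.2.re) (hs3 : s < g.2.re) : f e s ≠ f g s :=
  hD.nocross e he g hg hne s hs1 hs2 (by rw [← heg]; exact hs1) hs3

theorem pl2Stmt (h1 : Pl1Stmt) : Pl2Stmt := by
  classical
  intro V E f hD
  -- a point which is in the interval of every edge with the left end point `p`
  have hpt : ∀ e ∈ E, ∃ s : ℝ, e.1.re < s ∧ ∀ g ∈ E, g.1 = e.1 → s < g.2.re := by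
    intro e he
    obtain ⟨m, hm, hmin⟩ := Finset.exists_min_image (E.filter fun g => g.1 = e.1)
      (fun g => g.2.re) ⟨e, Finset.mem_filter.2 ⟨he, rfl⟩⟩
    rw [Finset.mem_filter] at hm
    have h2 := (hD.mem m hm.1).2.2
    rw [hm.2] at h2
    refine ⟨(e.1.re + m.2.re) / 2, by linarith, fun g hg hge => ?_⟩
    have h3 := hmin g (Finset.mem_filter.2 ⟨hg, hge⟩)
    have h3' : m.2.re ≤ g.2.re := h3
    linarith
  refine ⟨?_, ?_⟩
  · intro e he
    obtain ⟨s, hs, hsE⟩ := hpt e he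
    have hse := hsE e he rfl
    by_cases hA : (E.filter fun g => g.1 = e.1 ∧ f e s < f g s).Nonempty
    · right
      obtain ⟨e', he', hmin⟩ := Finset.exists_min_image _ (fun g => f g s) hA
      rw [Finset.mem_filter] at he'
      obtain ⟨he'E, he'1, he's⟩ := he'
      have hne : e ≠ e' := by
        intro h
        rw [h] at he's
        exact lt_irrefl _ he's
      refine ⟨e', he'E, he'1, ?_, ?_⟩
      · exact Pl2_cmp h1 hD he he'E he'1.symm hne hs hse (hsE e' he'E he'1) he's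
      · intro g hg hge hlt hgne s' k1 k2 k3
        have hgs := hlt s hs hse (hsE g hg hge)
        have h2 := hmin g (Finset.mem_filter.2 ⟨hg, hge, hgs⟩)
        have h2' : f e' s ≤ f g s := h2
        have hs' : e'.1.re < s := by
          rw [he'1]
          exact hs
        have h3 : f e' s ≠ f g s := Pl2_ne hD he'E hg (he'1.trans hge.symm) (Ne.symm hgne) hs'
          (hsE e' he'E he'1) (hsE g hg hge)
        have h4 := Pl2_cmp h1 hD he'E hg (he'1.trans hge.symm) (Ne.symm hgne) hs'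
          (hsE e' he'E he'1) (hsE g hg hge) (lt_of_le_of_ne h2' h3)
        exact h4 s' (by rw [he'1]; exact k1) k2 k3
    · left
      intro g hg hge hgne s' k1 k2 k3
      have hsg := hsE g hg hge
      have h2 : ¬ f e s < f g s := fun h => hA ⟨g, Finset.mem_filter.2 ⟨hg, hge, h⟩⟩
      have hs' : g.1.re < s := by
        rw [hge]
        exact hs
      have h3 : f g s ≠ f e s := Pl2_ne hD hg he hge hgne hs' hsg hse
      exact Pl2_cmp h1 hD hg he hge hgne hs' hsg hse (lt_of_le_of_ne (not_lt.1 h2) h3) s'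
        (by rw [hge]; exact k1) k3 k2
  · intro e he g hg hTe hTg heg
    by_contra hne
    obtain ⟨s, hs, hsE⟩ := hpt e he
    have h2 := hTe g hg heg.symm (Ne.symm hne) s hs (hsE e he rfl) (hsE g hg heg.symm)
    have h3 := hTg e he heg hne s (by rw [← heg]; exact hs) (hsE g hg heg.symm) (hsE e he rfl)
    exact lt_asymm h2 h3

end Dadc30.Gap
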