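import Pool.Agent.Lib.MP_dadc30_coG.TorB

set_option linter.all false

/-!
# MP_dadc30_co, Theorem Q, module Pl3: the first vertex in a wedge (helper78)
-/

open MeasureTheory Filter Topology
open scoped Real ComplexConjugate

namespace Dadc30.Gap

/-- strict inequality inside an interval gives the weak inequality at the end points -/
theorem Pl3_lim {f g : ℝ → ℝ} {a b c d x y : ℝ} (hf : ContinuousOn f (Set.Icc a b))
    (hg : ContinuousOn g (Set.Icc c d)) (hxy : x < y) (h1 : a ≤ x) (h2 : y ≤ b) (h3 : c ≤ x)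
    (h4 : y ≤ d) (h : ∀ s, x < s → s < y → f s < g s) : f x ≤ g x ∧ f y ≤ g y := by
  have s1 : Set.Ioo x y ⊆ Set.Icc a b := fun z hz => ⟨h1.trans hz.1.le, hz.2.le.trans h2⟩
  have s2 : Set.Ioo x y ⊆ Set.Icc c d := fun z hz => ⟨h3.trans hz.1.le, hz.2.le.trans h4⟩
  have hcl : closure (Set.Ioo x y) = Set.Icc x y := closure_Ioo hxy.ne
  constructor
  · refine ContinuousWithinAt.closure_le (s := Set.Ioo x y) ?_ ?_ ?_ (fun z hz => (h z hz.1 hz.2).le)
    · rw [hcl]
      exact ⟨le_refl x, hxy.le⟩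
    · exact (hf x ⟨h1, hxy.le.trans h2⟩).mono s1
    · exact (hg x ⟨h3, hxy.le.trans h4⟩).mono s2
  · refine ContinuousWithinAt.closure_le (s := Set.Ioo x y) ?_ ?_ ?_ (fun z hz => (h z hz.1 hz.2).le)
    · rw [hcl]
      exact ⟨hxy.le, le_refl y⟩
    · exact (hf y ⟨h1.trans hxy.le, h2⟩).mono s1
    · exact (hg y ⟨h3.trans hxy.le, h4⟩).mono s2

theorem pl3Stmt (h1 : Pl1Stmt) : Pl3Stmt := by
  classical
  intro V E f hD e he e' hW
  obtain ⟨he', he1, hlt, hmn⟩ := hW
  have me := hD.mem e he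
  have me' := hD.mem e' he'
  have re1 : e'.1.re = e.1.re := by rw [he1]
  have ce := hD.cont e he
  have ce' := hD.cont e' he'
  rw [re1] at ce'
  have me'2 : e.1.re < e'.2.re := by
    rw [← re1]
    exact me'.2.2
  -- the candidates
  have hne : (V.filter fun v => e.1.re < v.re ∧ v.re ≤ e.2.re ∧ v.re ≤ e'.2.re ∧
      f e v.re ≤ v.im ∧ v.im ≤ f e' v.re).Nonempty := by
    rcases le_total e.2.re e'.2.re with h | h
    · refine ⟨e.2, Finset.mem_filter.2 ⟨me.2.1, me.2.2, le_refl _, h, ?_, ?_⟩⟩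
      · rw [hD.right e he]
      · rw [← hD.right e he]
        exact (Pl3_lim ce ce' me.2.2 (le_refl _) (le_refl _) (le_refl _) h
          (fun s k1 k2 => hlt s k1 k2 (k2.trans_le h))).2
    · refine ⟨e'.2, Finset.mem_filter.2 ⟨me'.2.1, me'2, h, le_refl _, ?_, ?_⟩⟩
      · rw [← hD.right e' he']
        exact (Pl3_lim ce ce' me'2 (le_refl _) h (le_refl _) (le_refl _)
          (fun s k1 k2 => hlt s k1 (k2.trans_le h) k2)).2
      · rw [hD.right e' he']
  obtain ⟨v, hv, hmin⟩ := Finset.exists_min_image _ (fun v : ℂ => v.re) hne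
  rw [Finset.mem_filter] at hv
  obtain ⟨hvV, v1, v2, v3, v4, v5⟩ := hv
  refine ⟨v, hvV, v1, v2, v3, v4, v5, ?_⟩
  intro g hg s k1 k2 k3 k4 hbet
  obtain ⟨b1, b2⟩ := hbet
  have mg := hD.mem g hg
  have cg := hD.cont g hg
  have ge : e ≠ g := by
    intro h
    rw [h] at b1
    exact lt_irrefl _ b1
  have ge' : g ≠ e' := by
    intro h
    rw [h] at b2
    exact lt_irrefl _ b2
  have s1 : s < e.2.re := k2.trans_le v2
  have s2 : s < e'.2.re := k2.trans_le v3
  -- `g` stays between `e` and `e'`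
  have q1 : ∀ s', e.1.re < s' → s' < e.2.re → g.1.re < s' → s' < g.2.re → f e s' < f g s' :=
    fun s' a1 a2 a3 a4 => h1 (f e) (f g) _ _ _ _ ce cg (hD.nocross e he g hg ge) s s' k1 s1 k3 k4
      a1 a2 a3 a4 b1
  have q2 : ∀ s', e.1.re < s' → s' < e'.2.re → g.1.re < s' → s' < g.2.re → f g s' < f e' s' :=
    fun s' a1 a2 a3 a4 => h1 (f g) (f e') _ _ _ _ cg (hD.cont e' he') (hD.nocross g hg e' he' ge')
      s s' k3 k4 (by rw [re1]; exact k1) s2 a3 a4 (by rw [re1]; exact a1) a2 b2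
  rcases lt_trichotomy g.1.re e.1.re with hc | hc | hc
  · -- the vertex `e.1` would be on `g`
    have l1 := (Pl3_lim (f := f e) (g := f g) ce cg k1 (le_refl _) s1.le hc.le k4.le
      (fun z z1 z2 => q1 z z1 (z2.trans s1) (hc.trans z1) (z2.trans k4))).1
    have l2 := (Pl3_lim (f := f g) (g := f e') cg ce' k1 hc.le k4.le (le_refl _) s2.le
      (fun z z1 z2 => q2 z z1 (z2.trans s2) (hc.trans z1) (z2.trans k4))).1
    have l3 := hD.left e he
    have l4 := hD.left e' he'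
    rw [he1] at l4
    have l5 : f g e.1.re = e.1.im := le_antisymm (by rw [← l4]; exact l2) (by rw [← l3]; exact l1)
    exact hD.off g hg e.1 me.1 hc (k1.trans k4) l5
  · -- same left end point
    have l1 : g.1 = e.1 := hD.inj _ mg.1 _ me.1 hc
    have l2 := hmn g hg l1 (fun z z1 z2 z3 => q1 z z1 z2 (by rw [hc]; exact z1) z3) ge' s k1 s2 k4
    exact lt_asymm l2 b2
  · -- `g.1` would be a smaller candidate
    have l1 := (Pl3_lim (f := f e) (g := f g) ce cg k3 hc.le s1.le (le_refl _) k4.le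
      (fun z z1 z2 => q1 z (hc.trans z1) (z2.trans s1) z1 (z2.trans k4))).1
    have l2 := (Pl3_lim (f := f g) (g := f e') cg ce' k3 (le_refl _) k4.le hc.le s2.le
      (fun z z1 z2 => q2 z (hc.trans z1) (z2.trans s2) z1 (z2.trans k4))).1
    rw [hD.left g hg] at l1 l2
    have l3 := hmin g.1 (Finset.mem_filter.2 ⟨mg.1, hc, (k3.trans s1).le, (k3.trans s2).le, l1, l2⟩)
    have l3' : v.re ≤ g.1.re := l3
    linarith

end Dadc30.Gap
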