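import Pool.Agent.Lib.MP_dadc30_coG.TorB

set_option linter.all false

/-!
# MP_dadc30_co, Theorem Q, module Pos
-/

open MeasureTheory Filter Topology
open scoped Real ComplexConjugate

namespace Dadc30.Gap

theorem Pos_avoids : Avoids (sqBox (1 / 4)) := by
  intro x hx y hy h
  have h1 := abs_le.1 hx.1
  have h2 := abs_le.1 hx.2
  have h3 := abs_le.1 hy.1
  have h4 := abs_le.1 hy.2
  rw [Complex.dist_eq] at h
  have h5 : (x.re - y.re) * (x.re - y.re) + (x.im - y.im) * (x.im - y.im) = 1 := by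
    have := Complex.normSq_eq_norm_sq (x - y)
    rw [h, Complex.normSq_apply] at this
    simpa using this
  nlinarith [h1.1, h1.2, h2.1, h2.2, h3.1, h3.2, h4.1, h4.2,
    mul_nonneg (by linarith [h1.2, h3.1] : (0 : ℝ) ≤ 1 / 2 - (x.re - y.re))
      (by linarith [h1.1, h3.2] : (0 : ℝ) ≤ 1 / 2 + (x.re - y.re)),
    mul_nonneg (by linarith [h2.2, h4.1] : (0 : ℝ) ≤ 1 / 2 - (x.im - y.im))
      (by linarith [h2.1, h4.2] : (0 : ℝ) ≤ 1 / 2 + (x.im - y.im))]

theorem posStmt : PosStmt := by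
  have h := tile (1 / 4) (by norm_num) (sqBox (1 / 4)) (measurableSet_sqBox _) subset_rfl
    Pos_avoids
  rw [volume_sqBox _ (by norm_num), ENNReal.toReal_ofReal (by positivity)] at h
  refine lt_of_lt_of_le ?_ h
  norm_num

end Dadc30.Gap
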