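import Pool.Agent.Lib.MP_dadc30_coG.TorB

set_option linter.all false

/-!
# MP_dadc30_co, Theorem Q, module Pt: the pointwise inequality
-/

open MeasureTheory Filter Topology
open scoped Real ComplexConjugate

namespace Dadc30.Gap

theorem ptStmt : Bes1Stmt → Bes2Stmt → PtStmt := by
  intro h1 h2 K x hx
  have ht : ((1 : ℝ) / 2) ^ K * 2 ^ K = 1 := by
    rw [← mul_pow]
    norm_num
  set t : ℝ := (1 / 2) ^ K with htdef
  have ht0 : 0 < t := by positivity
  have hJ1 : ∀ y, 0 ≤ 1 - J y := fun y => by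
    have := (abs_le.1 (h1 y).2.1).2
    linarith
  have hsq : J x ^ 2 ≤ 1 := (sq_le_one_iff_abs_le_one _).2 (h1 x).2.1
  have hA : 0 ≤ 14 * t * (1 - J (t * x)) :=
    mul_nonneg (by positivity) (hJ1 _)
  have hS : ∀ k ∈ Finset.range K,
      0 ≤ 14 * π ^ 2 * t ^ 2 * 2 ^ k * (1 - J ((1 / 2) ^ (k + 1) * x)) := fun k _ =>
    mul_nonneg (by positivity) (hJ1 _)
  have hS0 := Finset.sum_nonneg hS
  have hq := (h1 (t * x)).2.2.1
  have hq0 := hJ1 (t * x)
  rcases lt_or_ge x 1 with hx1 | hx1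
  · have h3 : J x ^ 2 * (2 * (1 - J (t * x))) ≤ 1 * (2 * (1 - J (t * x))) :=
      mul_le_mul_of_nonneg_right hsq (by linarith)
    have h4 : (t * x) ^ 2 ≤ t ^ 2 :=
      pow_le_pow_left₀ (by positivity) (by nlinarith) 2
    linarith
  · have hx0 : 0 < x := by linarith
    have hb : J x ^ 2 ≤ 7 / x := by
      rw [le_div_iff₀ hx0]
      have := h2 x hx1
      linarith
    have ht2 : 0 ≤ t ^ 2 / 2 := by positivity
    rcases le_or_gt ((2 : ℝ) ^ K) x with hK | hK
    · have h7 : J x ^ 2 ≤ 7 * t := by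
        refine hb.trans ?_
        rw [div_le_iff₀ hx0]
        have : t * 2 ^ K ≤ t * x := mul_le_mul_of_nonneg_left hK ht0.le
        linarith
      have h8 : J x ^ 2 * (2 * (1 - J (t * x))) ≤ 7 * t * (2 * (1 - J (t * x))) :=
        mul_le_mul_of_nonneg_right h7 (by linarith)
      linarith
    · obtain ⟨k, hk1, hk2⟩ := exists_nat_pow_near hx1 (by norm_num : (1 : ℝ) < 2)
      have hkK : k < K := by
        by_contra hcon
        have : (2 : ℝ) ^ K ≤ 2 ^ k := pow_le_pow_right₀ (by norm_num) (not_lt.1 hcon)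
        linarith
      have hsing := Finset.single_le_sum hS (Finset.mem_range.2 hkK)
      refine le_trans ?_ (le_add_of_nonneg_right ht2)
      refine le_trans ?_ (le_add_of_nonneg_left hA)
      refine le_trans ?_ hsing
      have hk0 : (0 : ℝ) < 2 ^ k := by positivity
      have hhalf : ((1 : ℝ) / 2) ^ (k + 1) * 2 ^ (k + 1) = 1 := by
        rw [← mul_pow]
        norm_num
      set s : ℝ := (1 / 2) ^ (k + 1) with hs
      have hs0 : 0 < s := by positivity
      have h2k : (2 : ℝ) ^ (k + 1) = 2 * 2 ^ k := by ring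
      rw [h2k] at hk2 hhalf
      have hsx : |s * x| ≤ 1 := by
        rw [abs_of_nonneg (by positivity)]
        have : s * x ≤ s * (2 * 2 ^ k) := mul_le_mul_of_nonneg_left hk2.le hs0.le
        linarith
      have h9 := (h1 (s * x)).2.2.2 hsx
      have hpi : 0 < π ^ 2 := by positivity
      rw [div_le_iff₀ hpi] at h9
      have h10 : J x ^ 2 * (2 * (1 - J (t * x))) ≤ 7 / x * (t ^ 2 * x ^ 2 / 2) := by
        refine mul_le_mul hb ?_ (by linarith) (by positivity)
        rw [mul_pow] at hq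
        linarith
      have h11 : 7 / x * (t ^ 2 * x ^ 2 / 2) = 7 / 2 * t ^ 2 * x := by
        field_simp
      rw [h11] at h10
      refine h10.trans ?_
      -- x * 2 ^ k ≤ x ^ 2 = (s x) ^ 2 * (2 * 2 ^ k) ^ 2
      have h12 : x * 2 ^ k ≤ x ^ 2 := by nlinarith
      have h13 : x ^ 2 = (s * x) ^ 2 * (2 * 2 ^ k) ^ 2 := by
        have : (s * x) ^ 2 * (2 * 2 ^ k) ^ 2 = x ^ 2 * (s * (2 * 2 ^ k)) ^ 2 := by ring
        rw [this, hhalf]
        ring
      have h14 : x ^ 2 ≤ (1 - J (s * x)) * π ^ 2 * (2 * 2 ^ k) ^ 2 := by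
        rw [h13]
        exact mul_le_mul_of_nonneg_right h9 (by positivity)
      have h15 : x * 2 ^ k ≤ (4 * π ^ 2 * 2 ^ k * (1 - J (s * x))) * 2 ^ k := by
        refine (h12.trans h14).trans_eq ?_
        ring
      have h16 : x ≤ 4 * π ^ 2 * 2 ^ k * (1 - J (s * x)) := le_of_mul_le_mul_right h15 hk0
      have h17 : 7 / 2 * t ^ 2 * x ≤ 7 / 2 * t ^ 2 * (4 * π ^ 2 * 2 ^ k * (1 - J (s * x))) :=
        mul_le_mul_of_nonneg_left h16 (by positivity)
      refine h17.trans_eq ?_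
      ring

end Dadc30.Gap
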