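import Pool.Agent.Lib.MP_dadc30_coG.TorB

/-!
# MP_dadc30_co, Theorem Q, module QB
-/

set_option autoImplicit false

open MeasureTheory Filter Topology
open scoped Real ComplexConjugate

namespace Dadc30.Gap

private theorem QB_ts (K : ℕ) : (2 : ℝ) ^ K * (1 / 2) ^ K = 1 := by
  rw [← mul_pow]
  norm_num

theorem qbStmt : Bes1Stmt → PtStmt → Av1Stmt → Av2Stmt → DblStmt → QBStmt := by
  intro _ hPt hAv1 hAv2 hDbl F hF K
  obtain ⟨a, ξ, hs⟩ := hF.spc
  obtain ⟨-, hD1, hD0, hDk⟩ := hDbl F hF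
  set t : ℝ := (1 / 2) ^ K with ht
  have ht0 : 0 < t := by positivity
  have h2 : (2 : ℝ) ^ K * t = 1 := QB_ts K
  have hA2 := hAv2 F a ξ hs t
  have hA1 : ∀ s : ℝ, HasSum (fun k => a k * (1 - J (s * ‖ξ k‖))) (DF F s) :=
    fun s => hAv1 F a ξ hs s
  have hA0 : HasSum a (F 0) := by
    have h := hs.2 0
    have e : (fun k => a k * Real.cos (ip (ξ k) 0)) = a := by
      funext k
      simp [ip]
    rwa [e] at h
  have hR : HasSum (fun k => 14 * t * (a k * (1 - J (t * ‖ξ k‖))) +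
      (∑ j ∈ Finset.range K, 14 * π ^ 2 * t ^ 2 * 2 ^ j *
        (a k * (1 - J ((1 / 2) ^ (j + 1) * ‖ξ k‖)))) + t ^ 2 / 2 * a k)
      (14 * t * DF F t + (∑ j ∈ Finset.range K, 14 * π ^ 2 * t ^ 2 * 2 ^ j *
        DF F ((1 / 2) ^ (j + 1))) + t ^ 2 / 2 * F 0) :=
    (((hA1 t).mul_left _).add (hasSum_sum fun j _ => (hA1 ((1 / 2) ^ (j + 1))).mul_left _)).add
      (hA0.mul_left _)
  have hle := hasSum_le (fun k => by
    have h := mul_le_mul_of_nonneg_left (hPt K ‖ξ k‖ (norm_nonneg _)) (hs.1 k)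
    rw [← ht] at h
    refine h.trans (le_of_eq ?_)
    rw [mul_add, mul_add, Finset.mul_sum]
    congr 1
    · congr 1
      · ring
      · refine Finset.sum_congr rfl fun j _ => ?_
        ring
    · ring) hA2 hR
  refine hle.trans ?_
  have hD := hD0 t
  have hsum : (∑ j ∈ Finset.range K, 14 * π ^ 2 * t ^ 2 * 2 ^ j * DF F ((1 / 2) ^ (j + 1))) ≤
      7 * π ^ 2 * K * t * DF F t := by
    have h1 : ∀ j ∈ Finset.range K, 14 * π ^ 2 * t ^ 2 * 2 ^ j * DF F ((1 / 2) ^ (j + 1)) ≤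
        7 * π ^ 2 * t * DF F t := by
      intro j hj
      have hj' : j + 1 ≤ K := Finset.mem_range.1 hj
      have h3 := hDk K (j + 1) hj'
      rw [← ht] at h3
      have h4 : (2 : ℝ) ^ j * 2 ^ (K - (j + 1)) * 2 = 2 ^ K := by
        rw [← pow_add, ← pow_succ]
        congr 1
        omega
      calc 14 * π ^ 2 * t ^ 2 * 2 ^ j * DF F ((1 / 2) ^ (j + 1)) ≤
          14 * π ^ 2 * t ^ 2 * 2 ^ j * (2 ^ (K - (j + 1)) * DF F t) :=
            mul_le_mul_of_nonneg_left h3 (by positivity)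
        _ = 7 * π ^ 2 * t * ((2 ^ j * 2 ^ (K - (j + 1)) * 2) * t) * DF F t := by ring
        _ = 7 * π ^ 2 * t * DF F t := by rw [h4, h2, mul_one]
    have h5 := Finset.sum_le_sum h1
    rw [Finset.sum_const, Finset.card_range, nsmul_eq_mul] at h5
    linarith
  have hF0 : t ^ 2 / 2 * F 0 ≤ t / 2 * DF F t := by
    have h3 := hDk K 0 (Nat.zero_le _)
    rw [← ht, pow_zero, hD1, Nat.sub_zero] at h3
    calc t ^ 2 / 2 * F 0 ≤ t ^ 2 / 2 * (2 ^ K * DF F t) :=
          mul_le_mul_of_nonneg_left h3 (by positivity)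
      _ = t / 2 * (2 ^ K * t) * DF F t := by ring
      _ = t / 2 * DF F t := by rw [h2, mul_one]
  have hpi : π ^ 2 ≤ 10 := by
    have h3 := Real.pi_lt_d2
    have h4 := Real.pi_pos
    nlinarith
  have hK : (0 : ℝ) ≤ K := Nat.cast_nonneg K
  have htD : 0 ≤ t * DF F t := mul_nonneg ht0.le hD
  have h6 : 7 * π ^ 2 * K * (t * DF F t) ≤ 70 * K * (t * DF F t) := by
    have : 7 * π ^ 2 * K ≤ 70 * K := by
      have := mul_le_mul_of_nonneg_right hpi hK
      linarith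
    exact mul_le_mul_of_nonneg_right this htD
  linarith

end Dadc30.Gap
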