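import Pool.Agent.Lib.MP_dadc30_coG.TorB

set_option linter.all false

/-!
# MP_dadc30_co, Theorem Q, module Sel1: the selection for one position
-/

open MeasureTheory Filter Topology
open scoped Real ComplexConjugate

namespace Dadc30.Gap

theorem Sel1_uf {T : ℝ} {B : Set Tor} (hB : UF T B) {u : ℂ} (hu : ‖u‖ = 1) (z : Tor) {x y : ℂ}
    (hxy : dist x y = 1) (hx : z + prj T (u * x) ∈ B) (hy : z + prj T (u * y) ∈ B) : False := by
  have h1 : z + prj T (u * y) = z + prj T (u * x) + prj T (u * (y - x)) := by
    rw [add_assoc, ← prj_add]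
    congr 2
    ring
  have h2 : ‖u * (y - x)‖ = 1 := by
    rw [norm_mul, hu, one_mul, ← dist_eq_norm, dist_comm]
    exact hxy
  rw [h1] at hy
  exact hB _ hx _ h2 hy

theorem sel1Stmt : Sel1Stmt := by
  classical
  intro T B hB X w hw v u hu z
  set p : ℂ → Tor := fun x => z + prj T (u * x) with hp
  let C : ℂ → Prop := fun x => p x ∈ B ∨
    (p x - prj T v ∈ B ∧ p x ∉ B ∧ ∀ y ∈ X, dist x y = 1 → p y ∉ B)
  refine ⟨X.filter C, Finset.filter_subset _ _, ?_, ?_⟩
  · intro x hx y hy hxy
    obtain ⟨hxX, hx⟩ := Finset.mem_filter.mp (Finset.mem_coe.mp hx)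
    obtain ⟨hyX, hy⟩ := Finset.mem_filter.mp (Finset.mem_coe.mp hy)
    rcases hx with hx | ⟨hx1, hx2, hx3⟩
    · rcases hy with hy | ⟨hy1, hy2, hy3⟩
      · exact Sel1_uf hB hu z hxy hx hy
      · exact hy3 x hxX (by rw [dist_comm]; exact hxy) hx
    · rcases hy with hy | ⟨hy1, hy2, hy3⟩
      · exact hx3 y hyX hxy hy
      · have e1 : z - prj T v + prj T (u * x) ∈ B := by
          have : z - prj T v + prj T (u * x) = p x - prj T v := by
            simp only [hp]
            abel
          rw [this]
          exact hx1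
        have e2 : z - prj T v + prj T (u * y) ∈ B := by
          have : z - prj T v + prj T (u * y) = p y - prj T v := by
            simp only [hp]
            abel
          rw [this]
          exact hy1
        exact Sel1_uf hB hu _ hxy e1 e2
  · rw [Finset.sum_filter, ← Finset.sum_sub_distrib]
    refine Finset.sum_le_sum fun x hx => ?_
    have hterm : ∀ y ∈ X, 0 ≤ w x * (if dist x y = 1 then
        ({z | z + prj T (u * x) - prj T v ∈ B ∧ z + prj T (u * y) ∈ B} : Set Tor).indicator
          (fun _ => (1 : ℝ)) z else 0) := by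
      intro y _
      refine mul_nonneg (hw x) ?_
      split_ifs
      · exact Set.indicator_nonneg (fun _ _ => zero_le_one) _
      · exact le_rfl
    have hsum := Finset.sum_nonneg hterm
    by_cases h1 : p x ∈ B
    · have e1 : B.indicator (fun _ => (1 : ℝ)) (z + prj T (u * x)) = 1 :=
        Set.indicator_of_mem h1 _
      have e2 : ({z | z - prj T v ∈ B ∧ z ∉ B} : Set Tor).indicator (fun _ => (1 : ℝ))
          (z + prj T (u * x)) = 0 :=
        Set.indicator_of_notMem (fun h => h.2 h1) _
      have e3 : C x := Or.inl h1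
      rw [e1, e2, if_pos e3]
      linarith
    · have e1 : B.indicator (fun _ => (1 : ℝ)) (z + prj T (u * x)) = 0 :=
        Set.indicator_of_notMem h1 _
      by_cases h2 : p x - prj T v ∈ B
      · have e2 : ({z | z - prj T v ∈ B ∧ z ∉ B} : Set Tor).indicator (fun _ => (1 : ℝ))
            (z + prj T (u * x)) = 1 :=
          Set.indicator_of_mem (show p x ∈ ({z | z - prj T v ∈ B ∧ z ∉ B} : Set Tor) from
            ⟨h2, h1⟩) _
        by_cases h3 : ∀ y ∈ X, dist x y = 1 → p y ∉ B
        · have e3 : C x := Or.inr ⟨h2, h1, h3⟩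
          rw [e1, e2, if_pos e3]
          linarith
        · have e3 : ¬ C x := by
            rintro (h | ⟨_, _, h⟩)
            · exact h1 h
            · exact h3 h
          push Not at h3
          obtain ⟨y, hy, hxy, hyB⟩ := h3
          have e4 := Finset.single_le_sum hterm hy
          rw [if_pos hxy, Set.indicator_of_mem (show z ∈ ({z | z + prj T (u * x) - prj T v ∈ B ∧
            z + prj T (u * y) ∈ B} : Set Tor) from ⟨h2, hyB⟩)] at e4
          rw [e1, e2, if_neg e3]
          linarith
      · have e2 : ({z | z - prj T v ∈ B ∧ z ∉ B} : Set Tor).indicator (fun _ => (1 : ℝ))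
            (z + prj T (u * x)) = 0 :=
          Set.indicator_of_notMem (fun h => h2 h.1) _
        rw [e1, e2]
        have e5 : (0 : ℝ) ≤ if C x then w x else 0 := by
          split_ifs
          · exact hw x
          · exact le_rfl
        linarith

end Dadc30.Gap
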