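import Pool.Agent.Lib.MP_dadc30_coG.TorB

set_option linter.all false

/-!
# MP_dadc30_co, Theorem Q, module Sel2: the selection, averaged over the torus and the angle
-/

open MeasureTheory Filter Topology
open scoped Real ComplexConjugate

namespace Dadc30.Gap

theorem Sel2_indMeas {S : Set Tor} (hS : MeasurableSet S) :
    Measurable (S.indicator (fun _ => (1 : ℝ))) := measurable_const.indicator hS

/-- an indicator function is integrable -/
theorem Sel2_indInt {S : Set Tor} (hS : MeasurableSet S) :
    Integrable (S.indicator (fun _ => (1 : ℝ))) haarT :=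
  (integrable_const (1 : ℝ)).indicator hS

theorem Sel2_integral_ind {S : Set Tor} (hS : MeasurableSet S) :
    ∫ z, S.indicator (fun _ => (1 : ℝ)) z ∂haarT = (haarT S).toReal := by
  rw [integral_indicator hS, integral_const, smul_eq_mul, mul_one]
  unfold Measure.real
  rw [Measure.restrict_apply_univ]

theorem Sel2_indInt_add {S : Set Tor} (hS : MeasurableSet S) (a : Tor) :
    Integrable (fun z => S.indicator (fun _ => (1 : ℝ)) (z + a)) haarT :=
  (Sel2_indInt hS).comp_add_right a

theorem Sel2_integral_ind_add {S : Set Tor} (hS : MeasurableSet S) (a : Tor) :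
    ∫ z, S.indicator (fun _ => (1 : ℝ)) (z + a) ∂haarT = (haarT S).toReal := by
  rw [integral_translate (fun z => S.indicator (fun _ => (1 : ℝ)) z) a, Sel2_integral_ind hS]

/-- the second layer -/
theorem Sel2_measE {B : Set Tor} (hB : MeasurableSet B) (p : Tor) :
    MeasurableSet {z | z - p ∈ B ∧ z ∉ B} := by
  have h1 : Measurable (fun z : Tor => z - p) := measurable_id.sub measurable_const
  exact (h1 hB).inter hB.compl

theorem Sel2_haarE (hc : CorStmt) {T : ℝ} {B : Set Tor} (hB : MeasurableSet B) (v : ℂ) :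
    (haarT {z | z - prj T v ∈ B ∧ z ∉ B}).toReal = dF (cor T B) v := by
  obtain ⟨-, -, -, -, hd, -, -⟩ := hc T B hB
  rw [hd v, ← haarT_translate (Sel2_measE hB (prj T v)) (prj T v)]
  congr 2
  ext z
  simp only [Set.mem_setOf_eq, add_sub_cancel_right]

theorem Sel2_measC {B : Set Tor} (hB : MeasurableSet B) (a b p : Tor) :
    MeasurableSet {z | z + a - p ∈ B ∧ z + b ∈ B} := by
  have h1 : Measurable (fun z : Tor => z + a - p) :=
    (measurable_id.add measurable_const).sub measurable_const
  have h2 : Measurable (fun z : Tor => z + b) := measurable_id.add measurable_const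
  exact (h1 hB).inter (h2 hB)

theorem Sel2_haarC {T : ℝ} {B : Set Tor} (hB : MeasurableSet B) (a b v : ℂ) :
    (haarT {z | z + prj T a - prj T v ∈ B ∧ z + prj T b ∈ B}).toReal =
      cor T B (a - b - v) := by
  unfold cor
  have h1 : MeasurableSet {z : Tor | z ∈ B ∧ z + prj T (a - b - v) ∈ B} := by
    have h2 : Measurable (fun z : Tor => z + prj T (a - b - v)) :=
      measurable_id.add measurable_const
    exact hB.inter (h2 hB)
  rw [← haarT_translate h1 (prj T b)]
  congr 2
  ext z
  have e : z + prj T b + prj T (a - b - v) = z + prj T a - prj T v := by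
    rw [prj_sub, prj_sub]; abel
  simp only [Set.mem_setOf_eq]
  rw [e]
  exact and_comm

/-- the inequality for one angle -/
theorem Sel2_one (hc : CorStmt) {T : ℝ} {B : Set Tor} (hB : MeasurableSet B) (X : Finset ℂ)
    (w : ℂ → ℝ) (v u : ℂ) (M : ℝ)
    (h : ∀ z : Tor, ∑ x ∈ X, w x * (B.indicator (fun _ => (1 : ℝ)) (z + prj T (u * x)) +
      ({z | z - prj T v ∈ B ∧ z ∉ B} : Set Tor).indicator (fun _ => (1 : ℝ))
        (z + prj T (u * x))) -
      ∑ x ∈ X, ∑ y ∈ X, w x * (if dist x y = 1 then
        ({z | z + prj T (u * x) - prj T v ∈ B ∧ z + prj T (u * y) ∈ B} : Set Tor).indicator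
          (fun _ => (1 : ℝ)) z else 0) ≤ M) :
    (∑ x ∈ X, w x) * (cor T B 0 + dF (cor T B) v) -
      ∑ x ∈ X, ∑ y ∈ X, w x * (if dist x y = 1 then cor T B (u * (x - y) - v) else 0) ≤ M := by
  obtain ⟨h0, -, -, -, -, -, -⟩ := hc T B hB
  have iA : ∀ x : ℂ, Integrable (fun z => w x * (B.indicator (fun _ => (1 : ℝ))
      (z + prj T (u * x)) + ({z | z - prj T v ∈ B ∧ z ∉ B} : Set Tor).indicator
        (fun _ => (1 : ℝ)) (z + prj T (u * x)))) haarT := by
    intro x
    exact ((Sel2_indInt_add hB _).add (Sel2_indInt_add (Sel2_measE hB (prj T v)) _)).const_mul _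
  have iC : ∀ x y : ℂ, Integrable (fun z => w x * (if dist x y = 1 then
      ({z | z + prj T (u * x) - prj T v ∈ B ∧ z + prj T (u * y) ∈ B} : Set Tor).indicator
        (fun _ => (1 : ℝ)) z else 0)) haarT := by
    intro x y
    by_cases hxy : dist x y = 1
    · simp only [if_pos hxy]
      exact (Sel2_indInt (Sel2_measC hB _ _ _)).const_mul _
    · simp only [if_neg hxy]
      exact (integrable_const (0 : ℝ)).const_mul _
  have iA' : Integrable (fun z => ∑ x ∈ X, w x * (B.indicator (fun _ => (1 : ℝ))
      (z + prj T (u * x)) + ({z | z - prj T v ∈ B ∧ z ∉ B} : Set Tor).indicator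
        (fun _ => (1 : ℝ)) (z + prj T (u * x)))) haarT :=
    integrable_finset_sum X (fun x _ => iA x)
  have iC' : Integrable (fun z => ∑ x ∈ X, ∑ y ∈ X, w x * (if dist x y = 1 then
      ({z | z + prj T (u * x) - prj T v ∈ B ∧ z + prj T (u * y) ∈ B} : Set Tor).indicator
        (fun _ => (1 : ℝ)) z else 0)) haarT :=
    integrable_finset_sum X (fun x _ => integrable_finset_sum X (fun y _ => iC x y))
  have hmono := integral_mono (μ := haarT) (iA'.sub iC') (integrable_const M) h
  have hM : ∫ _z : Tor, M ∂haarT = M := by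
    rw [integral_const]
    simp
  have e1 : ∫ z, (∑ x ∈ X, w x * (B.indicator (fun _ => (1 : ℝ)) (z + prj T (u * x)) +
      ({z | z - prj T v ∈ B ∧ z ∉ B} : Set Tor).indicator (fun _ => (1 : ℝ))
        (z + prj T (u * x)))) ∂haarT = (∑ x ∈ X, w x) * (cor T B 0 + dF (cor T B) v) := by
    rw [integral_finset_sum X (fun x _ => iA x), Finset.sum_mul]
    refine Finset.sum_congr rfl (fun x _ => ?_)
    rw [integral_const_mul, integral_add (Sel2_indInt_add hB _)
      (Sel2_indInt_add (Sel2_measE hB (prj T v)) _), Sel2_integral_ind_add hB,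
      Sel2_integral_ind_add (Sel2_measE hB (prj T v)), Sel2_haarE hc hB, h0]
  have e2 : ∫ z, (∑ x ∈ X, ∑ y ∈ X, w x * (if dist x y = 1 then
      ({z | z + prj T (u * x) - prj T v ∈ B ∧ z + prj T (u * y) ∈ B} : Set Tor).indicator
        (fun _ => (1 : ℝ)) z else 0)) ∂haarT =
      ∑ x ∈ X, ∑ y ∈ X, w x * (if dist x y = 1 then cor T B (u * (x - y) - v) else 0) := by
    rw [integral_finset_sum X (fun x _ => integrable_finset_sum X (fun y _ => iC x y))]
    refine Finset.sum_congr rfl (fun x _ => ?_)
    rw [integral_finset_sum X (fun y _ => iC x y)]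
    refine Finset.sum_congr rfl (fun y _ => ?_)
    rw [integral_const_mul]
    congr 1
    by_cases hxy : dist x y = 1
    · simp only [if_pos hxy]
      rw [Sel2_integral_ind (Sel2_measC hB _ _ _), Sel2_haarC hB]
      congr 1
      ring
    · simp only [if_neg hxy]
      simp
  have e3 : ∫ z, ((∑ x ∈ X, w x * (B.indicator (fun _ => (1 : ℝ)) (z + prj T (u * x)) +
      ({z | z - prj T v ∈ B ∧ z ∉ B} : Set Tor).indicator (fun _ => (1 : ℝ))
        (z + prj T (u * x)))) - ∑ x ∈ X, ∑ y ∈ X, w x * (if dist x y = 1 then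
      ({z | z + prj T (u * x) - prj T v ∈ B ∧ z + prj T (u * y) ∈ B} : Set Tor).indicator
        (fun _ => (1 : ℝ)) z else 0)) ∂haarT ≤ ∫ _z : Tor, M ∂haarT := hmono
  rw [integral_sub iA' iC', e1, e2, hM] at e3
  exact e3

/-- the average over the angle of the shifted correlation -/
theorem Sel2_arg {F : ℂ → ℝ} (v d : ℂ) (hd : ‖d‖ = 1) :
    cavg (fun θ => F (uu θ * d - v)) = pF F v := by
  have h1 : d = uu (Complex.arg d) := by
    have := Complex.norm_mul_exp_arg_mul_I d
    rw [hd, Complex.ofReal_one, one_mul] at this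
    exact this.symm
  have h2 : ∀ θ : ℝ, uu θ * d = uu (θ + Complex.arg d) := by
    intro θ
    have h3 : uu (θ + Complex.arg d) = uu θ * uu (Complex.arg d) := by
      unfold uu
      rw [← Complex.exp_add]
      congr 1
      push_cast
      ring
    rw [h3, ← h1]
  have hper : ∀ φ : ℝ, (fun φ => F (uu φ - v)) (φ + 2 * π) = (fun φ => F (uu φ - v)) φ := by
    intro φ
    show F (uu (φ + 2 * π) - v) = F (uu φ - v)
    have h3 : uu (φ + 2 * π) = uu φ := by
      unfold uu
      have : ((φ + 2 * π : ℝ) : ℂ) * Complex.I = φ * Complex.I + 2 * π * Complex.I := by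
        push_cast
        ring
      rw [this]
      exact Complex.exp_periodic _
    rw [h3]
  have h4 := cavg_shift (f := fun φ => F (uu φ - v)) hper (Complex.arg d)
  unfold pF
  rw [← h4]
  congr 1
  funext θ
  rw [h2]

theorem sel2Stmt : CorStmt → Sel1Stmt → Sel2Stmt := by
  intro hc h1 T B hB hUF hcont X w hw v
  classical
  -- the best set
  let P : Finset (Finset ℂ) := X.powerset.filter (fun S => Avoids (S : Set ℂ))
  have hPne : P.Nonempty := by
    obtain ⟨S, hS, hA, -⟩ := h1 T B hUF X w hw v 1 (by simp) 0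
    exact ⟨S, Finset.mem_filter.2 ⟨Finset.mem_powerset.2 hS, hA⟩⟩
  obtain ⟨S0, hS0, hmax⟩ := Finset.exists_max_image P (fun S => ∑ x ∈ S, w x) hPne
  have hS0' := Finset.mem_filter.1 hS0
  refine ⟨S0, Finset.mem_powerset.1 hS0'.1, hS0'.2, ?_⟩
  have hθ : ∀ θ : ℝ, (∑ x ∈ X, w x) * (cor T B 0 + dF (cor T B) v) -
      ∑ x ∈ X, ∑ y ∈ X, w x * (if dist x y = 1 then cor T B (uu θ * (x - y) - v) else 0) ≤
        ∑ x ∈ S0, w x := by
    intro θ
    apply Sel2_one hc hB X w v (uu θ)
    intro z
    obtain ⟨S, hS, hA, hle⟩ := h1 T B hUF X w hw v (uu θ) (norm_uu θ) z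
    exact hle.trans (hmax S (Finset.mem_filter.2 ⟨Finset.mem_powerset.2 hS, hA⟩))
  -- continuity in the angle
  have hct : ∀ x y : ℂ, Continuous (fun θ : ℝ =>
      w x * (if dist x y = 1 then cor T B (uu θ * (x - y) - v) else 0)) := by
    intro x y
    by_cases hxy : dist x y = 1
    · simp only [if_pos hxy]
      exact continuous_const.mul (hcont.comp ((continuous_uu.mul continuous_const).sub
        continuous_const))
    · simp only [if_neg hxy]
      exact continuous_const
  have hsum : ∀ (Y : Finset ℂ) (g : ℂ → ℝ → ℝ), (∀ y, Continuous (g y)) →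
      cavg (fun θ => ∑ y ∈ Y, g y θ) = ∑ y ∈ Y, cavg (g y) := by
    intro Y g hg
    induction Y using Finset.induction_on with
    | empty =>
      simp only [Finset.sum_empty]
      exact cavg_const 0
    | insert a Y ha ih =>
      rw [Finset.sum_insert ha, ← ih]
      simp only [Finset.sum_insert ha]
      exact cavg_add (hg a) (continuous_finset_sum Y (fun y _ => hg y))
  have hcs : Continuous (fun θ : ℝ => ∑ x ∈ X, ∑ y ∈ X,
      w x * (if dist x y = 1 then cor T B (uu θ * (x - y) - v) else 0)) :=
    continuous_finset_sum X (fun x _ => continuous_finset_sum X (fun y _ => hct x y))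
  have hc2 : Continuous (fun θ : ℝ => (∑ x ∈ X, w x) * (cor T B 0 + dF (cor T B) v) -
      ∑ x ∈ X, ∑ y ∈ X, w x * (if dist x y = 1 then cor T B (uu θ * (x - y) - v) else 0)) :=
    continuous_const.sub hcs
  have hav := cavg_mono hc2 continuous_const hθ
  rw [cavg_const, cavg_sub continuous_const hcs, cavg_const,
    hsum X (fun x θ => ∑ y ∈ X, w x * (if dist x y = 1 then cor T B (uu θ * (x - y) - v) else 0))
      (fun x => continuous_finset_sum X (fun y _ => hct x y))] at hav
  have hin : ∀ x ∈ X, cavg (fun θ => ∑ y ∈ X,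
      w x * (if dist x y = 1 then cor T B (uu θ * (x - y) - v) else 0)) =
      w x * deg X x * pF (cor T B) v := by
    intro x _
    rw [hsum X (fun y θ => w x * (if dist x y = 1 then cor T B (uu θ * (x - y) - v) else 0))
      (fun y => hct x y)]
    have h2 : ∀ y ∈ X, cavg (fun θ => w x *
        (if dist x y = 1 then cor T B (uu θ * (x - y) - v) else 0)) =
        if dist x y = 1 then w x * pF (cor T B) v else 0 := by
      intro y _
      by_cases hxy : dist x y = 1
      · simp only [if_pos hxy]
        rw [cavg_mul, Sel2_arg v (x - y) (by rw [← Complex.dist_eq]; exact hxy)]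
      · simp only [if_neg hxy]
        rw [mul_zero, cavg_const]
    rw [Finset.sum_congr rfl h2, ← Finset.sum_filter, Finset.sum_const, nsmul_eq_mul]
    have h3 : deg X x = (X.filter (fun y => dist x y = 1)).card := by
      unfold deg
      congr 1
    rw [h3]
    ring
  rw [Finset.sum_congr rfl hin, ← Finset.sum_mul] at hav
  exact hav

end Dadc30.Gap
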