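import Pool.Agent.Lib.MP_dadc30_coG.TorB

set_option linter.all false
set_option autoImplicit false

namespace Dadc30.Gap

/-- the weight of a subset -/
noncomputable def Smp_wt (V : Finset ℂ) (p : ℝ) (W : Finset ℂ) : ℝ :=
  p ^ W.card * (1 - p) ^ (V.card - W.card)

lemma Smp_wt_nonneg (V : Finset ℂ) (p : ℝ) (h0 : 0 ≤ p) (h1 : p ≤ 1) (W : Finset ℂ) :
    0 ≤ Smp_wt V p W := by
  unfold Smp_wt
  have : 0 ≤ 1 - p := by linarith
  positivity

open Classical in
lemma Smp_sum (V S : Finset ℂ) (hS : S ⊆ V) (p : ℝ) :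
    ∑ W ∈ V.powerset, (if S ⊆ W then Smp_wt V p W else 0) = p ^ S.card := by
  rw [← Finset.sum_filter]
  have h1 : ∑ W ∈ V.powerset.filter (fun W => S ⊆ W), Smp_wt V p W
      = ∑ U ∈ (V \ S).powerset, p ^ S.card * (p ^ U.card * (1 - p) ^ ((V \ S).card - U.card)) := by
    symm
    refine Finset.sum_bij (fun U _ => S ∪ U) ?_ ?_ ?_ ?_
    · intro U hU
      rw [Finset.mem_powerset] at hU
      rw [Finset.mem_filter, Finset.mem_powerset]
      exact ⟨Finset.union_subset hS (hU.trans Finset.sdiff_subset), Finset.subset_union_left⟩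
    · intro U hU U' hU' h
      rw [Finset.mem_powerset] at hU hU'
      have d1 : Disjoint S U := by
        rw [Finset.disjoint_left]
        intro a ha ha'
        exact (Finset.mem_sdiff.mp (hU ha')).2 ha
      have d2 : Disjoint S U' := by
        rw [Finset.disjoint_left]
        intro a ha ha'
        exact (Finset.mem_sdiff.mp (hU' ha')).2 ha
      ext a
      have hh : a ∈ S ∪ U ↔ a ∈ S ∪ U' := by
        have h' : S ∪ U = S ∪ U' := h
        rw [h']
      rw [Finset.mem_union, Finset.mem_union] at hh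
      constructor
      · intro ha
        rcases hh.mp (Or.inr ha) with h3 | h3
        · exact absurd ha (fun h4 => (Finset.disjoint_left.mp d1) h3 h4)
        · exact h3
      · intro ha
        rcases hh.mpr (Or.inr ha) with h3 | h3
        · exact absurd ha (fun h4 => (Finset.disjoint_left.mp d2) h3 h4)
        · exact h3
    · intro W hW
      rw [Finset.mem_filter, Finset.mem_powerset] at hW
      refine ⟨W \ S, ?_, ?_⟩
      · rw [Finset.mem_powerset]
        exact Finset.sdiff_subset_sdiff hW.1 (le_refl _)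
      · exact Finset.union_sdiff_of_subset hW.2
    · intro U hU
      rw [Finset.mem_powerset] at hU
      have d1 : Disjoint S U := by
        rw [Finset.disjoint_left]
        intro a ha ha'
        exact (Finset.mem_sdiff.mp (hU ha')).2 ha
      unfold Smp_wt
      rw [Finset.card_union_of_disjoint d1, Finset.card_sdiff_of_subset hS, pow_add, Nat.sub_sub]
      ring
  rw [h1, ← Finset.mul_sum, Finset.sum_pow_mul_eq_add_pow]
  simp

open Classical in
lemma Smp_count {β : Type} (V : Finset ℂ) (Q : Finset β) (S : β → Finset ℂ) (k : ℕ)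
    (h1 : ∀ q ∈ Q, S q ⊆ V) (h2 : ∀ q ∈ Q, (S q).card = k) (p : ℝ) :
    ∑ W ∈ V.powerset, Smp_wt V p W * ((Q.filter fun q => S q ⊆ W).card : ℝ) = p ^ k * Q.card := by
  have e1 : ∀ W ∈ V.powerset, Smp_wt V p W * ((Q.filter fun q => S q ⊆ W).card : ℝ)
      = ∑ q ∈ Q, (if S q ⊆ W then Smp_wt V p W else 0) := by
    intro W _
    rw [Finset.card_filter]
    push_cast
    rw [Finset.mul_sum]
    apply Finset.sum_congr rfl
    intro q _
    split_ifs <;> simp
  rw [Finset.sum_congr rfl e1, Finset.sum_comm]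
  have e2 : ∀ q ∈ Q, ∑ W ∈ V.powerset, (if S q ⊆ W then Smp_wt V p W else 0) = p ^ k := by
    intro q hq
    rw [Smp_sum V (S q) (h1 q hq) p, h2 q hq]
  rw [Finset.sum_congr rfl e2, Finset.sum_const, nsmul_eq_mul]
  ring

theorem smpStmt : SmpStmt := by
  classical
  intro V E P hE hP hW p hp0 hp1
  have key : ∑ W ∈ V.powerset, Smp_wt V p W * ((E.filter fun e => e.1 ∈ W ∧ e.2 ∈ W).card : ℝ)
      ≤ ∑ W ∈ V.powerset, Smp_wt V p W * (3 * (W.card : ℝ) +
        ((P.filter fun q => q.1.1 ∈ W ∧ q.1.2 ∈ W ∧ q.2.1 ∈ W ∧ q.2.2 ∈ W).card : ℝ)) := by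
    apply Finset.sum_le_sum
    intro W hWV
    exact mul_le_mul_of_nonneg_left (hW W (Finset.mem_powerset.mp hWV)) (Smp_wt_nonneg V p hp0 hp1 W)
  have c1 : ∑ W ∈ V.powerset, Smp_wt V p W * ((E.filter fun e => e.1 ∈ W ∧ e.2 ∈ W).card : ℝ)
      = p ^ 2 * E.card := by
    rw [← Smp_count V E (fun e => {e.1, e.2}) 2 ?_ ?_ p]
    · apply Finset.sum_congr rfl
      intro W _
      have : (E.filter fun e => e.1 ∈ W ∧ e.2 ∈ W) = E.filter fun e => ({e.1, e.2} : Finset ℂ) ⊆ W := by
        apply Finset.filter_congr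
        intro e _
        simp [Finset.insert_subset_iff]
      rw [this]
    · intro e he
      obtain ⟨a1, a2, a3⟩ := hE e he
      simp [Finset.insert_subset_iff, a1, a2]
    · intro e he
      exact Finset.card_pair (hE e he).2.2
  have c2 : ∑ W ∈ V.powerset, Smp_wt V p W *
      ((P.filter fun q => q.1.1 ∈ W ∧ q.1.2 ∈ W ∧ q.2.1 ∈ W ∧ q.2.2 ∈ W).card : ℝ)
      = p ^ 4 * P.card := by
    rw [← Smp_count V P (fun q => {q.1.1, q.1.2, q.2.1, q.2.2}) 4 ?_ ?_ p]
    · apply Finset.sum_congr rfl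
      intro W _
      have : (P.filter fun q => q.1.1 ∈ W ∧ q.1.2 ∈ W ∧ q.2.1 ∈ W ∧ q.2.2 ∈ W)
          = P.filter fun q => ({q.1.1, q.1.2, q.2.1, q.2.2} : Finset ℂ) ⊆ W := by
        apply Finset.filter_congr
        intro e _
        simp [Finset.insert_subset_iff]
      rw [this]
    · intro e he
      obtain ⟨a1, a2, a3, a4, _⟩ := hP e he
      simp [Finset.insert_subset_iff, a1, a2, a3, a4]
    · intro e he
      obtain ⟨a1, a2, a3, a4, b1, b2, b3, b4, b5, b6⟩ := hP e he
      show ({e.1.1, e.1.2, e.2.1, e.2.2} : Finset ℂ).card = 4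
      rw [Finset.card_insert_of_notMem, Finset.card_insert_of_notMem, Finset.card_pair b2]
      · simp [b5, b6]
      · simp [b1, b3, b4]
  have c3 : ∑ W ∈ V.powerset, Smp_wt V p W * (W.card : ℝ) = p * V.card := by
    have := Smp_count V V (fun v => {v}) 1 ?_ ?_ p
    · rw [pow_one] at this
      rw [← this]
      apply Finset.sum_congr rfl
      intro W hWV
      have : (V.filter fun v => ({v} : Finset ℂ) ⊆ W) = W := by
        ext v
        simp only [Finset.mem_filter, Finset.singleton_subset_iff]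
        constructor
        · exact fun h => h.2
        · exact fun h => ⟨Finset.mem_powerset.mp hWV h, h⟩
      rw [this]
    · intro v hv; simpa using hv
    · intro v _; exact Finset.card_singleton v
  have c4 : ∑ W ∈ V.powerset, Smp_wt V p W * (3 * (W.card : ℝ) +
        ((P.filter fun q => q.1.1 ∈ W ∧ q.1.2 ∈ W ∧ q.2.1 ∈ W ∧ q.2.2 ∈ W).card : ℝ))
      = 3 * p * V.card + p ^ 4 * P.card := by
    have : ∀ W ∈ V.powerset, Smp_wt V p W * (3 * (W.card : ℝ) +
        ((P.filter fun q => q.1.1 ∈ W ∧ q.1.2 ∈ W ∧ q.2.1 ∈ W ∧ q.2.2 ∈ W).card : ℝ))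
        = 3 * (Smp_wt V p W * (W.card : ℝ)) + Smp_wt V p W *
        ((P.filter fun q => q.1.1 ∈ W ∧ q.1.2 ∈ W ∧ q.2.1 ∈ W ∧ q.2.2 ∈ W).card : ℝ) := by
      intro W _
      ring
    rw [Finset.sum_congr rfl this, Finset.sum_add_distrib, ← Finset.mul_sum, c3, c2]
    ring
  rw [c1, c4] at key
  exact key

end Dadc30.Gap
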