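import Pool.Agent.Lib.MP_dadc30_coG.TorB

set_option linter.all false

/-!
# MP_dadc30_co, Theorem Q, module Spe: the spectral formula for the autocorrelation
-/

open MeasureTheory Filter Topology
open scoped Real ComplexConjugate

namespace Dadc30.Gap

/-- Fourier coefficient of a complex function on the torus -/
noncomputable def Spe_co (f : Tor → ℂ) (k : Fin 2 → ℤ) : ℂ :=
  ∫ z, UnitAddTorus.mFourier (-k) z * f z ∂haarT

theorem Spe_parseval (f g : Tor → ℂ) (hf : MemLp f 2 haarT) (hg : MemLp g 2 haarT) :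
    HasSum (fun k : Fin 2 → ℤ => conj (Spe_co f k) * Spe_co g k)
      (∫ z, conj (f z) * g z ∂haarT) := by
  have h := UnitAddTorus.hasSum_prod_mFourierCoeff (d := Fin 2) (hf.toLp f) (hg.toLp g)
  have e1 : (∫ t, conj ((hf.toLp f : Tor → ℂ) t) * (hg.toLp g : Tor → ℂ) t ∂haarT) =
      ∫ z, conj (f z) * g z ∂haarT := by
    apply integral_congr_ae
    filter_upwards [hf.coeFn_toLp, hg.coeFn_toLp] with z h1 h2
    rw [h1, h2]
  have e2 : ∀ (f : Tor → ℂ) (hf : MemLp f 2 haarT) (k : Fin 2 → ℤ),
      UnitAddTorus.mFourierCoeff (hf.toLp f : Tor → ℂ) k = Spe_co f k := by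
    intro f hf k
    unfold Spe_co UnitAddTorus.mFourierCoeff
    apply integral_congr_ae
    filter_upwards [hf.coeFn_toLp] with z h1
    rw [h1, smul_eq_mul]
  have h' : HasSum (fun k : Fin 2 → ℤ => conj (Spe_co f k) * Spe_co g k)
      (∫ t, conj ((hf.toLp f : Tor → ℂ) t) * (hg.toLp g : Tor → ℂ) t ∂haarT) := by
    refine HasSum.congr_fun h fun k => ?_
    rw [← e2 f hf k, ← e2 g hg k]
    rfl
  rwa [e1] at h'

theorem Spe_mFourier_add (k : Fin 2 → ℤ) (x y : Tor) :
    UnitAddTorus.mFourier k (x + y) = UnitAddTorus.mFourier k x * UnitAddTorus.mFourier k y := by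
  simp only [UnitAddTorus.mFourier, ContinuousMap.coe_mk, Pi.add_apply, fourier_apply, smul_add,
    AddCircle.toCircle_add, Circle.coe_mul, Finset.prod_mul_distrib]

theorem Spe_mFourier_prj (T : ℝ) (k : Fin 2 → ℤ) (w : ℂ) :
    UnitAddTorus.mFourier k (prj T w) =
      Complex.exp (((2 * π / T) * (k 0 * w.re + k 1 * w.im) : ℝ) * Complex.I) := by
  simp only [UnitAddTorus.mFourier, ContinuousMap.coe_mk, Fin.prod_univ_two, prj,
    Matrix.cons_val_zero, Matrix.cons_val_one, fourier_coe_apply]
  rw [← Complex.exp_add]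
  congr 1
  push_cast
  by_cases hT : (T : ℂ) = 0
  · rw [hT]; simp
  · field_simp

/-- coefficient of a translate -/
theorem Spe_co_translate (f : Tor → ℂ) (a : Tor) (k : Fin 2 → ℤ) :
    Spe_co (fun z => f (z + a)) k = UnitAddTorus.mFourier k a * Spe_co f k := by
  unfold Spe_co
  have h1 : (∫ z, UnitAddTorus.mFourier (-k) z * f (z + a) ∂haarT) =
      ∫ z, (fun y => UnitAddTorus.mFourier (-k) (y - a) * f y) (z + a) ∂haarT := by
    apply integral_congr_ae
    filter_upwards with z
    simp only [add_sub_cancel_right]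
  rw [h1, integral_add_right_eq_self (μ := haarT)
    (fun y => UnitAddTorus.mFourier (-k) (y - a) * f y) a, ← integral_const_mul]
  apply integral_congr_ae
  filter_upwards with z
  have h2 : UnitAddTorus.mFourier (-k) (z - a) =
      UnitAddTorus.mFourier (-k) z * UnitAddTorus.mFourier k a := by
    rw [sub_eq_add_neg, Spe_mFourier_add]
    congr 1
    have h3 : UnitAddTorus.mFourier (-k) (-a) * UnitAddTorus.mFourier (-k) a = 1 := by
      rw [← Spe_mFourier_add, neg_add_cancel]
      simp [UnitAddTorus.mFourier]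
    have h4 : UnitAddTorus.mFourier k a * UnitAddTorus.mFourier (-k) a = 1 := by
      rw [← UnitAddTorus.mFourier_add, add_neg_cancel, UnitAddTorus.mFourier_zero]
      rfl
    have h5 : UnitAddTorus.mFourier (-k) a ≠ 0 := by
      intro h
      rw [h, mul_zero] at h4
      exact zero_ne_one h4
    exact mul_right_cancel₀ h5 (h3.trans h4.symm)
  rw [h2]
  ring

theorem speStmt : SpeStmt := by
  intro T B hB
  set f : Tor → ℂ := B.indicator (fun _ => (1 : ℂ)) with hf
  have hfm : Measurable f := measurable_const.indicator hB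
  have hfL : MemLp f 2 haarT := by
    refine MemLp.of_bound hfm.aestronglyMeasurable 1 ?_
    filter_upwards with z
    by_cases hz : z ∈ B <;> simp [hf, hz]
  refine ⟨fun k => ‖Spe_co f k‖ ^ 2, fun k => ((2 * π / T * k 0 : ℝ) : ℂ) +
    ((2 * π / T * k 1 : ℝ) : ℂ) * Complex.I, fun k => by positivity, fun w => ?_⟩
  have hgm : Measurable fun z => f (z + prj T w) := hfm.comp (measurable_add_const _)
  have hgL : MemLp (fun z => f (z + prj T w)) 2 haarT := by
    refine MemLp.of_bound hgm.aestronglyMeasurable 1 ?_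
    filter_upwards with z
    by_cases hz : z + prj T w ∈ B <;> simp [hf, hz]
  have h1 := Spe_parseval f _ hfL hgL
  have h2 : (∫ z, conj (f z) * f (z + prj T w) ∂haarT) = (cor T B w : ℂ) := by
    have h3 : ∀ z, conj (f z) * f (z + prj T w) =
        ({z | z ∈ B ∧ z + prj T w ∈ B} : Set Tor).indicator (fun _ => (1 : ℂ)) z := by
      intro z
      by_cases h1 : z ∈ B <;> by_cases h2 : z + prj T w ∈ B <;>
        simp [hf, h1, h2, Set.indicator_apply]
    simp_rw [h3]
    have hm : MeasurableSet ({z | z ∈ B ∧ z + prj T w ∈ B} : Set Tor) :=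
      hB.inter ((measurable_add_const (prj T w)) hB)
    rw [integral_indicator hm, setIntegral_const, cor, measureReal_def]
    simp
  rw [h2] at h1
  have h4 := Complex.hasSum_re h1
  rw [Complex.ofReal_re] at h4
  refine HasSum.congr_fun h4 fun k => ?_
  rw [Spe_co_translate, Spe_mFourier_prj]
  have h5 : ∀ (c e : ℂ), (conj c * (e * c)).re = ‖c‖ ^ 2 * e.re := by
    intro c e
    have : conj c * (e * c) = ((‖c‖ ^ 2 : ℝ) : ℂ) * e := by
      rw [← Complex.normSq_eq_norm_sq, Complex.normSq_eq_conj_mul_self]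
      ring
    rw [this, Complex.re_ofReal_mul]
  rw [h5, Complex.exp_ofReal_mul_I_re]
  congr 2
  simp [ip]
  ring

end Dadc30.Gap
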