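import Pool.Agent.Lib.MP_dadc30_coG.TorB

set_option linter.all false

/-!
# MP_dadc30_co, Theorem Q, module Sst: at most `5 n^(4/3)` unit distances
-/

open MeasureTheory Filter Topology
open scoped Real ComplexConjugate

namespace Dadc30.Gap

theorem Sst_edg {X : Finset ℂ} {e : ℂ × ℂ} (he : e ∈ edg X) :
    e.1 ∈ X ∧ e.2 ∈ X ∧ e.1 ≠ e.2 := by
  classical
  unfold edg at he
  rw [Finset.mem_filter, Finset.mem_product] at he
  obtain ⟨⟨h1, h2⟩, c, hc, hcons⟩ := he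
  refine ⟨h1, h2, fun h => ?_⟩
  have := hcons.2.2.1
  rw [h] at this
  exact lt_irrefl _ this

theorem Sst_crs {X : Finset ℂ} {q : (ℂ × ℂ) × (ℂ × ℂ)} (hq : q ∈ crs X) :
    q.1 ∈ edg X ∧ q.2 ∈ edg X := by
  classical
  unfold crs at hq
  rw [Finset.mem_filter, Finset.mem_product] at hq
  exact hq.1

theorem Sst_gp (hS : SmpStmt) (h1 : Ed1Stmt) (h2 : Ed2Stmt) (h3 : Ed3Stmt) (X : Finset ℂ)
    (hG : Gp X) : ∑ x ∈ X, (deg X x : ℝ) ≤ 10 * (X.card : ℝ) ^ ((4 : ℝ) / 3) := by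
  rcases Nat.eq_zero_or_pos X.card with h0 | h0
  · have : X = ∅ := Finset.card_eq_zero.1 h0
    subst this
    simp
  have hn : (1 : ℝ) ≤ (X.card : ℝ) := by exact_mod_cast h0
  set n : ℝ := (X.card : ℝ) with hnd
  set q : ℝ := n ^ ((1 : ℝ) / 3) with hq
  have hq1 : 1 ≤ q := Real.one_le_rpow hn (by norm_num)
  have hq3 : q ^ 3 = n := by
    rw [hq, ← Real.rpow_natCast, ← Real.rpow_mul (by linarith)]
    norm_num
  have hq4 : n ^ ((4 : ℝ) / 3) = q ^ 4 := by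
    rw [hq, ← Real.rpow_natCast, ← Real.rpow_mul (by linarith)]
    norm_num
  have hq0 : 0 < q := by linarith
  have hp1 : q⁻¹ ≤ 1 := inv_le_one_of_one_le₀ hq1
  have hp0 : 0 ≤ q⁻¹ := by positivity
  have hed2 := h2 X hG
  have key := hS X (edg X) (crs X) (fun e he => Sst_edg he) (fun r hr => by
    obtain ⟨ha, hb⟩ := Sst_crs hr
    obtain ⟨a1, a2, a3⟩ := Sst_edg ha
    obtain ⟨b1, b2, b3⟩ := Sst_edg hb
    obtain ⟨c1, c2, c3, c4⟩ := hed2.2 r hr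
    exact ⟨a1, a2, b1, b2, a3, b3, c1, c2, c3, c4⟩) (fun W hW => by
    have := h3 X hG W hW
    have h' : ((((edg X).filter fun e => e.1 ∈ W ∧ e.2 ∈ W).card : ℕ) : ℝ) ≤
        ((3 * W.card + ((crs X).filter fun q => q.1.1 ∈ W ∧ q.1.2 ∈ W ∧ q.2.1 ∈ W ∧
          q.2.2 ∈ W).card : ℕ) : ℝ) := by
      exact_mod_cast (by convert this)
    push_cast at h'
    exact h') q⁻¹ hp0 hp1
  have hc : ((crs X).card : ℝ) ≤ n ^ 2 / 2 := by
    have := hed2.1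
    rw [← hnd] at this
    linarith
  have hed1 := h1 X hG
  rw [← hnd] at hed1 key
  have hE : ((edg X).card : ℝ) ≤ 7 / 2 * q ^ 4 := by
    have e1 : (q⁻¹) ^ 2 * ((edg X).card : ℝ) ≤ 3 * q⁻¹ * n + (q⁻¹) ^ 4 * (n ^ 2 / 2) :=
      key.trans (by gcongr)
    have e2 : q ^ 2 * ((q⁻¹) ^ 2 * ((edg X).card : ℝ)) ≤
        q ^ 2 * (3 * q⁻¹ * n + (q⁻¹) ^ 4 * (n ^ 2 / 2)) :=
      mul_le_mul_of_nonneg_left e1 (by positivity)
    have e3 : q ^ 2 * ((q⁻¹) ^ 2 * ((edg X).card : ℝ)) = ((edg X).card : ℝ) := by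
      field_simp
    have e4 : q ^ 2 * (3 * q⁻¹ * n + (q⁻¹) ^ 4 * (n ^ 2 / 2)) = 7 / 2 * q ^ 4 := by
      rw [← hq3]
      field_simp
      ring
    rw [e3, e4] at e2
    exact e2
  rw [hq4]
  have : n ≤ q ^ 4 := by
    rw [← hq3]
    exact pow_le_pow_right₀ hq1 (by norm_num)
  have h40 : 0 ≤ q ^ 4 := by positivity
  linarith

/-- MODULE Sst. -/
theorem sstStmt : SmpStmt → Ed1Stmt → Ed2Stmt → Ed3Stmt → GenStmt → SstStmt := by
  intro hS h1 h2 h3 hG X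
  obtain ⟨Y, hY, hc, hs⟩ := hG X
  rw [hs, ← hc]
  exact Sst_gp hS h1 h2 h3 Y hY

end Dadc30.Gap
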