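import Pool.Agent.Lib.MP_dadc30_coG.Dens1
import Pool.Agent.Lib.MP_dadc30_coG.Dens2
import Pool.Agent.Lib.MP_dadc30_coG.Dens
import Pool.Agent.Lib.MP_dadc30_coG.Pos
import Pool.Agent.Lib.MP_dadc30_coG.Cor
import Pool.Agent.Lib.MP_dadc30_coG.Spe
import Pool.Agent.Lib.MP_dadc30_coG.Cnt
import Pool.Agent.Lib.MP_dadc30_coG.CS1
import Pool.Agent.Lib.MP_dadc30_coG.CS2
import Pool.Agent.Lib.MP_dadc30_coG.CS
import Pool.Agent.Lib.MP_dadc30_coG.GoodM
import Pool.Agent.Lib.MP_dadc30_coG.Bes1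
import Pool.Agent.Lib.MP_dadc30_coG.Bes2
import Pool.Agent.Lib.MP_dadc30_coG.Pt
import Pool.Agent.Lib.MP_dadc30_coG.Cir
import Pool.Agent.Lib.MP_dadc30_coG.Hsc
import Pool.Agent.Lib.MP_dadc30_coG.Av1
import Pool.Agent.Lib.MP_dadc30_coG.Av2
import Pool.Agent.Lib.MP_dadc30_coG.Dbl
import Pool.Agent.Lib.MP_dadc30_coG.QB
import Pool.Agent.Lib.MP_dadc30_coG.PB
import Pool.Agent.Lib.MP_dadc30_coG.Sel1
import Pool.Agent.Lib.MP_dadc30_coG.Sel2
import Pool.Agent.Lib.MP_dadc30_coG.Sel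
import Pool.Agent.Lib.MP_dadc30_coG.Deg1
import Pool.Agent.Lib.MP_dadc30_coG.Lg
import Pool.Agent.Lib.MP_dadc30_coG.Deg
import Pool.Agent.Lib.MP_dadc30_coG.Pl1
import Pool.Agent.Lib.MP_dadc30_coG.Pl2
import Pool.Agent.Lib.MP_dadc30_coG.Pl3
import Pool.Agent.Lib.MP_dadc30_coG.Pl
import Pool.Agent.Lib.MP_dadc30_coG.Smp
import Pool.Agent.Lib.MP_dadc30_coG.Arc
import Pool.Agent.Lib.MP_dadc30_coG.Cc
import Pool.Agent.Lib.MP_dadc30_coG.Ed1
import Pool.Agent.Lib.MP_dadc30_coG.Ed2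
import Pool.Agent.Lib.MP_dadc30_coG.Ed3
import Pool.Agent.Lib.MP_dadc30_coG.Gen
import Pool.Agent.Lib.MP_dadc30_coG.Sst
import Pool.Agent.Lib.MP_dadc30_coG.Err
import Pool.Agent.Lib.MP_dadc30_coG.DegP

set_option linter.all false

/-!
# MP_dadc30_co, Theorem Q: assembly
-/

namespace Dadc30.Gap

theorem densF : DensStmt := densStmt dens1Stmt dens2Stmt

theorem csF : CSStmt :=
  csStmt cs1Stmt (cs2Stmt cs1Stmt corStmt) corStmt speStmt cntStmt

theorem goodF : GoodStmt := goodStmt corStmt speStmt cntStmt csF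

theorem ptF : PtStmt := ptStmt bes1Stmt bes2Stmt

theorem av1F : Av1Stmt := av1Stmt cirStmt hscStmt

theorem av2F : Av2Stmt := av2Stmt cirStmt hscStmt bes1Stmt

theorem qbF : QBStmt := qbStmt bes1Stmt ptF av1F av2F dblStmt

theorem pbF : PBStmt := pbStmt qbF dblStmt

theorem sel2F : Sel2Stmt := sel2Stmt corStmt sel1Stmt

theorem selF : SelStmt := selStmt goodF sel2F

theorem deg1F : Deg1Stmt := deg1Stmt densF corStmt goodF pbF dblStmt selF

theorem degF : DegStmt := degStmt deg1F lgStmt posStmt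

theorem pl2F : Pl2Stmt := pl2Stmt pl1Stmt

theorem pl3F : Pl3Stmt := pl3Stmt pl1Stmt

theorem plF : PlStmt := plStmt pl1Stmt pl2F pl3F

theorem ed1F : Ed1Stmt := ed1Stmt arcStmt ccStmt

theorem ed2F : Ed2Stmt := ed2Stmt arcStmt

theorem ed3F : Ed3Stmt := ed3Stmt arcStmt plF

/-- the bound of Spencer, Szemeredi and Trotter -/
theorem sstF : SstStmt := sstStmt smpStmt ed1F ed2F ed3F genStmt

theorem errF : ErrStmt := errStmt degF sstF

theorem degPF : DegPStmt := degPStmt degF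

end Dadc30.Gap
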