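import Pool.Agent.Lib.MP_dadc30_coG.TorB

set_option linter.all false

/-!
# MP_dadc30_co, Theorem Q, module Sel: the selection, averaged over a circle
-/

open MeasureTheory Filter Topology
open scoped Real ComplexConjugate

namespace Dadc30.Gap

/-- an independent set of maximal weight -/
theorem Sel_max (X : Finset ℂ) (w : ℂ → ℝ) : ∃ S ⊆ X, Avoids (S : Set ℂ) ∧
    ∀ S' ⊆ X, Avoids (S' : Set ℂ) → ∑ x ∈ S', w x ≤ ∑ x ∈ S, w x := by
  classical
  have hne : (X.powerset.filter fun S : Finset ℂ => Avoids (S : Set ℂ)).Nonempty := by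
    refine ⟨∅, Finset.mem_filter.mpr ⟨Finset.mem_powerset.mpr (Finset.empty_subset _), ?_⟩⟩
    intro x hx
    simp at hx
  obtain ⟨S, hS, hmax⟩ := Finset.exists_max_image _ (fun S => ∑ x ∈ S, w x) hne
  rw [Finset.mem_filter, Finset.mem_powerset] at hS
  refine ⟨S, hS.1, hS.2, fun S' h1 h2 => ?_⟩
  exact hmax S' (Finset.mem_filter.mpr ⟨Finset.mem_powerset.mpr h1, h2⟩)

/-- MODULE Sel -/
theorem selStmt : GoodStmt → Sel2Stmt → SelStmt := by
  intro hG h2 T B hB hU X w hw t
  have h := hG T B hB hU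
  obtain ⟨S, hS, hA, hmax⟩ := Sel_max X w
  refine ⟨S, hS, hA, ?_⟩
  have hu := continuous_uu
  have hd : Continuous fun ω : ℝ => dF (cor T B) (t * uu ω) := by
    unfold dF
    exact continuous_const.sub (h.cont.comp (continuous_const.mul hu))
  have hp : Continuous fun ω : ℝ => pF (cor T B) (t * uu ω) := by
    unfold pF
    apply continuous_cavg
    exact h.cont.comp ((hu.comp continuous_snd).sub (continuous_const.mul (hu.comp continuous_fst)))
  set W := ∑ x ∈ X, w x with hW
  set Wd := ∑ x ∈ X, w x * deg X x with hWd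
  set M := ∑ x ∈ S, w x with hM
  have key : ∀ ω : ℝ, W * (cor T B 0 + dF (cor T B) (t * uu ω)) - Wd * pF (cor T B) (t * uu ω)
      ≤ M := by
    intro ω
    obtain ⟨S', h3, h4, h5⟩ := h2 T B hB hU h.cont X w hw (t * uu ω)
    exact h5.trans (hmax S' h3 h4)
  have h6 : Continuous fun ω : ℝ => W * (cor T B 0 + dF (cor T B) (t * uu ω)) :=
    continuous_const.mul (continuous_const.add hd)
  have h7 : Continuous fun ω : ℝ => Wd * pF (cor T B) (t * uu ω) := continuous_const.mul hp
  have h9 : Continuous fun ω : ℝ => W * (cor T B 0 + dF (cor T B) (t * uu ω)) -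
      Wd * pF (cor T B) (t * uu ω) := h6.sub h7
  have h8 := cavg_mono h9 continuous_const key
  rw [cavg_const, cavg_sub h6 h7, cavg_mul, cavg_mul, cavg_add continuous_const hd,
    cavg_const] at h8
  exact h8

end Dadc30.Gap
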