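import Pool.Agent.Lib.MP_dadc30_coG.Defs

set_option linter.all false

/-!
# MP_dadc30_co, Theorem Q, module TorB: basic facts on the torus
-/

open MeasureTheory Filter Topology
open scoped Real ComplexConjugate

namespace Dadc30.Gap

theorem prj_zero (T : ℝ) : prj T 0 = 0 := by
  funext i
  fin_cases i <;> simp [prj]

theorem prj_add (T : ℝ) (v w : ℂ) : prj T (v + w) = prj T v + prj T w := by
  funext i
  fin_cases i <;> simp [prj, add_div]

theorem prj_neg (T : ℝ) (w : ℂ) : prj T (-w) = -prj T w := by
  funext i
  fin_cases i <;> simp [prj, neg_div]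

theorem prj_sub (T : ℝ) (v w : ℂ) : prj T (v - w) = prj T v - prj T w := by
  rw [sub_eq_add_neg, prj_add, prj_neg, ← sub_eq_add_neg]

theorem continuous_prj (T : ℝ) : Continuous (prj T) := by
  refine continuous_pi fun i => ?_
  fin_cases i
  · exact (AddCircle.continuous_mk' 1).comp (Complex.continuous_re.div_const T)
  · exact (AddCircle.continuous_mk' 1).comp (Complex.continuous_im.div_const T)

theorem measurable_prj (T : ℝ) : Measurable (prj T) := (continuous_prj T).measurable

instance : IsProbabilityMeasure haarT := by
  unfold haarT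
  infer_instance

instance : haarT.IsAddLeftInvariant := by
  unfold haarT
  infer_instance

instance : haarT.IsAddRightInvariant := by
  unfold haarT
  infer_instance

instance : SFinite haarT := inferInstance

theorem continuous_uu : Continuous uu := by
  unfold uu
  fun_prop

theorem norm_uu (φ : ℝ) : ‖uu φ‖ = 1 := Complex.norm_exp_ofReal_mul_I φ

/-- translation invariance of the measure of a set -/
theorem haarT_translate {S : Set Tor} (hS : MeasurableSet S) (a : Tor) :
    haarT {z | z + a ∈ S} = haarT S :=
  (measurePreserving_add_right haarT a).measure_preimage hS.nullMeasurableSet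

theorem integral_translate (f : Tor → ℝ) (a : Tor) :
    ∫ z, f (z + a) ∂haarT = ∫ z, f z ∂haarT :=
  integral_add_right_eq_self f a

/-! averages -/

theorem cavg_const (c : ℝ) : cavg (fun _ => c) = c := by
  unfold cavg
  rw [intervalIntegral.integral_const]
  simp only [sub_zero, smul_eq_mul]
  field_simp

theorem cavg_mono {f g : ℝ → ℝ} (hf : Continuous f) (hg : Continuous g) (h : ∀ φ, f φ ≤ g φ) :
    cavg f ≤ cavg g := by
  unfold cavg
  refine mul_le_mul_of_nonneg_left ?_ (by positivity)
  exact intervalIntegral.integral_mono (by positivity) (hf.intervalIntegrable _ _)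
    (hg.intervalIntegrable _ _) h

theorem cavg_add {f g : ℝ → ℝ} (hf : Continuous f) (hg : Continuous g) :
    cavg (fun φ => f φ + g φ) = cavg f + cavg g := by
  unfold cavg
  rw [intervalIntegral.integral_add (hf.intervalIntegrable _ _) (hg.intervalIntegrable _ _)]
  ring

theorem cavg_sub {f g : ℝ → ℝ} (hf : Continuous f) (hg : Continuous g) :
    cavg (fun φ => f φ - g φ) = cavg f - cavg g := by
  unfold cavg
  rw [intervalIntegral.integral_sub (hf.intervalIntegrable _ _) (hg.intervalIntegrable _ _)]
  ring

theorem cavg_mul (c : ℝ) (f : ℝ → ℝ) : cavg (fun φ => c * f φ) = c * cavg f := by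
  unfold cavg
  rw [intervalIntegral.integral_const_mul]
  ring

theorem cavg_nonneg {f : ℝ → ℝ} (h : ∀ φ, 0 ≤ f φ) : 0 ≤ cavg f := by
  unfold cavg
  refine mul_nonneg (by positivity) ?_
  exact intervalIntegral.integral_nonneg (by positivity) fun φ _ => h φ

/-- rotation invariance -/
theorem cavg_shift {f : ℝ → ℝ} (h : ∀ φ, f (φ + 2 * π) = f φ) (a : ℝ) :
    cavg (fun φ => f (φ + a)) = cavg f := by
  unfold cavg
  congr 1
  rw [intervalIntegral.integral_comp_add_right]
  have hp : Function.Periodic f (2 * π) := h
  have := hp.intervalIntegral_add_eq 0 a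
  rw [zero_add] at this ⊢
  rw [this, add_comm]

/-- the average of a jointly continuous function is continuous -/
theorem continuous_cavg {X : Type*} [TopologicalSpace X] {f : X → ℝ → ℝ}
    (hf : Continuous (Function.uncurry f)) : Continuous fun x => cavg (f x) := by
  unfold cavg
  exact continuous_const.mul (intervalIntegral.continuous_parametric_intervalIntegral_of_continuous'
    hf _ _)

end Dadc30.Gap
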